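import Pool.Agent.TBirM.Pair
import Pool.Agent.TBir.FacT

/-!
# Products of Cauchy kernels as sums, and the difference of the two resolvents
-/

set_option autoImplicit false

open MeasureTheory Complex Set Filter Topology Metric AddCircle
open scoped ComplexConjugate InnerProductSpace ENNReal

namespace Pool.Agent.TBirM

open Pool.Agent.TBir

theorem e_ne_zero (x : UnitAddCircle) : e x ≠ 0 := by
  intro h
  have := norm_e x
  rw [h, norm_zero] at this
  exact zero_ne_one this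

/-- `1 / (zeta - w)`. -/
noncomputable def Ak (w : ℂ) : CT := plusS (fun j => -(w⁻¹) ^ (j + 1))

/-- `1 / (1 - z / zeta)`. -/
noncomputable def Gk (z : ℂ) : CT := minusS (fun j => z ^ j)

theorem Ak_mul {w : ℂ} (hw : 1 < ‖w‖) : Ak w * (fourier 1 - algebraMap ℂ CT w) = 1 := plusS_inv hw

theorem Gk_mul {z : ℂ} (hz : ‖z‖ < 1) : Gk z * (1 - z • fourier (-1)) = 1 := minusS_inv hz

theorem four1_apply (x : UnitAddCircle) : (fourier 1 : CT) x = e x := fourier_one_apply x

theorem fourn_apply (x : UnitAddCircle) : (fourier (-1) : CT) x = (e x)⁻¹ := by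
  have h1 : (fourier (-1) : CT) x * (fourier 1 : CT) x = 1 := by
    rw [← fourier_add]
    simp
  rw [four1_apply] at h1
  exact eq_inv_of_mul_eq_one_left h1

theorem alg_apply (c : ℂ) (x : UnitAddCircle) : (algebraMap ℂ CT c) x = c := rfl

theorem Ak_apply {w : ℂ} (hw : 1 < ‖w‖) (x : UnitAddCircle) : Ak w x = (e x - w)⁻¹ := by
  have h := congrArg (fun f : CT => f x) (Ak_mul hw)
  simp only [ContinuousMap.mul_apply, ContinuousMap.sub_apply, ContinuousMap.one_apply,
    four1_apply, alg_apply] at h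
  exact eq_inv_of_mul_eq_one_left h

theorem Gk_apply {z : ℂ} (hz : ‖z‖ < 1) (x : UnitAddCircle) : Gk z x = (1 - z * (e x)⁻¹)⁻¹ := by
  have h := congrArg (fun f : CT => f x) (Gk_mul hz)
  simp only [ContinuousMap.mul_apply, ContinuousMap.sub_apply, ContinuousMap.one_apply,
    ContinuousMap.smul_apply, fourn_apply, smul_eq_mul] at h
  exact eq_inv_of_mul_eq_one_left h

theorem sum_ct_apply {ι : Type*} (s : Finset ι) (f : ι → CT) (x : UnitAddCircle) :
    (∑ i ∈ s, f i) x = ∑ i ∈ s, f i x := by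
  rw [ContinuousMap.coe_sum, Finset.sum_apply]

theorem prod_ct_apply {ι : Type*} (s : Finset ι) (f : ι → CT) (x : UnitAddCircle) :
    (∏ i ∈ s, f i) x = ∏ i ∈ s, f i x := by
  rw [ContinuousMap.coe_prod, Finset.prod_apply]

theorem prodA {ι : Type*} [DecidableEq ι] (s : Finset ι) (hs : s.Nonempty) {V : ι → ℂ}
    (hV : Set.InjOn V s) (h1 : ∀ j ∈ s, 1 < ‖V j‖) :
    ∏ j ∈ s, Ak (V j) = ∑ j ∈ s, (∏ k ∈ s.erase j, (V j - V k))⁻¹ • Ak (V j) := by
  ext x
  rw [prod_ct_apply, sum_ct_apply]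
  have e1 : ∏ j ∈ s, (Ak (V j)) x = ∏ j ∈ s, (e x - V j)⁻¹ :=
    Finset.prod_congr rfl fun j hj => Ak_apply (h1 j hj) x
  rw [e1, lag s hs hV fun j hj => ?_]
  · refine Finset.sum_congr rfl fun j hj => ?_
    rw [ContinuousMap.smul_apply, Ak_apply (h1 j hj), smul_eq_mul]
  · intro h0
    have h2 := h1 j hj
    rw [← sub_eq_zero.1 h0, norm_e] at h2
    exact lt_irrefl _ h2

theorem lagm {ι : Type*} [DecidableEq ι] (s : Finset ι) (hs : s.Nonempty) {z : ι → ℂ}
    (hz : Set.InjOn z s) (h0 : ∀ j ∈ s, z j ≠ 0) {y : ℂ} (hy : ∀ j ∈ s, 1 - z j * y ≠ 0) :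
    ∏ j ∈ s, (1 - z j * y)⁻¹ =
      ∑ j ∈ s, (∏ k ∈ s.erase j, (1 - z k * (z j)⁻¹))⁻¹ * (1 - z j * y)⁻¹ := by
  have hw : Set.InjOn (fun j => (z j)⁻¹) s := fun a ha b hb hab => hz ha hb (inv_injective hab)
  have hX : ∀ j ∈ s, y - (z j)⁻¹ ≠ 0 := by
    intro j hj h
    apply hy j hj
    rw [sub_eq_zero.1 h, mul_inv_cancel₀ (h0 j hj), sub_self]
  have h1 := lag s hs hw hX
  have h2 : ∀ j ∈ s, (1 - z j * y)⁻¹ = (-z j)⁻¹ * (y - (z j)⁻¹)⁻¹ := by
    intro j hj
    rw [← mul_inv]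
    congr 1
    rw [neg_mul, mul_sub, mul_inv_cancel₀ (h0 j hj)]
    ring
  rw [Finset.prod_congr rfl h2, Finset.prod_mul_distrib, h1, Finset.mul_sum]
  refine Finset.sum_congr rfl fun j hj => ?_
  rw [h2 j hj, ← Finset.mul_prod_erase s (fun k => (-z k)⁻¹) hj]
  have h3 : ∏ k ∈ s.erase j, (1 - z k * (z j)⁻¹) =
      (∏ k ∈ s.erase j, (-z k)) * ∏ k ∈ s.erase j, ((z j)⁻¹ - (z k)⁻¹) := by
    rw [← Finset.prod_mul_distrib]
    refine Finset.prod_congr rfl fun k hk => ?_
    have := h0 k (Finset.mem_of_mem_erase hk)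
    field_simp
    ring
  rw [h3, mul_inv]
  have h4 : ∏ k ∈ s.erase j, (-z k)⁻¹ = (∏ k ∈ s.erase j, (-z k))⁻¹ := Finset.prod_inv_distrib _
  rw [h4]
  ring

theorem prodG {ι : Type*} [DecidableEq ι] (s : Finset ι) (hs : s.Nonempty) {z : ι → ℂ}
    (hz : Set.InjOn z s) (h0 : ∀ j ∈ s, z j ≠ 0) (h1 : ∀ j ∈ s, ‖z j‖ < 1) :
    ∏ j ∈ s, Gk (z j) = ∑ j ∈ s, (∏ k ∈ s.erase j, (1 - z k * (z j)⁻¹))⁻¹ • Gk (z j) := by
  ext x
  rw [prod_ct_apply, sum_ct_apply]
  have e1 : ∏ j ∈ s, (Gk (z j)) x = ∏ j ∈ s, (1 - z j * (e x)⁻¹)⁻¹ :=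
    Finset.prod_congr rfl fun j hj => Gk_apply (h1 j hj) x
  rw [e1, lagm s hs hz h0 fun j hj => ?_]
  · refine Finset.sum_congr rfl fun j hj => ?_
    rw [ContinuousMap.smul_apply, Gk_apply (h1 j hj), smul_eq_mul]
  · intro h2
    have h3 := h1 j hj
    have h4 : z j = e x := by
      have h5 := sub_eq_zero.1 h2
      field_simp [e_ne_zero x] at h5
      exact h5.symm
    rw [h4, norm_e] at h3
    exact lt_irrefl _ h3

/-- The sequence `(a, b, 0, 0, ...)`. -/
def lin2 (a b : ℂ) : ℕ → ℂ := fun n => if n = 0 then a else if n = 1 then b else 0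

theorem lin2_summable (a b : ℂ) : Summable fun j => ‖lin2 a b j‖ := by
  refine summable_of_ne_finset_zero (s := {0, 1}) fun j hj => ?_
  have h0 : j ≠ 0 := fun h => hj (by simp [h])
  have h1 : j ≠ 1 := fun h => hj (by simp [h])
  simp [lin2, h0, h1]

theorem conv_lin2 {C eta : ℝ} {b0 : ℕ → ℂ} (hb : Dec C eta b0) (a b : ℂ) :
    Dec (C * (‖a‖ + ‖b‖ * Real.exp eta)) eta
      (fun n => ∑ j ∈ Finset.range (n + 1), b0 j * lin2 a b (n - j)) := by
  have hC : 0 ≤ C := by
    have := (norm_nonneg _).trans (hb 0)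
    simpa using this
  intro n
  rcases n with _ | n
  · have e1 : ∑ j ∈ Finset.range (0 + 1), b0 j * lin2 a b (0 - j) = b0 0 * a := by
      simp [lin2]
    simp only at e1 ⊢
    rw [e1, norm_mul]
    have h1 := hb 0
    have h2 := Real.exp_pos eta
    have h3 : Real.exp (-(eta * ((0 : ℕ) : ℝ))) = 1 := by simp
    rw [h3, mul_one] at h1 ⊢
    have h4 : ‖b0 0‖ * ‖a‖ ≤ C * ‖a‖ := mul_le_mul_of_nonneg_right h1 (norm_nonneg _)
    have h5 : 0 ≤ C * (‖b‖ * Real.exp eta) := by positivity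
    calc ‖b0 0‖ * ‖a‖ ≤ C * ‖a‖ := h4
      _ ≤ C * (‖a‖ + ‖b‖ * Real.exp eta) := by rw [mul_add]; linarith
  · have e1 : ∑ j ∈ Finset.range (n + 1 + 1), b0 j * lin2 a b (n + 1 - j) =
        b0 n * b + b0 (n + 1) * a := by
      rw [Finset.sum_range_succ, Finset.sum_range_succ]
      have e2 : ∑ j ∈ Finset.range n, b0 j * lin2 a b (n + 1 - j) = 0 := by
        refine Finset.sum_eq_zero fun j hj => ?_
        rw [Finset.mem_range] at hj
        have h1 : n + 1 - j ≠ 0 := by omega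
        have h2 : n + 1 - j ≠ 1 := by omega
        simp [lin2, h1, h2]
      have e3 : n + 1 - n = 1 := by omega
      have e4 : n + 1 - (n + 1) = 0 := by omega
      rw [e2, e3, e4, zero_add]
      simp [lin2]
    simp only
    rw [e1]
    have h1 := hb n
    have h2 := hb (n + 1)
    have h3 : Real.exp (-(eta * (n : ℝ))) =
        Real.exp eta * Real.exp (-(eta * ((n + 1 : ℕ) : ℝ))) := by
      rw [← Real.exp_add]
      congr 1
      push_cast
      ring
    rw [h3] at h1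
    calc ‖b0 n * b + b0 (n + 1) * a‖ ≤ ‖b0 n‖ * ‖b‖ + ‖b0 (n + 1)‖ * ‖a‖ := by
          rw [← norm_mul, ← norm_mul]
          exact norm_add_le _ _
      _ ≤ (C * (Real.exp eta * Real.exp (-(eta * ((n + 1 : ℕ) : ℝ))))) * ‖b‖ +
          (C * Real.exp (-(eta * ((n + 1 : ℕ) : ℝ)))) * ‖a‖ :=
        add_le_add (mul_le_mul_of_nonneg_right h1 (norm_nonneg _))
          (mul_le_mul_of_nonneg_right h2 (norm_nonneg _))
      _ = C * (‖a‖ + ‖b‖ * Real.exp eta) * Real.exp (-(eta * ((n + 1 : ℕ) : ℝ))) := by ring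

theorem plusS_lin2 (a b : ℂ) : plusS (lin2 a b) = algebraMap ℂ CT a + b • fourier 1 := by
  ext x
  rw [plusS_apply (lin2_summable a b), tsum_eq_sum (s := {0, 1}) fun j hj => ?_]
  · rw [Finset.sum_pair zero_ne_one]
    simp only [ContinuousMap.add_apply, ContinuousMap.smul_apply, four1_apply, alg_apply,
      smul_eq_mul]
    simp [lin2]
  · have h0 : j ≠ 0 := fun h => hj (by simp [h])
    have h1 : j ≠ 1 := fun h => hj (by simp [h])
    simp [lin2, h0, h1]

theorem minusS_lin2 (a b : ℂ) : minusS (lin2 a b) = algebraMap ℂ CT a + b • fourier (-1) := by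
  ext x
  rw [minusS_apply (lin2_summable a b), tsum_eq_sum (s := {0, 1}) fun j hj => ?_]
  · rw [Finset.sum_pair zero_ne_one]
    simp only [ContinuousMap.add_apply, ContinuousMap.smul_apply, fourn_apply, alg_apply,
      smul_eq_mul]
    simp [lin2]
  · have h0 : j ≠ 0 := fun h => hj (by simp [h])
    have h1 : j ≠ 1 := fun h => hj (by simp [h])
    simp [lin2, h0, h1]

theorem mul_lin_plus {C eta : ℝ} (heta : 0 < eta) {bp : ℕ → ℂ} (hb : Dec C eta bp) (w0 : ℂ) :
    ∃ b' : ℕ → ℂ, Dec (C * (‖w0‖ + Real.exp eta)) eta b' ∧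
      plusS b' = plusS bp * (fourier 1 - algebraMap ℂ CT w0) := by
  refine ⟨fun n => ∑ j ∈ Finset.range (n + 1), bp j * lin2 (-w0) 1 (n - j), ?_, ?_⟩
  · have h := conv_lin2 hb (-w0) 1
    rw [norm_neg, norm_one, one_mul] at h
    exact h
  · rw [← plusS_mul (summable_of_dec heta hb) (lin2_summable (-w0) 1), plusS_lin2, one_smul, map_neg]
    congr 1
    abel

theorem mul_lin_minus {C eta : ℝ} (heta : 0 < eta) {bm : ℕ → ℂ} (hb : Dec C eta bm) (z0 : ℂ) :
    ∃ b' : ℕ → ℂ, Dec (C * (1 + ‖z0‖ * Real.exp eta)) eta b' ∧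
      minusS b' = minusS bm * (1 - z0 • fourier (-1)) := by
  refine ⟨fun n => ∑ j ∈ Finset.range (n + 1), bm j * lin2 1 (-z0) (n - j), ?_, ?_⟩
  · have h := conv_lin2 hb 1 (-z0)
    rw [norm_neg, norm_one] at h
    exact h
  · rw [← minusS_mul (summable_of_dec heta hb) (lin2_summable 1 (-z0)), minusS_lin2, map_one]
    congr 1
    rw [sub_eq_add_neg]
    congr 1
    ext x
    simp

theorem T_neg' (x : CT) : T (-x) = -T x := by
  have h : -x = (-1 : ℂ) • x := by
    ext t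
    rw [ContinuousMap.neg_apply, ContinuousMap.smul_apply, neg_one_smul]
  rw [h, T_smul, neg_one_smul]

/-- resolvent from an inverse of `A - l` -/
theorem resolvent_eq_neg {A : Type*} [Ring A] [Algebra ℂ A] {x y : A} {l : ℂ}
    (h1 : (x - algebraMap ℂ A l) * y = 1) (h2 : y * (x - algebraMap ℂ A l) = 1) :
    resolvent x l = -y := by
  unfold resolvent
  have e1 : (algebraMap ℂ A l - x) * (-y) = 1 := by
    rw [mul_neg, ← neg_mul, neg_sub, h1]
  have e2 : (-y) * (algebraMap ℂ A l - x) = 1 := by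
    rw [neg_mul, ← mul_neg, neg_sub, h2]
  exact Ring.inverse_unit (⟨algebraMap ℂ A l - x, -y, e1, e2⟩ : Aˣ)

/-- the operator as a semicommutator -/
theorem res_sub {Phi : CT} {l : ℂ} {a d m0 p0 : CT} (ha : Plus a) (hd : Minus d)
    (hm : Minus m0) (hp : Plus p0) (hfac : Phi - algebraMap ℂ CT l = m0 * p0)
    (hap : a * p0 = 1) (hdm : d * m0 = 1) :
    resolvent (T Phi) l - T (resolvent Phi l) = SC a d := by
  have r1 : resolvent Phi l = -(a * d) := by
    apply resolvent_eq_neg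
    · rw [hfac]
      calc m0 * p0 * (a * d) = (a * p0) * (d * m0) := by ring
        _ = 1 := by rw [hap, hdm, one_mul]
    · rw [hfac]
      calc a * d * (m0 * p0) = (a * p0) * (d * m0) := by ring
        _ = 1 := by rw [hap, hdm, one_mul]
  have t1 : T a * T p0 = 1 := by rw [← T_mul_right a hp, hap, T_one]
  have t2 : T p0 * T a = 1 := by rw [← T_mul_right p0 ha, mul_comm, hap, T_one]
  have t3 : T d * T m0 = 1 := by rw [← T_mul_left hd m0, hdm, T_one]
  have t4 : T m0 * T d = 1 := by rw [← T_mul_left hm d, mul_comm, hdm, T_one]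
  have hT : T Phi - algebraMap ℂ (Hardy →L[ℂ] Hardy) l = T m0 * T p0 := by
    rw [← T_mul_left hm p0, ← hfac, T_sub, T_algebraMap, Algebra.algebraMap_eq_smul_one]
  have r2 : resolvent (T Phi) l = -(T a * T d) := by
    apply resolvent_eq_neg
    · rw [hT]
      calc T m0 * T p0 * (T a * T d) = T m0 * (T p0 * T a) * T d := by
            simp only [mul_assoc]
        _ = 1 := by rw [t2, mul_one, t4]
    · rw [hT]
      calc T a * T d * (T m0 * T p0) = T a * (T d * T m0) * T p0 := by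
            simp only [mul_assoc]
        _ = 1 := by rw [t3, mul_one, t1]
  rw [r1, r2, T_neg']
  unfold SC
  abel

theorem minus_one_sub (z : ℂ) : Minus (1 - z • fourier (-1) : CT) := by
  have h1 : (1 : CT) = algebraMap ℂ CT 1 := by rw [map_one]
  have h2 : (z • fourier (-1) : CT) = algebraMap ℂ CT z * fourier (-1) := by
    ext t
    rw [ContinuousMap.smul_apply, ContinuousMap.mul_apply, alg_apply, smul_eq_mul]
  rw [h2, h1]
  exact (minus_algebraMap 1).sub ((minus_algebraMap z).mul (minus_fourier (by norm_num)))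

theorem plus_sub (w : ℂ) : Plus (fourier 1 - algebraMap ℂ CT w : CT) :=
  (plus_fourier (by norm_num)).sub (plus_algebraMap _)

theorem plus_prod {ι : Type*} (s : Finset ι) {f : ι → CT} (h : ∀ i ∈ s, Plus (f i)) :
    Plus (∏ i ∈ s, f i) := by
  refine Finset.prod_induction f Plus (fun a b ha hb => ha.mul hb) ?_ h
  rw [← map_one (algebraMap ℂ CT)]
  exact plus_algebraMap 1

theorem minus_prod {ι : Type*} (s : Finset ι) {f : ι → CT} (h : ∀ i ∈ s, Minus (f i)) :
    Minus (∏ i ∈ s, f i) := by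
  refine Finset.prod_induction f Minus (fun a b ha hb => ha.mul hb) ?_ h
  rw [← map_one (algebraMap ℂ CT)]
  exact minus_algebraMap 1

theorem plus_Ak {w : ℂ} (hw : 1 < ‖w‖) : Plus (Ak w) := by
  have hvn : ‖w⁻¹‖ < 1 := by
    rw [norm_inv]
    exact inv_lt_one_of_one_lt₀ hw
  exact plus_plusS (summable_pow_succ hvn)

theorem minus_Gk {z : ℂ} (hz : ‖z‖ < 1) : Minus (Gk z) := minus_minusS (summable_pow_self hz)

/-- The factorization with index. -/
theorem four_prod {ι : Type*} (s : Finset ι) (z : ι → ℂ) :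
    (fourier (-(s.card : ℤ)) : CT) * ∏ i ∈ s, (fourier 1 - algebraMap ℂ CT (z i)) =
      ∏ i ∈ s, (1 - z i • fourier (-1) : CT) := by
  ext x
  have h1 : (fourier (-(s.card : ℤ)) : CT) x = (e x)⁻¹ ^ s.card := by
    induction s.card with
    | zero => simp
    | succ n ih =>
      have : (-((n + 1 : ℕ) : ℤ)) = -(n : ℤ) + -1 := by push_cast; ring
      rw [this, fourier_add, ih, fourn_apply, pow_succ]
  rw [ContinuousMap.mul_apply, prod_ct_apply, prod_ct_apply, h1, ← Finset.prod_const,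
    ← Finset.prod_mul_distrib]
  refine Finset.prod_congr rfl fun i _ => ?_
  simp only [ContinuousMap.sub_apply, ContinuousMap.one_apply, ContinuousMap.smul_apply,
    four1_apply, fourn_apply, alg_apply, smul_eq_mul]
  rw [mul_sub, inv_mul_cancel₀ (e_ne_zero x), mul_comm (z i)]

end Pool.Agent.TBirM
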