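import Pool.Agent.TBirR.Wds
import Pool.Agent.TBirS.Cut

/-!
# Decomposition of the spectrum into closed sets with finite intersection

Paper proof of `dec_gen`. `hfin : {z | ‖z‖ = 1 ∧ ¬ Simple phi z}.Finite` is `fin_simple hana hE hinj`
(TBirG/Main); get `d`, `hphi : DifferentiableOn ℂ phi (ann d)` as in `bir_good` of TBirR/Main. `Sg phi` is closed
(`isCompact_Sg` of TBirS/Cut), so `closure Ω1 ∪ closure Ω2 ⊆ Sg phi`. Conversely let `l ∈ Sg phi`. If `l ∉ J phi` then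
`l ∈ Ω1 ∪ Ω2`. If `l = phi z`, `‖z‖ = 1`: every ball around `z` contains a simple `z1` (`exists_simple` of
TBirG/Cst) and `phi z1 ∈ closure (Ω1 ∪ Ω2)` since by `wd_simple` (TBirR/Wds) the winding number at `phi w`,
`w` near `z1`, is `m` for `‖w‖ > 1` and `m + 1` for `‖w‖ < 1`, and one of them is not `0` (`tendsto_out`,
`tendsto_in` are used for this in TBirR/Main: `inn_simple`, `loc_bad`). So `phi z` is in the closure too.
Finiteness: let `q ∈ closure Ω1 ∩ closure Ω2`. Since `Ω1`, `Ω2` are open and disjoint, `q ∉ Ω1 ∪ Ω2`; `q ∈ Sg phi`, so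
`q ∈ J phi`, `q = phi z`; if `z` is simple `hs z` contradicts `q ∈ closure Ω1 ∩ closure Ω2`. So `q` is in the image
of the finite set of the non-simple points.

`dec_one`: apply `dec_gen`; `hs`: let `z0` be simple, `m`, `s` from `wd_simple`. `m = 0` since `m` and `m + 1` are winding
numbers, in `{0, 1}`. `phi` is open near `z0` (`deriv phi z0 ≠ 0`: `HasStrictDerivAt.map_nhds_eq`), so near `phi z0`
every `l` is `phi w` with `w ∈ ball z0 s`, and `l ∈ Ω1 ∪ Ω2` implies `‖w‖ < 1`. The set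
`phi '' (ball z0 s ∩ ball 0 1)` is preconnected (convex set, continuous map), contained in `Ω1 ∪ Ω2`, so it is
contained in `Ω1` or in `Ω2` (`IsPreconnected.subset_or_subset`).

`dec_sgn`: apply `dec_gen`: at a simple point with `0 ≤ m` no `l` near `phi z0` has negative winding number, and
with `m ≤ -1` none has positive winding number (open map as before).
-/

set_option autoImplicit false

open MeasureTheory Complex Set Filter Topology Metric AddCircle
open scoped ComplexConjugate InnerProductSpace ENNReal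

namespace Pool.Agent.TBirM

open Pool.Agent.TBir Pool.Agent.TBirG
open Pool.Agent.TBirR (wd_simple)
open Pool.Agent.TBirS (Sg isCompact_Sg)

/-- `phi` is open near a simple point. -/
private theorem ev_simple {phi : ℂ → ℂ} (hana : AnalyticOnNhd ℂ phi (sphere 0 1)) {z0 : ℂ}
    (h : Simple phi z0) {p : ℂ → Prop} (hp : ∀ᶠ w in 𝓝 z0, p (phi w)) :
    ∀ᶠ l in 𝓝 (phi z0), p l := by
  have h1 : AnalyticAt ℂ phi z0 := hana z0 (by simpa using h.1)
  have h2 : HasStrictDerivAt phi (deriv phi z0) z0 := h1.hasStrictDerivAt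
  rw [← h2.map_nhds_eq h.2.1]
  exact hp

private theorem exists_d {phi : ℂ → ℂ} (hana : AnalyticOnNhd ℂ phi (sphere 0 1)) :
    ∃ d : ℝ, 0 < d ∧ d < 1 ∧ DifferentiableOn ℂ phi (ann d) := by
  obtain ⟨d, hd, hd1, hsub⟩ := exists_ann_subset (isOpen_analyticAt ℂ phi) hana
  exact ⟨d, hd, hd1, fun w hw =>
    (hsub ⟨hw.1.le, hw.2.le⟩).differentiableAt.differentiableWithinAt⟩

theorem dec_gen {phi : ℂ → ℂ} (hana : AnalyticOnNhd ℂ phi (sphere 0 1)) {E : Set ℂ}
    (hE : E.Finite) (hinj : InjOn phi (sphere 0 1 \ E)) {Ω1 Ω2 : Set ℂ} (o1 : IsOpen Ω1)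
    (o2 : IsOpen Ω2) (hd : Disjoint Ω1 Ω2) (hΩ : Ω1 ∪ Ω2 = {l | l ∉ J phi ∧ wd phi l ≠ 0})
    (hs : ∀ z0, Simple phi z0 → (∀ᶠ l in 𝓝 (phi z0), l ∉ Ω2) ∨ ∀ᶠ l in 𝓝 (phi z0), l ∉ Ω1) :
    closure Ω1 ∪ closure Ω2 = Sg phi ∧ (closure Ω1 ∩ closure Ω2).Finite := by
  have hfin := fin_simple hana hE hinj
  obtain ⟨d, hd0, hd1, hphi⟩ := exists_d hana
  have hcont : ∀ z : ℂ, ‖z‖ = 1 → ContinuousAt phi z := fun z hz =>
    (hana z (by simpa using hz)).continuousAt
  have hmem : ∀ l, l ∈ Ω1 ∪ Ω2 ↔ l ∉ J phi ∧ wd phi l ≠ 0 := fun l => by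
    rw [hΩ]
    exact Iff.rfl
  have hSgc : IsClosed (Sg phi) := (isCompact_Sg hana).isClosed
  have hsub : closure Ω1 ∪ closure Ω2 ⊆ Sg phi := by
    rw [← closure_union]
    refine closure_minimal (fun l hl => Or.inr ((hmem l).1 hl).2) hSgc
  -- the simple points
  have hsim : ∀ z1, Simple phi z1 → phi z1 ∈ closure (Ω1 ∪ Ω2) := by
    intro z1 h1
    obtain ⟨m, -, s, hs0, -, hs'⟩ := wd_simple hd0 hd1 hphi h1
    rw [Metric.mem_closure_iff]
    intro eps heps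
    obtain ⟨δ, hδ, h2⟩ := Metric.continuousAt_iff.1 (hcont z1 h1.1) eps heps
    by_cases hm : m = 0
    · obtain ⟨z, hz, hz1⟩ := tendsto_in h1.1 (lt_min hδ hs0)
      obtain ⟨h3, h4⟩ := hs' z (ball_subset_ball (min_le_right _ _) hz) hz1.ne
      refine ⟨phi z, (hmem _).2 ⟨h3, ?_⟩, ?_⟩
      · rw [h4, hm, if_pos hz1]
        simp
      · rw [dist_comm]
        exact h2 (mem_ball.1 (ball_subset_ball (min_le_left _ _) hz))
    · obtain ⟨z, hz, hz1⟩ := tendsto_out h1.1 (lt_min hδ hs0)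
      obtain ⟨h3, h4⟩ := hs' z (ball_subset_ball (min_le_right _ _) hz) hz1.ne'
      refine ⟨phi z, (hmem _).2 ⟨h3, ?_⟩, ?_⟩
      · rw [h4, if_neg (by linarith), add_zero]
        exact_mod_cast hm
      · rw [dist_comm]
        exact h2 (mem_ball.1 (ball_subset_ball (min_le_left _ _) hz))
  have hJ : ∀ z : ℂ, ‖z‖ = 1 → phi z ∈ closure (Ω1 ∪ Ω2) := by
    intro z hz
    rw [← closure_closure, Metric.mem_closure_iff]
    intro eps heps
    obtain ⟨δ, hδ, h2⟩ := Metric.continuousAt_iff.1 (hcont z hz) eps heps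
    obtain ⟨z1, hz1, h1⟩ := exists_simple hfin hz hδ
    refine ⟨phi z1, hsim z1 h1, ?_⟩
    rw [dist_comm]
    exact h2 (mem_ball.1 hz1)
  have heq : closure Ω1 ∪ closure Ω2 = Sg phi := by
    refine Subset.antisymm hsub fun l hl => ?_
    rw [← closure_union]
    by_cases hlJ : l ∈ J phi
    · obtain ⟨z, hz, rfl⟩ := hlJ
      exact hJ z (by simpa using hz)
    · rcases hl with h | h
      · exact absurd h hlJ
      · exact subset_closure ((hmem l).2 ⟨hlJ, h⟩)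
  refine ⟨heq, (hfin.image phi).subset ?_⟩
  rintro q ⟨hq1, hq2⟩
  have hqJ : q ∈ J phi := by
    by_contra hqJ
    have hqS : q ∈ Sg phi := hsub (Or.inl hq1)
    rcases hqS with h | h
    · exact hqJ h
    · rcases (hmem q).2 ⟨hqJ, h⟩ with h1 | h1
      · obtain ⟨x, hx1, hx2⟩ := mem_closure_iff.1 hq2 Ω1 o1 h1
        exact Set.disjoint_left.1 hd hx1 hx2
      · obtain ⟨x, hx2, hx1⟩ := mem_closure_iff.1 hq1 Ω2 o2 h1
        exact Set.disjoint_left.1 hd hx1 hx2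
  obtain ⟨z, hz, rfl⟩ := hqJ
  refine ⟨z, ⟨by simpa using hz, fun hsz => ?_⟩, rfl⟩
  rcases hs z hsz with h | h
  · exact mem_closure_iff_frequently.1 hq2 (h.mono fun l hl hl' => hl hl')
  · exact mem_closure_iff_frequently.1 hq1 (h.mono fun l hl hl' => hl hl')

/-- The points outside the closed disc near a point of the circle are in a connected set of such
points. -/
private theorem out_conn {z0 : ℂ} (h : ‖z0‖ = 1) {s : ℝ} (hs : 0 < s) :
    ∃ K : Set ℂ, IsPreconnected K ∧ (∀ w ∈ K, w ∈ ball z0 s ∧ 1 < ‖w‖) ∧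
      ∀ᶠ w in 𝓝 z0, 1 < ‖w‖ → w ∈ K := by
  have hz0 : z0 ≠ 0 := by
    rintro rfl
    simp at h
  have hfix : (conj z0)⁻¹ = z0 := by
    rw [inv_eq_iff_eq_inv, ← mul_eq_one_iff_eq_inv₀ hz0, mul_comm, Complex.mul_conj,
      Complex.normSq_eq_norm_sq, h]
    simp
  have hca : ∀ w : ℂ, w ≠ 0 → ContinuousAt (fun w : ℂ => (conj w)⁻¹) w := fun w hw =>
    Complex.continuous_conj.continuousAt.inv₀ (by simpa using hw)
  have hc : ContinuousAt (fun w : ℂ => (conj w)⁻¹) z0 := hca z0 hz0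
  obtain ⟨δ, hδ, h1⟩ := Metric.continuousAt_iff.1 hc s hs
  obtain ⟨ε, hε⟩ : ∃ ε : ℝ, ε = min δ 1 := ⟨_, rfl⟩
  have hε0 : 0 < ε := by rw [hε]; exact lt_min hδ one_pos
  have hne : ∀ w ∈ ball z0 ε, w ≠ 0 := by
    rintro w hw rfl
    rw [mem_ball, dist_zero_left, h, hε] at hw
    exact absurd (hw.trans_le (min_le_right _ _)) (lt_irrefl _)
  refine ⟨(fun w : ℂ => (conj w)⁻¹) '' (ball z0 ε ∩ ball 0 1), ?_, ?_, ?_⟩
  · refine ((convex_ball z0 ε).inter (convex_ball 0 1)).isPreconnected.image _ fun w hw => ?_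
    exact (hca w (hne w hw.1)).continuousWithinAt
  · rintro _ ⟨w, hw, rfl⟩
    have hw0 := hne w hw.1
    have hw1 : ‖w‖ < 1 := by simpa using hw.2
    refine ⟨?_, ?_⟩
    · have h2 := h1 (show dist w z0 < δ from (mem_ball.1 hw.1).trans_le (by
        rw [hε]; exact min_le_left _ _))
      simp only [hfix] at h2
      exact mem_ball.2 h2
    · show 1 < ‖(conj w)⁻¹‖
      rw [norm_inv, RCLike.norm_conj]
      exact one_lt_inv_iff₀.2 ⟨norm_pos_iff.2 hw0, hw1⟩
  · have h2 : ∀ᶠ w in 𝓝 z0, (conj w)⁻¹ ∈ ball z0 ε := by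
      have := hc.eventually (isOpen_ball.mem_nhds (x := (conj z0)⁻¹) (by
        rw [hfix]; exact mem_ball_self hε0) : ball z0 ε ∈ 𝓝 ((conj z0)⁻¹))
      exact this
    filter_upwards [h2] with w hw hw1
    refine ⟨(conj w)⁻¹, ⟨hw, ?_⟩, ?_⟩
    · rw [mem_ball_zero_iff, norm_inv, RCLike.norm_conj]
      exact inv_lt_one_of_one_lt₀ hw1
    · show (conj ((conj w)⁻¹))⁻¹ = w
      rw [map_inv₀, Complex.conj_conj, inv_inv]

theorem dec_abs {phi : ℂ → ℂ} (hana : AnalyticOnNhd ℂ phi (sphere 0 1)) {E : Set ℂ}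
    (hE : E.Finite) (hinj : InjOn phi (sphere 0 1 \ E))
    (hwd : ∀ l, l ∉ J phi → wd phi l = 0 ∨ wd phi l = 1 ∨ wd phi l = -1) {Ω1 Ω2 : Set ℂ}
    (o1 : IsOpen Ω1) (o2 : IsOpen Ω2) (hd : Disjoint Ω1 Ω2)
    (hΩ : Ω1 ∪ Ω2 = {l | l ∉ J phi ∧ wd phi l ≠ 0}) :
    closure Ω1 ∪ closure Ω2 = Sg phi ∧ (closure Ω1 ∩ closure Ω2).Finite := by
  obtain ⟨d, hd0, hd1, hphi⟩ := exists_d hana
  have hcont : ∀ z ∈ ann d, ContinuousAt phi z := fun z hz =>
    hphi.continuousOn.continuousAt ((isOpen_ann d).mem_nhds hz)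
  have hmem : ∀ l, l ∈ Ω1 ∪ Ω2 ↔ l ∉ J phi ∧ wd phi l ≠ 0 := fun l => by
    rw [hΩ]
    exact Iff.rfl
  -- a connected set of values is on one side
  have hside : ∀ z0, Simple phi z0 → ∀ K : Set ℂ, IsPreconnected K → K ⊆ ann d →
      (∀ w ∈ K, phi w ∈ Ω1 ∪ Ω2) → (∀ᶠ w in 𝓝 z0, phi w ∈ Ω1 ∪ Ω2 → w ∈ K) →
      (∀ᶠ l in 𝓝 (phi z0), l ∉ Ω2) ∨ ∀ᶠ l in 𝓝 (phi z0), l ∉ Ω1 := by
    intro z0 h K hK hKa hK1 hK2
    have h1 : IsPreconnected (phi '' K) :=
      hK.image _ fun w hw => (hcont w (hKa hw)).continuousWithinAt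
    have h2 : phi '' K ⊆ Ω1 ∪ Ω2 := by
      rintro _ ⟨w, hw, rfl⟩
      exact hK1 w hw
    rcases h1.subset_or_subset o1 o2 hd h2 with h3 | h3
    · left
      refine ev_simple hana h (hK2.mono fun w hw h4 => ?_)
      exact Set.disjoint_left.1 hd (h3 ⟨w, hw (Or.inr h4), rfl⟩) h4
    · right
      refine ev_simple hana h (hK2.mono fun w hw h4 => ?_)
      exact Set.disjoint_left.1 hd h4 (h3 ⟨w, hw (Or.inl h4), rfl⟩)
  refine dec_gen hana hE hinj o1 o2 hd hΩ fun z0 h => ?_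
  obtain ⟨m, -, s, hs0, hsa, hs'⟩ := wd_simple hd0 hd1 hphi h
  -- the number `m` is `0` or `-1`
  have hm : m = 0 ∨ m = -1 := by
    obtain ⟨z, hz, hz1⟩ := tendsto_out h.1 hs0
    obtain ⟨y, hy, hy1⟩ := tendsto_in h.1 hs0
    obtain ⟨h1, h2⟩ := hs' z hz hz1.ne'
    obtain ⟨h3, h4⟩ := hs' y hy hy1.ne
    rw [if_neg (by linarith), add_zero] at h2
    rw [if_pos hy1] at h4
    have h5 : m = 0 ∨ m = 1 ∨ m = -1 := by
      have := hwd _ h1
      rw [h2] at this
      rcases this with h6 | h6 | h6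
      · exact Or.inl (by exact_mod_cast h6)
      · exact Or.inr (Or.inl (by exact_mod_cast h6))
      · refine Or.inr (Or.inr ?_)
        have h7 : (m : ℂ) = ((-1 : ℤ) : ℂ) := by rw [h6]; simp
        exact_mod_cast h7
    have h6 : m + 1 = 0 ∨ m + 1 = 1 ∨ m + 1 = -1 := by
      have := hwd _ h3
      rw [h4] at this
      rcases this with h6 | h6 | h6
      · refine Or.inl ?_
        have h7 : ((m + 1 : ℤ) : ℂ) = ((0 : ℤ) : ℂ) := by push_cast; exact h6
        exact_mod_cast h7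
      · refine Or.inr (Or.inl ?_)
        have h7 : ((m + 1 : ℤ) : ℂ) = ((1 : ℤ) : ℂ) := by push_cast; exact h6
        exact_mod_cast h7
      · refine Or.inr (Or.inr ?_)
        have h7 : ((m + 1 : ℤ) : ℂ) = ((-1 : ℤ) : ℂ) := by push_cast; exact h6
        exact_mod_cast h7
    omega
  have hcirc : ∀ w : ℂ, ‖w‖ = 1 → phi w ∉ Ω1 ∪ Ω2 := fun w hw h1 =>
    ((hmem _).1 h1).1 ⟨w, by simpa using hw, rfl⟩
  rcases hm with hm | hm
  · refine hside z0 h (ball z0 s ∩ ball 0 1)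
      ((convex_ball z0 s).inter (convex_ball 0 1)).isPreconnected
      (inter_subset_left.trans hsa) ?_ ?_
    · rintro w ⟨hw, hw1⟩
      have hw2 : ‖w‖ < 1 := by simpa using hw1
      obtain ⟨h1, h2⟩ := hs' w hw hw2.ne
      refine (hmem _).2 ⟨h1, ?_⟩
      rw [h2, hm, if_pos hw2]
      simp
    · filter_upwards [ball_mem_nhds z0 hs0] with w hw h1
      refine ⟨hw, ?_⟩
      by_contra hw1
      rw [mem_ball_zero_iff, not_lt] at hw1
      rcases hw1.eq_or_lt with h2 | h2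
      · exact hcirc w h2.symm h1
      · obtain ⟨h3, h4⟩ := hs' w hw h2.ne'
        rw [hm, if_neg (by linarith)] at h4
        exact ((hmem _).1 h1).2 (by rw [h4]; simp)
  · obtain ⟨K, hK, hK1, hK2⟩ := out_conn h.1 hs0
    refine hside z0 h K hK (fun w hw => hsa (hK1 w hw).1) ?_ ?_
    · intro w hw
      obtain ⟨h1, h2⟩ := hK1 w hw
      obtain ⟨h3, h4⟩ := hs' w h1 h2.ne'
      refine (hmem _).2 ⟨h3, ?_⟩
      rw [h4, hm, if_neg (by linarith)]
      simp
    · filter_upwards [ball_mem_nhds z0 hs0, hK2] with w hw hwK h1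
      refine hwK ?_
      by_contra hw1
      rw [not_lt] at hw1
      rcases hw1.eq_or_lt with h2 | h2
      · exact hcirc w h2 h1
      · obtain ⟨h3, h4⟩ := hs' w hw h2.ne
        rw [hm, if_pos h2] at h4
        exact ((hmem _).1 h1).2 (by rw [h4]; simp)

theorem dec_one {phi : ℂ → ℂ} (hana : AnalyticOnNhd ℂ phi (sphere 0 1)) {E : Set ℂ}
    (hE : E.Finite) (hinj : InjOn phi (sphere 0 1 \ E))
    (hwd : ∀ l, l ∉ J phi → wd phi l = 0 ∨ wd phi l = 1) {Ω1 Ω2 : Set ℂ} (o1 : IsOpen Ω1)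
    (o2 : IsOpen Ω2) (hd : Disjoint Ω1 Ω2) (hΩ : Ω1 ∪ Ω2 = {l | l ∉ J phi ∧ wd phi l = 1}) :
    closure Ω1 ∪ closure Ω2 = Sg phi ∧ (closure Ω1 ∩ closure Ω2).Finite := by
  refine dec_abs hana hE hinj (fun l hl => ?_) o1 o2 hd ?_
  · rcases hwd l hl with h | h
    · exact Or.inl h
    · exact Or.inr (Or.inl h)
  · rw [hΩ]
    ext l
    constructor
    · rintro ⟨h1, h2⟩
      refine ⟨h1, ?_⟩
      rw [h2]
      exact one_ne_zero
    · rintro ⟨h1, h2⟩
      exact ⟨h1, (hwd l h1).resolve_left h2⟩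

theorem dec_sgn {phi : ℂ → ℂ} (hana : AnalyticOnNhd ℂ phi (sphere 0 1)) {E : Set ℂ}
    (hE : E.Finite) (hinj : InjOn phi (sphere 0 1 \ E)) :
    closure {l | l ∉ J phi ∧ 0 < (wd phi l).re} ∪ closure {l | l ∉ J phi ∧ (wd phi l).re < 0} =
      Sg phi ∧
    (closure {l | l ∉ J phi ∧ 0 < (wd phi l).re} ∩
      closure {l | l ∉ J phi ∧ (wd phi l).re < 0}).Finite := by
  obtain ⟨d, hd0, hd1, hphi⟩ := exists_d hana
  refine dec_gen hana hE hinj ?_ ?_ ?_ ?_ fun z0 h => ?_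
  · rw [isOpen_iff_mem_nhds]
    rintro l ⟨h1, h2⟩
    filter_upwards [wd_loc hana h1] with l' hl'
    exact ⟨hl'.1, by rw [hl'.2]; exact h2⟩
  · rw [isOpen_iff_mem_nhds]
    rintro l ⟨h1, h2⟩
    filter_upwards [wd_loc hana h1] with l' hl'
    exact ⟨hl'.1, by rw [hl'.2]; exact h2⟩
  · rw [Set.disjoint_left]
    rintro l ⟨_, h1⟩ ⟨_, h2⟩
    exact lt_asymm h1 h2
  · ext l
    constructor
    · rintro (⟨h1, h2⟩ | ⟨h1, h2⟩)
      · refine ⟨h1, fun h3 => ?_⟩
        rw [h3] at h2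
        simp at h2
      · refine ⟨h1, fun h3 => ?_⟩
        rw [h3] at h2
        simp at h2
    · rintro ⟨h1, h2⟩
      obtain ⟨n, hn⟩ := wd_int hana h1
      have hn0 : n ≠ 0 := by
        rintro rfl
        exact h2 (by rw [hn]; simp)
      rcases lt_or_gt_of_ne hn0 with h3 | h3
      · right
        refine ⟨h1, ?_⟩
        rw [hn, Complex.intCast_re]
        exact_mod_cast h3
      · left
        refine ⟨h1, ?_⟩
        rw [hn, Complex.intCast_re]
        exact_mod_cast h3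
  · obtain ⟨m, -, s, hs0, hsa, hs'⟩ := wd_simple hd0 hd1 hphi h
    have hre : ∀ w ∈ ball z0 s, phi w ∉ J phi →
        (wd phi (phi w)).re = m ∨ (wd phi (phi w)).re = m + 1 := by
      intro w hw h1
      have hw1 : ‖w‖ ≠ 1 := fun h2 => h1 ⟨w, by simpa using h2, rfl⟩
      obtain ⟨-, h4⟩ := hs' w hw hw1
      rw [h4]
      split_ifs
      · right
        simp
      · left
        simp
    by_cases hm : 0 ≤ m
    · left
      refine ev_simple hana h ?_
      filter_upwards [ball_mem_nhds z0 hs0] with w hw hw2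
      obtain ⟨h1, h2⟩ := hw2
      have hm' : (0 : ℝ) ≤ m := by exact_mod_cast hm
      rcases hre w hw h1 with h3 | h3
      · rw [h3] at h2
        linarith
      · rw [h3] at h2
        linarith
    · right
      refine ev_simple hana h ?_
      filter_upwards [ball_mem_nhds z0 hs0] with w hw hw2
      obtain ⟨h1, h2⟩ := hw2
      have hm' : (m : ℝ) + 1 ≤ 0 := by
        have : m + 1 ≤ 0 := by omega
        exact_mod_cast this
      rcases hre w hw h1 with h3 | h3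
      · rw [h3] at h2
        linarith
      · rw [h3] at h2
        linarith

end Pool.Agent.TBirM
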