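import Pool.Agent.TBirM.Fin
import Pool.Agent.TBirM.Dec
import Pool.Agent.TBirR.Main

/-!
# Winding numbers zero and one: complete irreducibility and connectedness
-/

set_option autoImplicit false

open MeasureTheory Complex Set Filter Topology Metric AddCircle
open scoped ComplexConjugate InnerProductSpace ENNReal

namespace Pool.Agent.TBirM

open Pool.Agent.TBir Pool.Agent.TBirG
open Pool.Agent.TBirS (Sg isCompact_Sg)
open Pool.Agent.TBirR (main_good)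

theorem dirSep_closure {A B : Set ℂ} {q : ℂ} (h : DirSep A B q) :
    DirSep (closure A) (closure B) q := by
  obtain ⟨c, hc, r, hr, hsep⟩ := h
  refine ⟨c, hc, r, hr, ?_⟩
  intro a ha b hb haq hbq har hbr
  by_contra hlt
  rw [not_le] at hlt
  have hne : ∀ x : ℂ, x ≠ q → (‖x - q‖ : ℂ) ≠ 0 := fun x hx => by
    have h1 : ‖x - q‖ ≠ 0 := norm_ne_zero_iff.2 (sub_ne_zero.2 hx)
    exact_mod_cast h1
  have hu : ∀ x : ℂ, x ≠ q → ContinuousAt (fun x : ℂ => (x - q) / ‖x - q‖) x := by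
    intro x hx
    refine (continuousAt_id.sub continuousAt_const).div ?_ (hne x hx)
    exact Complex.continuous_ofReal.continuousAt.comp
      (continuousAt_id.sub continuousAt_const).norm
  have hF : ContinuousAt (fun p : ℂ × ℂ =>
      ‖(p.1 - q) / ‖p.1 - q‖ - (p.2 - q) / ‖p.2 - q‖‖) (a, b) := by
    refine ContinuousAt.norm (ContinuousAt.sub ?_ ?_)
    · exact ContinuousAt.comp (f := fun p : ℂ × ℂ => p.1) (x := (a, b)) (hu a haq) continuousAt_fst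
    · exact ContinuousAt.comp (f := fun p : ℂ × ℂ => p.2) (x := (a, b)) (hu b hbq) continuousAt_snd
  have h1 := hF.eventually_lt_const hlt
  have h2 : ∀ᶠ p : ℂ × ℂ in 𝓝 (a, b), p.1 ≠ q ∧ ‖p.1 - q‖ < r := by
    have h3 : ∀ᶠ x : ℂ in 𝓝 a, x ≠ q ∧ ‖x - q‖ < r :=
      (eventually_ne_nhds haq).and
        ((continuousAt_id.sub continuousAt_const).norm.eventually_lt_const har)
    exact (continuous_fst.tendsto (a, b)).eventually h3
  have h2' : ∀ᶠ p : ℂ × ℂ in 𝓝 (a, b), p.2 ≠ q ∧ ‖p.2 - q‖ < r := by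
    have h3 : ∀ᶠ x : ℂ in 𝓝 b, x ≠ q ∧ ‖x - q‖ < r :=
      (eventually_ne_nhds hbq).and
        ((continuousAt_id.sub continuousAt_const).norm.eventually_lt_const hbr)
    exact (continuous_snd.tendsto (a, b)).eventually h3
  have h4 : (a, b) ∈ closure (A ×ˢ B) := by
    rw [closure_prod_eq]
    exact ⟨ha, hb⟩
  obtain ⟨p, hp, ⟨hp1, hp2⟩, hp3⟩ :=
    ((mem_closure_iff_frequently.1 h4).and_eventually ((h1.and h2).and h2')).exists
  exact absurd (hsep p.1 hp.1 p.2 hp.2 hp2.1 hp3.1 hp2.2 hp3.2) (not_le.2 hp1)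

theorem isOpen_wd {phi : ℂ → ℂ} (hana : AnalyticOnNhd ℂ phi (sphere 0 1)) (p : ℂ → Prop) :
    IsOpen {l | l ∉ J phi ∧ p (wd phi l)} := by
  rw [isOpen_iff_mem_nhds]
  rintro l ⟨hl, hp⟩
  filter_upwards [wd_loc hana hl] with l' hl'
  refine ⟨hl'.1, ?_⟩
  rw [hl'.2]
  exact hp

/-- Disjoint open sets: the first is not contained in the closure of the second. -/
theorem not_sub {A B : Set ℂ} (hA : IsOpen A) (hd : Disjoint A B) (hn : A.Nonempty) :
    ¬ closure A ⊆ closure B := by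
  intro h
  obtain ⟨x, hx⟩ := hn
  obtain ⟨y, hy, hy'⟩ := _root_.mem_closure_iff.1 (h (subset_closure hx)) A hA hx
  exact Set.disjoint_left.1 hd hy hy'

theorem not_bir_of_disc {phi : ℂ → ℂ} (hana : AnalyticOnNhd ℂ phi (sphere 0 1)) {E : Set ℂ}
    (hE : E.Finite) (hinj : InjOn phi (sphere 0 1 \ E))
    (hwd : ∀ l, l ∉ J phi → wd phi l = 0 ∨ wd phi l = 1)
    (hloc : ∀ A B : Set ℂ, IsOpen A → IsOpen B → Disjoint A B →
      A ∪ B = {l | l ∉ J phi ∧ wd phi l = 1} → ∀ q ∈ closure A ∩ closure B,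
        (∀ z ∈ sphere (0 : ℂ) 1, phi z = q → deriv phi z ≠ 0) ∧ DirSep A B q)
    (hdisc : ¬ IsPreconnected {l | l ∉ J phi ∧ wd phi l = 1}) : ¬ BIR H2 (IsToeplitz phi) := by
  obtain ⟨Om, hOm⟩ : ∃ Om : Set ℂ, Om = {l | l ∉ J phi ∧ wd phi l = 1} := ⟨_, rfl⟩
  have hO : IsOpen Om := by
    rw [hOm]
    exact isOpen_wd hana fun x => x = 1
  rw [← hOm] at hdisc
  rw [IsPreconnected] at hdisc
  push Not at hdisc
  obtain ⟨u, v, hu, hv, hS, hSu, hSv, he⟩ := hdisc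
  have hd : Disjoint (Om ∩ u) (Om ∩ v) := by
    rw [Set.disjoint_left]
    rintro x ⟨h1, h2⟩ ⟨-, h3⟩
    have : x ∈ Om ∩ (u ∩ v) := ⟨h1, h2, h3⟩
    rw [he] at this
    exact this
  have hun : (Om ∩ u) ∪ (Om ∩ v) = {l | l ∉ J phi ∧ wd phi l = 1} := by
    rw [← hOm, ← inter_union_distrib_left]
    exact inter_eq_left.2 hS
  have o1 := hO.inter hu
  have o2 := hO.inter hv
  obtain ⟨h1, h2⟩ := dec_one hana hE hinj hwd o1 o2 hd hun
  refine main_closed hana isClosed_closure isClosed_closure h1 h2 (not_sub o1 hd hSu)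
    (not_sub o2 hd.symm hSv) fun q hq => ?_
  obtain ⟨h3, h4⟩ := hloc _ _ o1 o2 hd hun q hq
  exact ⟨h3, dirSep_closure h4⟩

theorem bir_of_conn {phi : ℂ → ℂ} (hana : AnalyticOnNhd ℂ phi (sphere 0 1)) {E : Set ℂ}
    (hE : E.Finite) (hinj : InjOn phi (sphere 0 1 \ E))
    (hwd : ∀ l, l ∉ J phi → wd phi l = 0 ∨ wd phi l = 1)
    (hconn : IsPreconnected {l | l ∉ J phi ∧ wd phi l = 1}) : BIR H2 (IsToeplitz phi) := by
  refine (main_good hana hE hinj (Or.inl fun l => Or.inr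
    ⟨{l | l ∉ J phi ∧ wd phi l = 1}, hconn, fun l' hl' => hl', ?_⟩)).2
  exact Eventually.of_forall fun l' hl' => (hwd l' hl').imp_right fun h => ⟨hl', h⟩

theorem not_bir_sgn {phi : ℂ → ℂ} (hana : AnalyticOnNhd ℂ phi (sphere 0 1)) {E : Set ℂ}
    (hE : E.Finite) (hinj : InjOn phi (sphere 0 1 \ E))
    (h1 : ∃ l, l ∉ J phi ∧ 0 < (wd phi l).re) (h2 : ∃ l, l ∉ J phi ∧ (wd phi l).re < 0)
    (hloc : ∀ q ∈ closure {l | l ∉ J phi ∧ 0 < (wd phi l).re} ∩
      closure {l | l ∉ J phi ∧ (wd phi l).re < 0},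
        (∀ z ∈ sphere (0 : ℂ) 1, phi z = q → deriv phi z ≠ 0) ∧
        DirSep {l | l ∉ J phi ∧ 0 < (wd phi l).re} {l | l ∉ J phi ∧ (wd phi l).re < 0} q) :
    ¬ BIR H2 (IsToeplitz phi) := by
  have o1 : IsOpen {l | l ∉ J phi ∧ 0 < (wd phi l).re} := isOpen_wd hana fun x => 0 < x.re
  have o2 : IsOpen {l | l ∉ J phi ∧ (wd phi l).re < 0} := isOpen_wd hana fun x => x.re < 0
  have hd : Disjoint {l | l ∉ J phi ∧ 0 < (wd phi l).re} {l | l ∉ J phi ∧ (wd phi l).re < 0} := by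
    rw [Set.disjoint_left]
    rintro l ⟨-, h3⟩ ⟨-, h4⟩
    exact lt_asymm h3 h4
  obtain ⟨h3, h4⟩ := dec_sgn hana hE hinj
  refine main_closed hana isClosed_closure isClosed_closure h3 h4 (not_sub o1 hd h1)
    (not_sub o2 hd.symm h2) fun q hq => ?_
  obtain ⟨h5, h6⟩ := hloc q hq
  exact ⟨h5, dirSep_closure h6⟩

end Pool.Agent.TBirM
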