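import Pool.Agent.TBirS.Cut

/-!
# Separated directions, thin triangles
-/

set_option autoImplicit false

open MeasureTheory Complex Set Filter Topology Metric AddCircle
open scoped ComplexConjugate InnerProductSpace ENNReal

namespace Pool.Agent.TBirM

/-- From `q` the sets `A` and `B` are seen in separated directions. -/
def DirSep (A B : Set ℂ) (q : ℂ) : Prop :=
  ∃ c > 0, ∃ r > 0, ∀ a ∈ A, ∀ b ∈ B, a ≠ q → b ≠ q → ‖a - q‖ < r → ‖b - q‖ < r →
    c ≤ ‖(a - q) / ‖a - q‖ - (b - q) / ‖b - q‖‖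

/-- The branches of the curve through `q` are pairwise transversal. -/
def Trans (phi : ℂ → ℂ) (q : ℂ) : Prop :=
  ∀ z ∈ sphere (0 : ℂ) 1, ∀ w ∈ sphere (0 : ℂ) 1, phi z = q → phi w = q → z ≠ w →
    (conj (z * deriv phi z) * (w * deriv phi w)).im ≠ 0

/-- A thin triangle with vertex `q`, not in the triangle, in the direction `u`. -/
def Tri (q u : ℂ) (eta rho : ℝ) : Set ℂ :=
  {l | |((l - q) * conj u).im| < eta * ((l - q) * conj u).re ∧ ((l - q) * conj u).re < rho}

end Pool.Agent.TBirM
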