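import Pool.Agent.TBirM.SgT

/-!
# Transversal branches: closed parts of the spectrum are seen in separated directions

Paper proof. Otherwise for every `n` there are `a n ∈ A`, `b n ∈ B`, both `≠ q`, with `‖a n - q‖ < 1/(n+1)`,
`‖b n - q‖ < 1/(n+1)` and directions at distance `< 1/(n+1)`. The directions `(a n - q) / ‖a n - q‖` are in the
compact unit sphere; pass to a subsequence with limit `u`, `‖u‖ = 1`; the directions of `b n` tend to `u` too. Take
`eta`, `rho0` of `sg_tri`, and `rho < rho0` so small that no point of `Tri q u eta rho` is in `A ∩ B` (`hQ`; on the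
triangle `‖l - q‖ ≤ (1 + eta) t < (1 + eta) rho`). For large `n` in the subsequence `a n`, `b n ∈ Tri q u eta rho`
(`((a n - q) * conj u) / ‖a n - q‖` tends to `1`). The preconnected set `Sg phi ∩ Tri` is covered by the closed sets
`A`, `B` and meets both (`isPreconnected_closed_iff`), so it contains a point of `A ∩ B`, and that is not `q`
because `q ∉ Tri`: contradiction.
-/

set_option autoImplicit false

open MeasureTheory Complex Set Filter Topology Metric AddCircle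
open scoped ComplexConjugate InnerProductSpace ENNReal

namespace Pool.Agent.TBirM

open Pool.Agent.TBir Pool.Agent.TBirG
open Pool.Agent.TBirS (Sg)

/-- the open sector around the direction `1` -/
private def Sec (eta : ℝ) : Set ℂ := {w | |w.im| < eta * w.re}

private theorem isOpen_Sec (eta : ℝ) : IsOpen (Sec eta) :=
  isOpen_lt (continuous_abs.comp continuous_im) (continuous_const.mul continuous_re)

private theorem one_mem_Sec {eta : ℝ} (h : 0 < eta) : (1 : ℂ) ∈ Sec eta := by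
  show |(1 : ℂ).im| < eta * (1 : ℂ).re
  simpa using h

private theorem mem_tri {q u a : ℂ} {eta rho : ℝ} (hu : ‖u‖ = 1) (ha : a ≠ q) (har : ‖a - q‖ < rho)
    (h : (a - q) / ‖a - q‖ * conj u ∈ Sec eta) : a ∈ Tri q u eta rho := by
  have hpos : 0 < ‖a - q‖ := norm_pos_iff.mpr (sub_ne_zero.mpr ha)
  have hne : ((‖a - q‖ : ℝ) : ℂ) ≠ 0 := by exact_mod_cast hpos.ne'
  have e : (a - q) * conj u = ((‖a - q‖ : ℝ) : ℂ) * ((a - q) / ‖a - q‖ * conj u) := by
    field_simp
  have h1 : |((a - q) / ‖a - q‖ * conj u).im| < eta * ((a - q) / ‖a - q‖ * conj u).re := h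
  refine ⟨?_, ?_⟩
  · rw [e, re_ofReal_mul, im_ofReal_mul, abs_mul, abs_of_pos hpos]
    have := mul_lt_mul_of_pos_left h1 hpos
    linarith [this]
  · have h2 : ((a - q) * conj u).re ≤ ‖(a - q) * conj u‖ := (le_abs_self _).trans (abs_re_le_norm _)
    have h3 : ‖(a - q) * conj u‖ = ‖a - q‖ := by
      rw [norm_mul, RCLike.norm_conj, hu, mul_one]
    rw [h3] at h2
    exact lt_of_le_of_lt h2 har

private theorem tri_pos {q u l : ℂ} {eta rho : ℝ} (heta : 0 < eta) (h : l ∈ Tri q u eta rho) :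
    0 < ((l - q) * conj u).re := by
  have h1 : 0 < eta * ((l - q) * conj u).re := lt_of_le_of_lt (abs_nonneg _) h.1
  exact (mul_pos_iff_of_pos_left heta).mp h1

private theorem tri_norm {q u l : ℂ} {eta rho : ℝ} (hu : ‖u‖ = 1) (heta : 0 < eta)
    (h : l ∈ Tri q u eta rho) : ‖l - q‖ < (1 + eta) * rho := by
  have h0 := tri_pos heta h
  have h3 : ‖(l - q) * conj u‖ = ‖l - q‖ := by
    rw [norm_mul, RCLike.norm_conj, hu, mul_one]
  have h4 := norm_le_abs_re_add_abs_im ((l - q) * conj u)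
  rw [h3, abs_of_pos h0] at h4
  have h5 := h.1
  have h6 := h.2
  nlinarith

theorem dirSep_of_trans {phi : ℂ → ℂ} (hana : AnalyticOnNhd ℂ phi (sphere 0 1)) (hNC : NC phi)
    {A B : Set ℂ} (hA : IsClosed A) (hB : IsClosed B) (hAB : A ∪ B = Sg phi) {q : ℂ}
    (hQ : ∀ᶠ l in 𝓝 q, l ≠ q → ¬ (l ∈ A ∧ l ∈ B))
    (hq : ∀ z ∈ sphere (0 : ℂ) 1, phi z = q → deriv phi z ≠ 0) (htr : Trans phi q) :
    DirSep A B q := by
  by_contra hcon
  have hex : ∀ n : ℕ, ∃ a ∈ A, ∃ b ∈ B, a ≠ q ∧ b ≠ q ∧ ‖a - q‖ < 1 / ((n : ℝ) + 1) ∧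
      ‖b - q‖ < 1 / ((n : ℝ) + 1) ∧
      ‖(a - q) / ‖a - q‖ - (b - q) / ‖b - q‖‖ < 1 / ((n : ℝ) + 1) := by
    intro n
    by_contra hn
    push Not at hn
    refine hcon ⟨1 / ((n : ℝ) + 1), Nat.one_div_pos_of_nat, 1 / ((n : ℝ) + 1),
      Nat.one_div_pos_of_nat, fun a ha b hb h1 h2 h3 h4 => hn a ha b hb h1 h2 h3 h4⟩
  choose a haA b hbB haq hbq har hbr hab using hex
  have hlim : Tendsto (fun n : ℕ => 1 / ((n : ℝ) + 1)) atTop (𝓝 0) :=
    tendsto_one_div_add_atTop_nhds_zero_nat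
  have hda : ∀ n, (a n - q) / (‖a n - q‖ : ℂ) ∈ sphere (0 : ℂ) 1 := by
    intro n
    have hpos : 0 < ‖a n - q‖ := norm_pos_iff.mpr (sub_ne_zero.mpr (haq n))
    rw [mem_sphere_zero_iff_norm, norm_div, norm_real, norm_norm, div_self hpos.ne']
  obtain ⟨u, hu, f, hf, hau⟩ := (isCompact_sphere (0 : ℂ) 1).tendsto_subseq hda
  rw [mem_sphere_zero_iff_norm] at hu
  have hlimf : Tendsto (fun n : ℕ => 1 / ((f n : ℝ) + 1)) atTop (𝓝 0) :=
    hlim.comp hf.tendsto_atTop
  have hbu : Tendsto (fun n => (b (f n) - q) / (‖b (f n) - q‖ : ℂ)) atTop (𝓝 u) := by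
    have h1 : Tendsto (fun n => (a (f n) - q) / (‖a (f n) - q‖ : ℂ) -
        (b (f n) - q) / (‖b (f n) - q‖ : ℂ)) atTop (𝓝 0) := by
      rw [tendsto_zero_iff_norm_tendsto_zero]
      exact squeeze_zero (fun n => norm_nonneg _) (fun n => (hab (f n)).le) hlimf
    have h2 := hau.sub h1
    rw [sub_zero] at h2
    refine h2.congr fun n => ?_
    simp
  obtain ⟨eta, heta, rho0, hrho0, hpre⟩ := sg_tri hana hNC hq htr hu
  obtain ⟨r1, hr1, hr1Q⟩ := Metric.eventually_nhds_iff.mp hQ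
  obtain ⟨rho, hrho, hrholt, hrhor⟩ : ∃ rho : ℝ, 0 < rho ∧ rho < rho0 ∧ (1 + eta) * rho ≤ r1 := by
    have h1e : 0 < 1 + eta := by linarith
    refine ⟨min (rho0 / 2) (r1 / (1 + eta)), lt_min (by linarith) (by positivity),
      lt_of_le_of_lt (min_le_left _ _) (by linarith), ?_⟩
    calc (1 + eta) * min (rho0 / 2) (r1 / (1 + eta)) ≤ (1 + eta) * (r1 / (1 + eta)) :=
          mul_le_mul_of_nonneg_left (min_le_right _ _) h1e.le
      _ = r1 := by field_simp
  have huu : u * conj u = 1 := by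
    rw [mul_conj, normSq_eq_norm_sq, hu]
    simp
  have hsec : ∀ x : ℕ → ℂ, Tendsto (fun n => (x n - q) / (‖x n - q‖ : ℂ)) atTop (𝓝 u) →
      ∀ᶠ n in atTop, (x n - q) / (‖x n - q‖ : ℂ) * conj u ∈ Sec eta := by
    intro x hx
    have h1 : Tendsto (fun n => (x n - q) / (‖x n - q‖ : ℂ) * conj u) atTop (𝓝 1) := by
      rw [← huu]
      exact hx.mul_const _
    exact h1.eventually ((isOpen_Sec eta).mem_nhds (one_mem_Sec heta))
  have hsm : ∀ᶠ n in atTop, 1 / ((f n : ℝ) + 1) < rho := hlimf.eventually (gt_mem_nhds hrho)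
  obtain ⟨n, hn1, hn2, hn3⟩ := ((hsec _ hau).and ((hsec _ hbu).and hsm)).exists
  have haT : a (f n) ∈ Tri q u eta rho := mem_tri hu (haq _) ((har _).trans hn3) hn1
  have hbT : b (f n) ∈ Tri q u eta rho := mem_tri hu (hbq _) ((hbr _).trans hn3) hn2
  obtain ⟨l, ⟨-, hlT⟩, hlA, hlB⟩ := isPreconnected_closed_iff.mp (hpre rho hrho hrholt) A B hA hB
    (by rw [hAB]; exact inter_subset_left)
    ⟨a (f n), ⟨by rw [← hAB]; exact Or.inl (haA _), haT⟩, haA _⟩
    ⟨b (f n), ⟨by rw [← hAB]; exact Or.inr (hbB _), hbT⟩, hbB _⟩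
  have hlq : l ≠ q := by
    rintro rfl
    have := tri_pos heta hlT
    simp at this
  refine hr1Q ?_ hlq ⟨hlA, hlB⟩
  rw [dist_eq_norm]
  exact lt_of_lt_of_le (tri_norm hu heta hlT) hrhor

end Pool.Agent.TBirM
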