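import Pool.Agent.TBirM.Reg
import Pool.Agent.TBirM.Trn

/-!
# Winding numbers -1, 0, 1: complete irreducibility and connectedness
-/

set_option autoImplicit false

open MeasureTheory Complex Set Filter Topology Metric AddCircle
open scoped ComplexConjugate InnerProductSpace ENNReal

namespace Pool.Agent.TBirM

open Pool.Agent.TBir Pool.Agent.TBirG
open Pool.Agent.TBirS (Sg isCompact_Sg)
open Pool.Agent.TBirR (main_good)

theorem conn_bir {phi : ℂ → ℂ} (hana : AnalyticOnNhd ℂ phi (sphere 0 1)) {E : Set ℂ}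
    (hE : E.Finite) (hinj : InjOn phi (sphere 0 1 \ E))
    (hwd : ∀ l, l ∉ J phi → wd phi l = 0 ∨ wd phi l = 1 ∨ wd phi l = -1)
    (hconn : IsPreconnected {l | l ∉ J phi ∧ wd phi l ≠ 0}) : BIR H2 (IsToeplitz phi) := by
  have o1 : IsOpen {l | l ∉ J phi ∧ wd phi l = 1} := isOpen_wd hana fun x => x = 1
  have o2 : IsOpen {l | l ∉ J phi ∧ wd phi l = -1} := isOpen_wd hana fun x => x = -1
  have hcov : {l | l ∉ J phi ∧ wd phi l ≠ 0} ⊆
      {l | l ∉ J phi ∧ wd phi l = 1} ∪ {l | l ∉ J phi ∧ wd phi l = -1} := by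
    rintro l ⟨h1, h2⟩
    rcases hwd l h1 with h | h | h
    · exact absurd h h2
    · exact Or.inl ⟨h1, h⟩
    · exact Or.inr ⟨h1, h⟩
  have hemp : {l | l ∉ J phi ∧ wd phi l ≠ 0} ∩
      ({l | l ∉ J phi ∧ wd phi l = 1} ∩ {l | l ∉ J phi ∧ wd phi l = -1}) = ∅ := by
    rw [Set.eq_empty_iff_forall_notMem]
    rintro l ⟨-, ⟨-, h1⟩, -, h2⟩
    rw [h1] at h2
    norm_num at h2
  by_cases h1 : ({l | l ∉ J phi ∧ wd phi l ≠ 0} ∩ {l | l ∉ J phi ∧ wd phi l = -1}).Nonempty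
  · have h2 : ∀ l, l ∉ J phi → wd phi l ≠ 0 → wd phi l = -1 := by
      intro l hl hl0
      by_contra hcon
      have h3 : wd phi l = 1 := by
        rcases hwd l hl with h | h | h
        · exact absurd h hl0
        · exact h
        · exact absurd h hcon
      obtain ⟨x, hx⟩ := hconn _ _ o1 o2 hcov ⟨l, ⟨hl, hl0⟩, hl, h3⟩ h1
      rw [hemp] at hx
      exact hx
    refine (main_good hana hE hinj (Or.inr fun l => Or.inr
      ⟨{l | l ∉ J phi ∧ wd phi l ≠ 0}, hconn, fun l' hl' => ⟨hl'.1, h2 l' hl'.1 hl'.2⟩, ?_⟩)).2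
    refine Eventually.of_forall fun l' hl' => ?_
    by_cases h : wd phi l' = 0
    · exact Or.inl h
    · exact Or.inr ⟨hl', h⟩
  · have h2 : ∀ l, l ∉ J phi → wd phi l ≠ 0 → wd phi l = 1 := by
      intro l hl hl0
      rcases hwd l hl with h | h | h
      · exact absurd h hl0
      · exact h
      · exact absurd ⟨l, ⟨hl, hl0⟩, hl, h⟩ h1
    refine (main_good hana hE hinj (Or.inl fun l => Or.inr
      ⟨{l | l ∉ J phi ∧ wd phi l ≠ 0}, hconn, fun l' hl' => ⟨hl'.1, h2 l' hl'.1 hl'.2⟩, ?_⟩)).2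
    refine Eventually.of_forall fun l' hl' => ?_
    by_cases h : wd phi l' = 0
    · exact Or.inl h
    · exact Or.inr ⟨hl', h⟩

/-- The criterion from a splitting theorem with the local hypothesis `R`. -/
theorem crit_gen {phi : ℂ → ℂ} (hana : AnalyticOnNhd ℂ phi (sphere 0 1)) {E : Set ℂ}
    (hE : E.Finite) (hinj : InjOn phi (sphere 0 1 \ E))
    (hwd : ∀ l, l ∉ J phi → wd phi l = 0 ∨ wd phi l = 1 ∨ wd phi l = -1) {R : ℂ → Prop}
    (hmain : ∀ A B : Set ℂ, IsClosed A → IsClosed B → A ∪ B = Sg phi → (A ∩ B).Finite →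
      ¬ A ⊆ B → ¬ B ⊆ A → (∀ q ∈ A ∩ B, R q) → ¬ BIR H2 (IsToeplitz phi))
    (hloc : ∀ q, R q ∨ ∃ A ⊆ {l | l ∉ J phi ∧ wd phi l ≠ 0}, IsPreconnected A ∧
      ∀ᶠ l in 𝓝 q, l ∈ {l | l ∉ J phi ∧ wd phi l ≠ 0} → l ∈ A) :
    BIR H2 (IsToeplitz phi) ↔ IsPreconnected {l | l ∉ J phi ∧ wd phi l ≠ 0} := by
  refine ⟨fun hB => ?_, conn_bir hana hE hinj hwd⟩
  by_contra hdisc
  revert hB
  obtain ⟨Om, hOm⟩ : ∃ Om : Set ℂ, Om = {l | l ∉ J phi ∧ wd phi l ≠ 0} := ⟨_, rfl⟩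
  have hO : IsOpen Om := by
    rw [hOm]
    exact isOpen_wd hana fun x => x ≠ 0
  rw [← hOm] at hdisc hloc
  rw [IsPreconnected] at hdisc
  push Not at hdisc
  obtain ⟨u, v, hu, hv, hS, hSu, hSv, he⟩ := hdisc
  have hd : Disjoint (Om ∩ u) (Om ∩ v) := by
    rw [Set.disjoint_left]
    rintro x ⟨h1, h2⟩ ⟨-, h3⟩
    have : x ∈ Om ∩ (u ∩ v) := ⟨h1, h2, h3⟩
    rw [he] at this
    exact this
  have hun : (Om ∩ u) ∪ (Om ∩ v) = {l | l ∉ J phi ∧ wd phi l ≠ 0} := by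
    rw [← hOm, ← inter_union_distrib_left]
    exact inter_eq_left.2 hS
  have o1 := hO.inter hu
  have o2 := hO.inter hv
  obtain ⟨h1, h2⟩ := dec_abs hana hE hinj hwd o1 o2 hd hun
  refine hmain _ _ isClosed_closure isClosed_closure h1 h2 (not_sub o1 hd hSu)
    (not_sub o2 hd.symm hSv) fun q hq => (hloc q).resolve_right ?_
  rintro ⟨A, hAO, hA, hAq⟩
  have hAs : A ⊆ u ∨ A ⊆ v := by
    by_contra hcon
    rw [not_or] at hcon
    obtain ⟨⟨a, ha, ha'⟩, b, hb, hb'⟩ := hcon.imp Set.not_subset.1 Set.not_subset.1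
    have hbu : b ∈ u := (hS (hAO hb)).resolve_right hb'
    have hav : a ∈ v := (hS (hAO ha)).resolve_left ha'
    obtain ⟨x, hx, hx'⟩ := hA u v hu hv (hAO.trans hS) ⟨b, hb, hbu⟩ ⟨a, ha, hav⟩
    have : x ∈ Om ∩ (u ∩ v) := ⟨hAO hx, hx'⟩
    rw [he] at this
    exact this
  rcases hAs with h | h
  · obtain ⟨x, hx, hx'⟩ := ((mem_closure_iff_frequently.1 hq.2).and_eventually hAq).exists
    have : x ∈ Om ∩ (u ∩ v) := ⟨hx.1, h (hx' hx.1), hx.2⟩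
    rw [he] at this
    exact this
  · obtain ⟨x, hx, hx'⟩ := ((mem_closure_iff_frequently.1 hq.1).and_eventually hAq).exists
    have : x ∈ Om ∩ (u ∩ v) := ⟨hx.1, hx.2, h (hx' hx.1)⟩
    rw [he] at this
    exact this

/-- Splitting, transversal touching points. -/
theorem main_trans {phi : ℂ → ℂ} (hphi : AnalyticOnNhd ℂ phi (sphere 0 1)) {A B : Set ℂ}
    (hA : IsClosed A) (hB : IsClosed B) (hAB : A ∪ B = Sg phi) (hQ : (A ∩ B).Finite)
    (hA' : ¬ A ⊆ B) (hB' : ¬ B ⊆ A)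
    (hq : ∀ q ∈ A ∩ B, (∀ z ∈ sphere (0 : ℂ) 1, phi z = q → deriv phi z ≠ 0) ∧ Trans phi q) :
    ¬ BIR H2 (IsToeplitz phi) := by
  obtain ⟨a, ha, ha'⟩ := Set.not_subset.1 hA'
  obtain ⟨b, hb, hb'⟩ := Set.not_subset.1 hB'
  have haS : a ∈ Sg phi := by rw [← hAB]; exact Or.inl ha
  have hbS : b ∈ Sg phi := by rw [← hAB]; exact Or.inr hb
  have hNC : NC phi := nc_of_Sg hphi haS hbS fun h => ha' (h ▸ hb)
  refine main_closed hphi hA hB hAB hQ hA' hB' fun q hqQ => ⟨(hq q hqQ).1, ?_⟩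
  refine dirSep_of_trans hphi hNC hA hB hAB ?_ (hq q hqQ).1 (hq q hqQ).2
  have hfin : ((A ∩ B) \ {q}).Finite := hQ.subset Set.sdiff_subset
  filter_upwards [hfin.isClosed.isOpen_compl.mem_nhds
    (show q ∈ ((A ∩ B) \ {q})ᶜ from fun h => h.2 rfl)] with l hl hlq h
  exact hl ⟨h, hlq⟩

theorem crit_trans {phi : ℂ → ℂ} (hana : AnalyticOnNhd ℂ phi (sphere 0 1)) {E : Set ℂ}
    (hE : E.Finite) (hinj : InjOn phi (sphere 0 1 \ E))
    (hwd : ∀ l, l ∉ J phi → wd phi l = 0 ∨ wd phi l = 1 ∨ wd phi l = -1)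
    (hloc : ∀ q, ((∀ z ∈ sphere (0 : ℂ) 1, phi z = q → deriv phi z ≠ 0) ∧ Trans phi q) ∨
      ∃ A ⊆ {l | l ∉ J phi ∧ wd phi l ≠ 0}, IsPreconnected A ∧
      ∀ᶠ l in 𝓝 q, l ∈ {l | l ∉ J phi ∧ wd phi l ≠ 0} → l ∈ A) :
    BIR H2 (IsToeplitz phi) ↔ IsPreconnected {l | l ∉ J phi ∧ wd phi l ≠ 0} :=
  crit_gen hana hE hinj hwd (fun _ _ hA hB hAB hQ hA' hB' hq =>
    main_trans hana hA hB hAB hQ hA' hB' hq) hloc

end Pool.Agent.TBirM
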