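import Pool.Agent.TBirM.STr
import Pool.Agent.TBirS.ResN
import Pool.Agent.TBirS.Dense

/-!
# The local input for the splitting theorem
-/

set_option autoImplicit false

open MeasureTheory Complex Set Filter Topology Metric AddCircle
open scoped ComplexConjugate InnerProductSpace ENNReal
open Pool.Lib (dbar)

namespace Pool.Agent.TBirM

open Pool.Agent.TBir
open Pool.Agent.TBirS (Sg)

/-- The difference of the two resolvents is bounded as a form, where the distance to the spectrum is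
comparable to the distance to `q`. -/
def Inp (phi : ℂ → ℂ) (Phi : CT) (q : ℂ) : Prop :=
  ∀ c : ℝ, 0 < c → ∃ C c1 s : ℝ, 0 < C ∧ 0 < c1 ∧ 0 < s ∧ ∀ l ∈ ball q s, l ≠ q →
    (∀ l' ∈ Sg phi, c * ‖l - q‖ ≤ ‖l' - l‖) → c1 * ‖l - q‖ ≤ 1 ∧ ∀ f g : Hardy,
      ‖inner ℂ g ((resolvent (T Phi) l - T (resolvent Phi l)) f)‖ ≤
        C * ((FF f (1 - c1 * ‖l - q‖) + ‖f‖) * (FF g (1 - c1 * ‖l - q‖) + ‖g‖))

end Pool.Agent.TBirM
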