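import Pool.Agent.TBirR.Fz

/-!
# Factorisation near a value without critical preimages: the zeros are uniformly separated

Paper proof. Take `rho, d, m, M, x, k` of `exists_fz` (TBirR/Fz, proved) and the zeros `zq i` for `l = q`
(`‖zq i‖ = 1`). For `l ∈ ball q rho` with zeros `z i`: `z i ∈ ann d`, so by the factorisation at `q`
`‖l - q‖ = ‖phi (z i) - q‖ ≥ m * ∏ j, ‖z i - zq j‖ ≥ m * (min_j ‖z i - zq j‖) ^ k` (`k ≥ 1` if there is a zero).
So for every `s > 0` there is `rho' > 0` such that for `l ∈ ball q rho'` every `z i` is in some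
`ball (zq j) s`. Since `deriv phi (zq j) ≠ 0` there is `s > 0` such that `phi` is injective on every
`ball (zq j) (2 s)` and `deriv phi ≠ 0` there (`HasStrictDerivAt`, `loc_inv` of TBir/LocInv, or
`AnalyticAt` + inverse function theorem). Take `c0 = s`. If `i ≠ i'` and `‖z i - z i'‖ < s` then both are in
`ball (zq j) (2 s)` for some `j`, so `z i = z i'` (same value `l`). But then the product contains
`(w - z i)^2`, so `deriv phi (z i) = 0` by the factorisation, a contradiction.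
-/

set_option autoImplicit false

open MeasureTheory Complex Set Filter Topology Metric AddCircle
open scoped ComplexConjugate InnerProductSpace ENNReal

namespace Pool.Agent.TBirM

open Pool.Agent.TBir Pool.Agent.TBirG

private theorem sep_loc {phi : ℂ → ℂ} {t : ℂ} (h : AnalyticAt ℂ phi t) (hd : deriv phi t ≠ 0) :
    ∃ s > 0, ∀ a ∈ ball t s, ∀ b ∈ ball t s, (phi a = phi b → a = b) ∧ deriv phi a ≠ 0 := by
  obtain ⟨g, hg⟩ : ∃ g : ℂ → ℂ, ∀ᶠ x in 𝓝 t, g (phi x) = x :=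
    ⟨h.hasStrictDerivAt.localInverse _ _ _ hd, h.hasStrictDerivAt.eventually_left_inverse hd⟩
  have hne : ∀ᶠ x in 𝓝 t, deriv phi x ≠ 0 := h.deriv.continuousAt.eventually_ne hd
  obtain ⟨s, hs, h1⟩ := Metric.eventually_nhds_iff_ball.1 (hg.and hne)
  refine ⟨s, hs, fun a ha b hb => ⟨fun hab => ?_, (h1 a ha).2⟩⟩
  rw [← (h1 a ha).1, ← (h1 b hb).1, hab]

private theorem sep_double {d : ℝ} {phi psi : ℂ → ℂ} {l : ℂ} {k : ℕ} {z : Fin k → ℂ}
    (hpsi : DifferentiableOn ℂ psi (ann d))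
    (hf : ∀ w ∈ ann d, phi w - l = psi w * ∏ i, (w - z i)) {i j : Fin k} (hij : i ≠ j)
    (hz : z i = z j) (hi : z i ∈ ann d) : deriv phi (z i) = 0 := by
  classical
  obtain ⟨g, hgd⟩ : ∃ g : ℂ → ℂ, g = fun w => psi w * ∏ n ∈ (Finset.univ.erase i).erase j, (w - z n) :=
    ⟨_, rfl⟩
  have hnh : ann d ∈ 𝓝 (z i) := (isOpen_ann d).mem_nhds hi
  have hg : DifferentiableAt ℂ g (z i) := by
    rw [hgd]
    refine (hpsi.differentiableAt hnh).mul ?_
    fun_prop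
  have h1 : phi =ᶠ[𝓝 (z i)] fun w => l + g w * (w - z i) ^ 2 := by
    filter_upwards [hnh] with w hw
    have h2 := hf w hw
    have h3 : ∏ n, (w - z n) = (w - z i) * ((w - z j) *
        ∏ n ∈ (Finset.univ.erase i).erase j, (w - z n)) := by
      rw [Finset.mul_prod_erase _ (fun n => w - z n)
        (Finset.mem_erase.2 ⟨hij.symm, Finset.mem_univ j⟩),
        Finset.mul_prod_erase _ (fun n => w - z n) (Finset.mem_univ i)]
    rw [h3, ← hz] at h2
    rw [hgd]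
    linear_combination h2
  rw [h1.deriv_eq]
  have h4 : HasDerivAt (fun w => l + g w * (w - z i) ^ 2)
      (deriv g (z i) * (z i - z i) ^ 2 + g (z i) * (2 * (z i - z i) ^ 1 * 1)) (z i) := by
    have h5 := ((hasDerivAt_id (z i)).sub_const (z i)).pow 2
    have h6 := (hg.hasDerivAt.mul h5).const_add l
    refine h6.congr_deriv ?_
    simp
  rw [h4.deriv]
  simp

theorem exists_fz_sep {phi : ℂ → ℂ} (hphi : AnalyticOnNhd ℂ phi (sphere 0 1)) (hNC : NC phi)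
    {q : ℂ} (hq : ∀ z ∈ sphere (0 : ℂ) 1, phi z = q → deriv phi z ≠ 0) :
    ∃ (rho d m M c0 : ℝ) (x : ℤ) (k : ℕ), 0 < rho ∧ 0 < d ∧ d < 1 ∧ 0 < m ∧ 0 < c0 ∧
      ∀ l ∈ ball q rho, ∃ (z : Fin k → ℂ) (psi : ℂ → ℂ), DifferentiableOn ℂ psi (ann d) ∧
        (∀ w ∈ ann d, m ≤ ‖psi w‖ ∧ ‖psi w‖ ≤ M) ∧ wind psi = x ∧
        (∀ i, z i ∈ ann d ∧ phi (z i) = l) ∧ (l = q → ∀ i, ‖z i‖ = 1) ∧
        (∀ w ∈ ann d, phi w - l = psi w * ∏ i, (w - z i)) ∧
        ∀ i j, i ≠ j → c0 ≤ ‖z i - z j‖ := by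
  obtain ⟨rho, d, m, M, x, k, hrho, hd, hd1, hm, H⟩ := Pool.Agent.TBirR.exists_fz hphi hNC q
  obtain ⟨zq, psiq, hq1, hq2, -, hq3, hq4, hq5⟩ := H q (mem_ball_self hrho)
  have hloc : ∀ j, ∃ s > 0, ∀ a ∈ ball (zq j) s, ∀ b ∈ ball (zq j) s,
      (phi a = phi b → a = b) ∧ deriv phi a ≠ 0 := by
    intro j
    have hz : zq j ∈ sphere (0 : ℂ) 1 := by
      rw [mem_sphere_zero_iff_norm]; exact hq4 rfl j
    exact sep_loc (hphi _ hz) (hq _ hz (hq3 j).2)
  choose s hs hs' using hloc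
  obtain ⟨s0, hs0, hs0'⟩ : ∃ s0 : ℝ, 0 < s0 ∧ ∀ j, 2 * s0 ≤ s j := by
    obtain ⟨s1, hs1, hs1'⟩ : ∃ s1 : ℝ, 0 < s1 ∧ ∀ j, s1 ≤ s j := by
      rcases isEmpty_or_nonempty (Fin k) with he | he
      · exact ⟨1, one_pos, fun j => he.elim j⟩
      · obtain ⟨j0, hj0⟩ := Finite.exists_min s
        exact ⟨s j0, hs j0, hj0⟩
    exact ⟨s1 / 2, half_pos hs1, fun j => by linarith [hs1' j]⟩
  have hms : 0 < m * s0 ^ k := by positivity
  refine ⟨min rho (m * s0 ^ k), d, m, M, s0, x, k, lt_min hrho hms, hd, hd1, hm, hs0,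
    fun l hl => ?_⟩
  obtain ⟨z, psi, h1, h2, h3, h4, h5, h6⟩ := H l (ball_subset_ball (min_le_left _ _) hl)
  refine ⟨z, psi, h1, h2, h3, h4, h5, h6, fun i j hij => ?_⟩
  by_contra hcon
  push Not at hcon
  have hnear : ∃ n, ‖z i - zq n‖ < s0 := by
    by_contra hno
    push Not at hno
    have h7 := hq5 (z i) (h4 i).1
    rw [(h4 i).2] at h7
    have h8 : ‖l - q‖ < m * s0 ^ k := by
      rw [mem_ball, dist_eq_norm] at hl
      exact lt_of_lt_of_le hl (min_le_right _ _)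
    rw [h7, norm_mul, norm_prod] at h8
    have h9 : s0 ^ k ≤ ∏ n, ‖z i - zq n‖ := by
      calc s0 ^ k = ∏ _n : Fin k, s0 := by
            rw [Finset.prod_const, Finset.card_univ, Fintype.card_fin]
        _ ≤ ∏ n, ‖z i - zq n‖ := Finset.prod_le_prod (fun _ _ => hs0.le) fun n _ => hno n
    have h10 : m * s0 ^ k ≤ ‖psiq (z i)‖ * ∏ n, ‖z i - zq n‖ :=
      mul_le_mul (hq2 _ (h4 i).1).1 h9 (by positivity) (norm_nonneg _)
    linarith
  obtain ⟨n, hn⟩ := hnear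
  have hi : z i ∈ ball (zq n) (s n) := by
    rw [mem_ball, dist_eq_norm]
    linarith [hs0' n]
  have hj : z j ∈ ball (zq n) (s n) := by
    rw [mem_ball, dist_eq_norm]
    have h7 : ‖z j - zq n‖ ≤ ‖z i - z j‖ + ‖z i - zq n‖ := by
      have := norm_add_le (z j - z i) (z i - zq n)
      rwa [sub_add_sub_cancel, norm_sub_rev (z j) (z i)] at this
    linarith [hs0' n]
  have hzz : z i = z j := (hs' n _ hi _ hj).1 ((h4 i).2.trans (h4 j).2.symm)
  exact (hs' n _ hi _ hj).2 (sep_double h1 h6 hij hzz (h4 i).1)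

end Pool.Agent.TBirM
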