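import Pool.Agent.TBirM.Fac
import Pool.Agent.TBirM.Sep
import Pool.Agent.TBirM.Inp
import Pool.Agent.TBirR.Grow

/-!
# The difference of the two resolvents near a value without critical preimages, as a form
-/

set_option autoImplicit false

open MeasureTheory Complex Set Filter Topology Metric AddCircle
open scoped ComplexConjugate InnerProductSpace ENNReal

namespace Pool.Agent.TBirM

open Pool.Agent.TBir Pool.Agent.TBirG
open Pool.Agent.TBirS (Sg)
open Pool.Agent.TBirR (wd_of_fac dist_zero)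

theorem dec_mono {C C' eta : ℝ} (h : C ≤ C') {b : ℕ → ℂ} (hb : Dec C eta b) : Dec C' eta b :=
  fun j => (hb j).trans (mul_le_mul_of_nonneg_right h (Real.exp_pos _).le)

theorem prod_bound {ι : Type*} [DecidableEq ι] (s : Finset ι) {u : ι → ι → ℂ} {s0 : ℝ}
    (hs0 : 0 < s0) (hs1 : s0 ≤ 1) {n : ℕ} (hn : s.card ≤ n)
    (hu : ∀ i ∈ s, ∀ j ∈ s, i ≠ j → s0 ≤ ‖u i j‖) {j : ι} (hj : j ∈ s) :
    ‖(∏ k ∈ s.erase j, u j k)⁻¹‖ ≤ (s0 ^ n)⁻¹ := by
  rw [norm_inv, norm_prod]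
  refine inv_anti₀ (pow_pos hs0 n) ?_
  have h1 : (s.erase j).card ≤ n := (Finset.card_le_card (Finset.erase_subset j s)).trans hn
  calc s0 ^ n ≤ s0 ^ (s.erase j).card := pow_le_pow_of_le_one hs0.le hs1 h1
    _ = ∏ _k ∈ s.erase j, s0 := by rw [Finset.prod_const]
    _ ≤ ∏ k ∈ s.erase j, ‖u j k‖ := Finset.prod_le_prod (fun _ _ => hs0.le) fun k hk =>
      hu j hj k (Finset.mem_of_mem_erase hk) (Finset.ne_of_mem_erase hk).symm

theorem SC_prod {C eta c s0 : ℝ} (hC : 0 < C) (heta : 0 < eta) (hc : 0 < c) (hs0 : 0 < s0)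
    (hs1 : s0 ≤ 1) (k : ℕ) : ∃ K : ℝ, 0 < K ∧ ∀ bp bm : ℕ → ℂ, Dec C eta bp → Dec C eta bm →
      ∀ (s t : Finset (Option (Fin k))) (V W : Option (Fin k) → ℂ), s.Nonempty → t.Nonempty →
      (∀ j ∈ s, 1 < ‖V j‖ ∧ Real.exp (-(eta / 2)) ≤ ‖(V j)⁻¹‖) →
      (∀ i ∈ s, ∀ j ∈ s, i ≠ j → s0 ≤ ‖V i - V j‖) →
      (∀ j ∈ t, ‖W j‖ < 1 ∧ Real.exp (-(eta / 2)) ≤ ‖W j‖) →
      (∀ i ∈ t, ∀ j ∈ t, i ≠ j → s0 ≤ ‖W i - W j‖) →
      (∀ i ∈ s, ∀ j ∈ t, c ≤ ‖1 - W j * (V i)⁻¹‖) →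
      ∀ r : ℝ, r < 1 → (∀ j ∈ t, ‖W j‖ ≤ r) → (∀ j ∈ s, ‖(V j)⁻¹‖ ≤ r) → ∀ f g : Hardy,
      ‖inner ℂ g (SC (plusS bp * ∏ j ∈ s, Ak (V j)) (minusS bm * ∏ j ∈ t, Gk (W j)) f)‖ ≤
        K * ((FF f r + ‖f‖) * (FF g r + ‖g‖)) := by
  obtain ⟨K0, hK0, hpair⟩ := pair_est hC heta hc
  obtain ⟨n, hn⟩ : ∃ n : ℕ, n = k + 1 := ⟨_, rfl⟩
  obtain ⟨B, hB⟩ : ∃ B : ℝ, B = (s0 ^ n)⁻¹ := ⟨_, rfl⟩
  have hB0 : 0 < B := by rw [hB]; positivity
  have hn0 : 0 < (n : ℝ) := by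
    rw [hn]
    positivity
  refine ⟨(n : ℝ) * ((n : ℝ) * (B * B * K0)), by positivity, ?_⟩
  intro bp bm hbp hbm s t V W hsn htn hV hVs hW hWs hVW r hr hWr hVr f g
  have hcs : s.card ≤ n := by
    refine (Finset.card_le_univ s).trans ?_
    simp [hn]
  have hct : t.card ≤ n := by
    refine (Finset.card_le_univ t).trans ?_
    simp [hn]
  have hr0 : 0 ≤ r := by
    obtain ⟨j, hj⟩ := htn
    exact (norm_nonneg _).trans (hWr j hj)
  have hVi : Set.InjOn V s := by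
    intro i hi j hj hij
    by_contra hne
    have := hVs i hi j hj hne
    rw [hij, sub_self, norm_zero] at this
    linarith
  have hWi : Set.InjOn W t := by
    intro i hi j hj hij
    by_contra hne
    have := hWs i hi j hj hne
    rw [hij, sub_self, norm_zero] at this
    linarith
  have hW0 : ∀ j ∈ t, W j ≠ 0 := by
    intro j hj h0
    have := (hW j hj).2
    rw [h0, norm_zero] at this
    exact absurd this (not_le.2 (Real.exp_pos _))
  obtain ⟨cV, hcV⟩ : ∃ cV : Option (Fin k) → ℂ, cV = fun j => (∏ k ∈ s.erase j, (V j - V k))⁻¹ :=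
    ⟨_, rfl⟩
  obtain ⟨cW, hcW⟩ : ∃ cW : Option (Fin k) → ℂ,
      cW = fun j => (∏ k ∈ t.erase j, (1 - W k * (W j)⁻¹))⁻¹ := ⟨_, rfl⟩
  have bV : ∀ j ∈ s, ‖cV j‖ ≤ B := by
    intro j hj
    rw [hcV, hB]
    exact prod_bound s (u := fun i j => V i - V j) hs0 hs1 hcs hVs hj
  have bW : ∀ j ∈ t, ‖cW j‖ ≤ B := by
    intro j hj
    rw [hcW, hB]
    refine prod_bound t (u := fun i j => 1 - W j * (W i)⁻¹) hs0 hs1 hct ?_ hj
    intro i hi j hj hij
    have h1 : 1 - W j * (W i)⁻¹ = (W i - W j) * (W i)⁻¹ := by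
      rw [sub_mul, mul_inv_cancel₀ (hW0 i hi)]
    have h2 : 1 ≤ ‖(W i)⁻¹‖ := by
      rw [norm_inv]
      exact (one_le_inv₀ (norm_pos_iff.2 (hW0 i hi))).2 (hW i hi).1.le
    rw [h1, norm_mul]
    exact (hWs i hi j hj hij).trans (le_mul_of_one_le_right (norm_nonneg _) h2)
  have e1 : plusS bp * ∏ j ∈ s, Ak (V j) = ∑ j ∈ s, cV j • (plusS bp * Ak (V j)) := by
    rw [prodA s hsn hVi fun j hj => (hV j hj).1, Finset.mul_sum]
    refine Finset.sum_congr rfl fun j _ => ?_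
    rw [mul_smul_comm, hcV]
  have e2 : minusS bm * ∏ j ∈ t, Gk (W j) = ∑ j ∈ t, cW j • (minusS bm * Gk (W j)) := by
    rw [prodG t htn hWi hW0 fun j hj => (hW j hj).1, Finset.mul_sum]
    refine Finset.sum_congr rfl fun j _ => ?_
    rw [mul_smul_comm, hcW]
  obtain ⟨X, hX⟩ : ∃ X : ℝ, X = (FF f r + ‖f‖) * (FF g r + ‖g‖) := ⟨_, rfl⟩
  have hFf := FF_nonneg f hr0
  have hFg := FF_nonneg g hr0
  have hX0 : 0 ≤ X := by rw [hX]; positivity
  have hterm : ∀ i ∈ s, ∀ j ∈ t, ‖inner ℂ g (((cV i * cW j) •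
      SC (plusS bp * Ak (V i)) (minusS bm * Gk (W j))) f)‖ ≤ B * B * K0 * X := by
    intro i hi j hj
    have h1 : ((cV i * cW j) • SC (plusS bp * Ak (V i)) (minusS bm * Gk (W j))) f =
        (cV i * cW j) • SC (plusS bp * Ak (V i)) (minusS bm * Gk (W j)) f := rfl
    rw [h1, inner_smul_right, norm_mul, norm_mul]
    have hvn : ‖(V i)⁻¹‖ < 1 := by
      rw [norm_inv]
      exact inv_lt_one_of_one_lt₀ (hV i hi).1
    have h2 := hpair bp bm hbp hbm (W j) (V i)⁻¹ (hW j hj).1 hvn (hW j hj).2 (hV i hi).2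
      (hVW i hi j hj) f g
    have h3 : ‖ev (W j) f‖ ≤ FF f r :=
      (norm_ev_le_FF (hW j hj).1 f).trans (FF_mono f (norm_nonneg _) (hWr j hj) hr)
    have hcn : ‖conj (V i)⁻¹‖ = ‖(V i)⁻¹‖ := Complex.norm_conj _
    have h4 : ‖ev (conj (V i)⁻¹) g‖ ≤ FF g r := by
      refine (norm_ev_le_FF (by rw [hcn]; exact hvn) g).trans ?_
      rw [hcn]
      exact FF_mono g (norm_nonneg _) (hVr i hi) hr
    have h5 : K0 * (‖ev (W j) f‖ + ‖f‖) * (‖ev (conj (V i)⁻¹) g‖ + ‖g‖) ≤ K0 * X := by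
      rw [hX, mul_assoc]
      refine mul_le_mul_of_nonneg_left ?_ hK0.le
      exact mul_le_mul (by linarith) (by linarith) (by positivity) (by positivity)
    have h6 : ‖inner ℂ g ((SC (plusS bp * Ak (V i)) (minusS bm * Gk (W j))) f)‖ ≤ K0 * X :=
      h2.trans h5
    calc ‖cV i‖ * ‖cW j‖ * ‖inner ℂ g ((SC (plusS bp * Ak (V i)) (minusS bm * Gk (W j))) f)‖ ≤
          B * B * (K0 * X) :=
        mul_le_mul (mul_le_mul (bV i hi) (bW j hj) (norm_nonneg _) hB0.le) h6 (norm_nonneg _)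
          (by positivity)
      _ = B * B * K0 * X := by ring
  rw [e1, e2, SC_sum, _root_.sum_apply, inner_sum, ← hX]
  have hin : ∀ i ∈ s, ‖inner ℂ g ((∑ j ∈ t, (cV i * cW j) •
      SC (plusS bp * Ak (V i)) (minusS bm * Gk (W j))) f)‖ ≤ n * (B * B * K0 * X) := by
    intro i hi
    rw [_root_.sum_apply, inner_sum]
    refine (norm_sum_le _ _).trans ?_
    refine (Finset.sum_le_sum fun j hj => hterm i hi j hj).trans ?_
    rw [Finset.sum_const, nsmul_eq_mul]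
    refine mul_le_mul_of_nonneg_right ?_ (by positivity)
    exact_mod_cast hct
  refine (norm_sum_le _ _).trans ?_
  refine (Finset.sum_le_sum hin).trans ?_
  rw [Finset.sum_const, nsmul_eq_mul]
  calc (s.card : ℝ) * (n * (B * B * K0 * X)) ≤ n * (n * (B * B * K0 * X)) := by
        refine mul_le_mul_of_nonneg_right ?_ (by positivity)
        exact_mod_cast hcs
    _ = n * (n * (B * B * K0)) * X := by ring

theorem fix_est {C0 eta kap s0 : ℝ} (hC0 : 0 < C0) (heta : 0 < eta) (hkap : 0 < kap)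
    (hkap1 : kap < 1) (hek : Real.exp (-(eta / 2)) ≤ kap) (hs0 : 0 < s0) (hs1 : s0 ≤ 1) (k : ℕ) :
    ∃ K : ℝ, 0 < K ∧ ∀ (Psi : CT) (x : ℤ), HasWH C0 eta Psi x → ∀ (Phi : CT) (l : ℂ)
      (z : Fin k → ℂ), Phi - algebraMap ℂ CT l = Psi * ∏ i, (fourier 1 - algebraMap ℂ CT (z i)) →
      x + ((Finset.univ.filter fun i => ‖z i‖ < 1).card : ℤ) = 0 → (∀ i, ‖z i‖ ≠ 1) →
      (∀ i, kap + s0 ≤ ‖z i‖ ∧ ‖z i‖ + s0 ≤ kap⁻¹) → (∀ i j, i ≠ j → s0 ≤ ‖z i - z j‖) →
      ∀ r : ℝ, kap ≤ r → r < 1 → (∀ i, ‖z i‖ < 1 → ‖z i‖ ≤ r) → (∀ i, 1 < ‖z i‖ → ‖z i‖⁻¹ ≤ r) →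
      ∀ f g : Hardy, ‖inner ℂ g ((resolvent (T Phi) l - T (resolvent Phi l)) f)‖ ≤
        K * ((FF f r + ‖f‖) * (FF g r + ‖g‖)) := by
  obtain ⟨C1, hC1⟩ : ∃ C1 : ℝ, C1 = C0 * (kap⁻¹ + Real.exp eta) + C0 * (1 + kap * Real.exp eta) :=
    ⟨_, rfl⟩
  have hC1p : 0 < C1 := by rw [hC1]; positivity
  obtain ⟨c, hc⟩ : ∃ c : ℝ, c = min (s0 * kap) (1 - kap) := ⟨_, rfl⟩
  have hc0 : 0 < c := by
    rw [hc]
    exact lt_min (by positivity) (by linarith)
  have hc1 : c ≤ s0 * kap := by rw [hc]; exact min_le_left _ _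
  have hc2 : c ≤ 1 - kap := by rw [hc]; exact min_le_right _ _
  obtain ⟨K, hK, hSC⟩ := SC_prod hC1p heta hc0 hs0 hs1 k
  refine ⟨K, hK, ?_⟩
  intro Psi x hWH Phi l z hfac hcard hne hbd hsep r hkr hr hin hout f g
  obtain ⟨bp, bm, cp, cm, hbp, hbm, hcp, hcm, hpp, hmm, hPsi⟩ := hWH
  have sbp := summable_of_dec heta hbp
  have sbm := summable_of_dec heta hbm
  have scp := summable_of_dec heta hcp
  have scm := summable_of_dec heta hcm
  obtain ⟨I, hI⟩ : ∃ I : Finset (Fin k), I = Finset.univ.filter fun i => ‖z i‖ < 1 := ⟨_, rfl⟩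
  obtain ⟨O, hO⟩ : ∃ O : Finset (Fin k), O = Finset.univ.filter fun i => ¬‖z i‖ < 1 := ⟨_, rfl⟩
  have hIm : ∀ i, i ∈ I ↔ ‖z i‖ < 1 := fun i => by rw [hI]; simp
  have hOm : ∀ i, i ∈ O ↔ 1 < ‖z i‖ := fun i => by
    rw [hO]
    simp only [Finset.mem_filter, Finset.mem_univ, true_and, not_lt]
    exact ⟨fun h => lt_of_le_of_ne h (hne i).symm, fun h => h.le⟩
  have hk1 : 1 < kap⁻¹ := (one_lt_inv₀ hkap).2 hkap1
  obtain ⟨w0, hw0⟩ : ∃ w0 : ℂ, w0 = ((kap⁻¹ : ℝ) : ℂ) := ⟨_, rfl⟩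
  obtain ⟨z0, hz0⟩ : ∃ z0 : ℂ, z0 = ((kap : ℝ) : ℂ) := ⟨_, rfl⟩
  have hw0n : ‖w0‖ = kap⁻¹ := by
    rw [hw0, Complex.norm_real, Real.norm_eq_abs, abs_of_pos (by positivity)]
  have hz0n : ‖z0‖ = kap := by
    rw [hz0, Complex.norm_real, Real.norm_eq_abs, abs_of_pos hkap]
  obtain ⟨V, hV⟩ : ∃ V : Option (Fin k) → ℂ, V = fun o => o.elim w0 z := ⟨_, rfl⟩
  obtain ⟨W, hW⟩ : ∃ W : Option (Fin k) → ℂ, W = fun o => o.elim z0 z := ⟨_, rfl⟩
  have hVn : V none = w0 := by rw [hV]; rfl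
  have hVs : ∀ i, V (some i) = z i := fun i => by rw [hV]; rfl
  have hWn : W none = z0 := by rw [hW]; rfl
  have hWs : ∀ i, W (some i) = z i := fun i => by rw [hW]; rfl
  obtain ⟨bp', hbp', hplus⟩ := mul_lin_plus heta hbp w0
  obtain ⟨bm', hbm', hminus⟩ := mul_lin_minus heta hbm z0
  have hbp1 : Dec C1 eta bp' := by
    refine dec_mono ?_ hbp'
    rw [hC1, hw0n]
    have : 0 ≤ C0 * (1 + kap * Real.exp eta) := by positivity
    linarith
  have hbm1 : Dec C1 eta bm' := by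
    refine dec_mono ?_ hbm'
    rw [hC1, hz0n]
    have : 0 ≤ C0 * (kap⁻¹ + Real.exp eta) := by positivity
    linarith
  have hw0gt : 1 < ‖w0‖ := by rw [hw0n]; exact hk1
  have hz0lt : ‖z0‖ < 1 := by rw [hz0n]; exact hkap1
  obtain ⟨alpha, halpha⟩ : ∃ alpha : CT, alpha = plusS bp' * ∏ j ∈ Finset.insertNone O, Ak (V j) :=
    ⟨_, rfl⟩
  obtain ⟨delta, hdelta⟩ : ∃ delta : CT,
      delta = minusS bm' * ∏ j ∈ Finset.insertNone I, Gk (W j) := ⟨_, rfl⟩
  have ealpha : alpha = plusS bp * ∏ i ∈ O, Ak (z i) := by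
    rw [halpha, Finset.prod_insertNone, hVn, hplus]
    have h1 := Ak_mul hw0gt
    have h2 : ∏ i ∈ O, Ak (V (some i)) = ∏ i ∈ O, Ak (z i) :=
      Finset.prod_congr rfl fun i _ => by rw [hVs]
    rw [h2]
    calc plusS bp * (fourier 1 - algebraMap ℂ CT w0) * (Ak w0 * ∏ i ∈ O, Ak (z i)) =
        plusS bp * (Ak w0 * (fourier 1 - algebraMap ℂ CT w0)) * ∏ i ∈ O, Ak (z i) := by ring
      _ = _ := by rw [h1, mul_one]
  have edelta : delta = minusS bm * ∏ i ∈ I, Gk (z i) := by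
    rw [hdelta, Finset.prod_insertNone, hWn, hminus]
    have h1 := Gk_mul hz0lt
    have h2 : ∏ i ∈ I, Gk (W (some i)) = ∏ i ∈ I, Gk (z i) :=
      Finset.prod_congr rfl fun i _ => by rw [hWs]
    rw [h2]
    calc minusS bm * (1 - z0 • fourier (-1)) * (Gk z0 * ∏ i ∈ I, Gk (z i)) =
        minusS bm * (Gk z0 * (1 - z0 • fourier (-1))) * ∏ i ∈ I, Gk (z i) := by ring
      _ = _ := by rw [h1, mul_one]
  obtain ⟨m0, hm0⟩ : ∃ m0 : CT, m0 = minusS cm * ∏ i ∈ I, (1 - z i • fourier (-1) : CT) :=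
    ⟨_, rfl⟩
  obtain ⟨p0, hp0⟩ : ∃ p0 : CT, p0 = plusS cp * ∏ i ∈ O, (fourier 1 - algebraMap ℂ CT (z i)) :=
    ⟨_, rfl⟩
  have ha : Plus alpha := by
    rw [ealpha]
    exact (plus_plusS sbp).mul (plus_prod O fun i hi => plus_Ak ((hOm i).1 hi))
  have hd : Minus delta := by
    rw [edelta]
    exact (minus_minusS sbm).mul (minus_prod I fun i hi => minus_Gk ((hIm i).1 hi))
  have hm : Minus m0 := by
    rw [hm0]
    exact (minus_minusS scm).mul (minus_prod I fun i _ => minus_one_sub (z i))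
  have hp : Plus p0 := by
    rw [hp0]
    exact (plus_plusS scp).mul (plus_prod O fun i _ => plus_sub (z i))
  have hx : x = -(I.card : ℤ) := by
    rw [hI]
    linarith
  have hfac' : Phi - algebraMap ℂ CT l = m0 * p0 := by
    have h1 : ∏ i, (fourier 1 - algebraMap ℂ CT (z i) : CT) =
        (∏ i ∈ I, (fourier 1 - algebraMap ℂ CT (z i) : CT)) *
          ∏ i ∈ O, (fourier 1 - algebraMap ℂ CT (z i) : CT) := by
      rw [hI, hO]
      exact (Finset.prod_filter_mul_prod_filter_not Finset.univ _ _).symm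
    rw [hfac, hPsi, h1, hm0, hp0, ← four_prod, hx]
    ring
  have hap : alpha * p0 = 1 := by
    have h1 : (∏ i ∈ O, Ak (z i)) * ∏ i ∈ O, (fourier 1 - algebraMap ℂ CT (z i) : CT) = 1 := by
      rw [← Finset.prod_mul_distrib]
      exact Finset.prod_eq_one fun i hi => Ak_mul ((hOm i).1 hi)
    rw [ealpha, hp0]
    calc _ = (plusS bp * plusS cp) * ((∏ i ∈ O, Ak (z i)) *
          ∏ i ∈ O, (fourier 1 - algebraMap ℂ CT (z i) : CT)) := by ring
      _ = 1 := by rw [hpp, h1, one_mul]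
  have hdm : delta * m0 = 1 := by
    have h1 : (∏ i ∈ I, Gk (z i)) * ∏ i ∈ I, (1 - z i • fourier (-1) : CT) = 1 := by
      rw [← Finset.prod_mul_distrib]
      exact Finset.prod_eq_one fun i hi => Gk_mul ((hIm i).1 hi)
    rw [edelta, hm0]
    calc _ = (minusS bm * minusS cm) * ((∏ i ∈ I, Gk (z i)) *
          ∏ i ∈ I, (1 - z i • fourier (-1) : CT)) := by ring
      _ = 1 := by rw [hmm, h1, one_mul]
  rw [res_sub ha hd hm hp hfac' hap hdm, halpha, hdelta]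
  have hzi : ∀ i, 0 < ‖z i‖ := fun i => by linarith [(hbd i).1]
  refine hSC bp' bm' hbp1 hbm1 (Finset.insertNone O) (Finset.insertNone I) V W
    ⟨none, by simp⟩ ⟨none, by simp⟩ ?_ ?_ ?_ ?_ ?_ r hr ?_ ?_ f g
  · intro j hj
    rcases j with _ | i
    · rw [hVn, norm_inv, hw0n, inv_inv]
      exact ⟨hk1, hek⟩
    · rw [Finset.some_mem_insertNone, hOm] at hj
      rw [hVs, norm_inv]
      refine ⟨hj, hek.trans ?_⟩
      have h1 := (hbd i).2
      rw [le_inv_comm₀ hkap (hzi i)]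
      linarith
  · intro i hi j hj hij
    rcases i with _ | i <;> rcases j with _ | j
    · exact absurd rfl hij
    · rw [hVn, hVs]
      have h1 := norm_sub_norm_le w0 (z j)
      rw [hw0n] at h1
      linarith [(hbd j).2]
    · rw [hVn, hVs]
      have h1 := norm_sub_norm_le w0 (z i)
      rw [hw0n, norm_sub_rev] at h1
      linarith [(hbd i).2]
    · rw [hVs, hVs]
      exact hsep i j fun h => hij (by rw [h])
  · intro j hj
    rcases j with _ | i
    · rw [hWn, hz0n]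
      exact ⟨hkap1, hek⟩
    · rw [Finset.some_mem_insertNone, hIm] at hj
      rw [hWs]
      exact ⟨hj, hek.trans (by linarith [(hbd i).1])⟩
  · intro i hi j hj hij
    rcases i with _ | i <;> rcases j with _ | j
    · exact absurd rfl hij
    · rw [hWn, hWs]
      have h1 := norm_sub_norm_le (z j) z0
      rw [hz0n, norm_sub_rev] at h1
      linarith [(hbd j).1]
    · rw [hWn, hWs]
      have h1 := norm_sub_norm_le (z i) z0
      rw [hz0n] at h1
      linarith [(hbd i).1]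
    · rw [hWs, hWs]
      exact hsep i j fun h => hij (by rw [h])
  · intro i hi j hj
    have key : ∀ a b : ℂ, ‖a‖ ≤ kap → ‖b‖ ≤ 1 → c ≤ ‖1 - a * b‖ := by
      intro a b h1 h2
      have h3 := norm_sub_norm_le (1 : ℂ) (a * b)
      rw [norm_one, norm_mul] at h3
      have h4 : ‖a‖ * ‖b‖ ≤ kap * 1 := mul_le_mul h1 h2 (norm_nonneg _) hkap.le
      linarith
    rcases i with _ | i <;> rcases j with _ | j
    · refine key _ _ (by rw [hWn, hz0n]) ?_
      rw [hVn, norm_inv, hw0n, inv_inv]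
      exact hkap1.le
    · rw [Finset.some_mem_insertNone, hIm] at hj
      rw [mul_comm]
      refine key _ _ ?_ ?_
      · rw [hVn, norm_inv, hw0n, inv_inv]
      · rw [hWs]
        exact hj.le
    · rw [Finset.some_mem_insertNone, hOm] at hi
      refine key _ _ (by rw [hWn, hz0n]) ?_
      rw [hVs, norm_inv]
      exact (inv_lt_one_of_one_lt₀ hi).le
    · rw [Finset.some_mem_insertNone, hOm] at hi
      rw [Finset.some_mem_insertNone, hIm] at hj
      rw [hWs, hVs]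
      have hi0 : z i ≠ 0 := norm_pos_iff.1 (hzi i)
      have h1 : 1 - z j * (z i)⁻¹ = (z i - z j) * (z i)⁻¹ := by
        rw [sub_mul, mul_inv_cancel₀ hi0]
      have hij : i ≠ j := by
        rintro rfl
        linarith
      have h2 : kap ≤ ‖(z i)⁻¹‖ := by
        rw [norm_inv, le_inv_comm₀ hkap (hzi i)]
        linarith [(hbd i).2]
      rw [h1, norm_mul]
      refine hc1.trans ?_
      exact mul_le_mul (hsep i j hij) h2 hkap.le (norm_nonneg _)
  · intro j hj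
    rcases j with _ | i
    · rw [hWn, hz0n]
      exact hkr
    · rw [Finset.some_mem_insertNone, hIm] at hj
      rw [hWs]
      exact hin i hj
  · intro j hj
    rcases j with _ | i
    · rw [hVn, norm_inv, hw0n, inv_inv]
      exact hkr
    · rw [Finset.some_mem_insertNone, hOm] at hj
      rw [hVs, norm_inv]
      exact hout i hj

theorem dbdM {phi : ℂ → ℂ} (hphi : AnalyticOnNhd ℂ phi (sphere 0 1)) (hNC : NC phi) {Phi : CT}
    (hPhi : ∀ x, Phi x = phi (e x)) {q : ℂ} (hqJ : q ∈ J phi)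
    (hq : ∀ z ∈ sphere (0 : ℂ) 1, phi z = q → deriv phi z ≠ 0) :
    ∃ rho C c1 : ℝ, 0 < rho ∧ 0 < C ∧ 0 < c1 ∧ ∀ l ∈ ball q rho, l ∉ Sg phi →
      c1 * infDist l (J phi) ≤ 1 ∧ ∀ f g : Hardy,
      ‖inner ℂ g ((resolvent (T Phi) l - T (resolvent Phi l)) f)‖ ≤
        C * ((FF f (1 - c1 * infDist l (J phi)) + ‖f‖) *
          (FF g (1 - c1 * infDist l (J phi)) + ‖g‖)) := by
  obtain ⟨rho, d, m, M, c0, x, k, hrho, hd, hd1, hm, hc0, hfz⟩ := exists_fz_sep hphi hNC hq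
  obtain ⟨C0, eta, hC0, heta, hWH⟩ := hasWH (M := M) hd hd1 hm x
  obtain ⟨kap, hkap⟩ : ∃ kap : ℝ, kap = Real.exp (-(eta / 2)) := ⟨_, rfl⟩
  have hkap0 : 0 < kap := by rw [hkap]; exact Real.exp_pos _
  have hkap1 : kap < 1 := by
    rw [hkap, Real.exp_lt_one_iff]
    linarith
  have hk1 : 1 < kap⁻¹ := (one_lt_inv₀ hkap0).2 hkap1
  obtain ⟨de, hde⟩ : ∃ de : ℝ, de = min ((1 - kap) / 2) ((kap⁻¹ - 1) / 2) := ⟨_, rfl⟩
  have hde0 : 0 < de := by
    rw [hde]
    exact lt_min (by linarith) (by linarith)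
  have hde1 : de ≤ (1 - kap) / 2 := by rw [hde]; exact min_le_left _ _
  have hde2 : de ≤ (kap⁻¹ - 1) / 2 := by rw [hde]; exact min_le_right _ _
  obtain ⟨s0, hs0⟩ : ∃ s0 : ℝ, s0 = min de c0 := ⟨_, rfl⟩
  have hs00 : 0 < s0 := by rw [hs0]; exact lt_min hde0 hc0
  have hs0d : s0 ≤ de := by rw [hs0]; exact min_le_left _ _
  have hs0c : s0 ≤ c0 := by rw [hs0]; exact min_le_right _ _
  have hs01 : s0 ≤ 1 := by linarith
  obtain ⟨K, hK, hfix⟩ := fix_est hC0 heta hkap0 hkap1 hkap.ge hs00 hs01 k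
  have hphid : DifferentiableOn ℂ phi (ann d) := by
    obtain ⟨z, psi, h1, -, -, -, -, h2, -⟩ := hfz q (mem_ball_self hrho)
    have h3 : DifferentiableOn ℂ (fun w => psi w * ∏ i, (w - z i) + q) (ann d) := by
      refine (h1.mul ?_).add_const q
      exact (DifferentiableOn.fun_finsetProd fun i _ => differentiableOn_id.sub_const _)
    exact h3.congr fun w hw => by
      rw [← h2 w hw]
      ring
  obtain ⟨c2, hc2, hdist⟩ := dist_zero hd hd1 hphid q rho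
  obtain ⟨zq, psiq, -, hq2, -, -, hq5, hq6, -⟩ := hfz q (mem_ball_self hrho)
  obtain ⟨rho1, hrho1⟩ : ∃ rho1 : ℝ, rho1 = min rho (m * de ^ k) := ⟨_, rfl⟩
  have hrho10 : 0 < rho1 := by
    rw [hrho1]
    exact lt_min hrho (by positivity)
  have hr1 : rho1 ≤ rho := by rw [hrho1]; exact min_le_left _ _
  have hr2 : rho1 ≤ m * de ^ k := by rw [hrho1]; exact min_le_right _ _
  obtain ⟨c1, hc1⟩ : ∃ c1 : ℝ, c1 = min (c2 / (1 + c2 * rho)) ((1 - kap) / rho) := ⟨_, rfl⟩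
  have hc10 : 0 < c1 := by
    rw [hc1]
    exact lt_min (by positivity) (div_pos (by linarith) hrho)
  have hc1a : c1 * (1 + c2 * rho) ≤ c2 := by
    rw [← le_div_iff₀ (by positivity), hc1]
    exact min_le_left _ _
  have hc1b : c1 * rho ≤ 1 - kap := by
    rw [← le_div_iff₀ hrho, hc1]
    exact min_le_right _ _
  refine ⟨rho1, K, c1, hrho10, hK, hc10, ?_⟩
  intro l hl hlS
  have hlJ : l ∉ J phi := fun h => hlS (Or.inl h)
  have hlw : wd phi l = 0 := by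
    by_contra h
    exact hlS (Or.inr h)
  have hl1 : l ∈ ball q rho := ball_subset_ball hr1 hl
  obtain ⟨z, psi, h1, h2, h3, h4, -, h5, h6⟩ := hfz l hl1
  have hpsi0 : ∀ w ∈ ann d, psi w ≠ 0 := fun w hw h0 => by
    have := (h2 w hw).1
    rw [h0, norm_zero] at this
    linarith
  have hpc : Continuous fun t : UnitAddCircle => psi (e t) :=
    h1.continuousOn.comp_continuous continuous_e fun t => e_mem_ann hd t
  obtain ⟨Psi, hPsi⟩ : ∃ Psi : CT, ∀ t, Psi t = psi (e t) := ⟨⟨_, hpc⟩, fun _ => rfl⟩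
  have hsym : Phi - algebraMap ℂ CT l = Psi * ∏ i, (fourier 1 - algebraMap ℂ CT (z i)) := by
    ext t
    have e1 := h5 (e t) (e_mem_ann hd t)
    rw [ContinuousMap.sub_apply, ContinuousMap.mul_apply, ContinuousMap.coe_prod,
      Finset.prod_apply, hPhi, hPsi]
    simp only [ContinuousMap.sub_apply, fourier_one_apply]
    exact e1
  have hcard : x + ((Finset.univ.filter fun i => ‖z i‖ < 1).card : ℤ) = 0 := by
    have e1 := wd_of_fac hd hlJ h1 hpsi0 h3 h4 h5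
    rw [hlw] at e1
    exact_mod_cast e1.symm
  have hne : ∀ i, ‖z i‖ ≠ 1 := fun i h => hlJ ⟨z i, by simpa using h, (h4 i).2⟩
  obtain ⟨y, hy⟩ : ∃ y : ℝ, y = infDist l (J phi) := ⟨_, rfl⟩
  have hJc : IsClosed (J phi) := (isCompact_J hphi).isClosed
  have hJn : (J phi).Nonempty := ⟨q, hqJ⟩
  have hy0 : 0 < y := by
    rw [hy]
    exact (hJc.notMem_iff_infDist_pos hJn).1 hlJ
  have hyr : y ≤ rho := by
    rw [hy]
    exact ((infDist_le_dist_of_mem hqJ).trans (mem_ball.1 hl1).le)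
  have hclose : ∀ i, |1 - ‖z i‖| < de := by
    intro i
    by_contra hcon
    rw [not_lt] at hcon
    have e1 := hq6 (z i) (h4 i).1
    rw [(h4 i).2] at e1
    have e2 : ∀ j, de ≤ ‖z i - zq j‖ := by
      intro j
      refine hcon.trans ?_
      have e3 := abs_norm_sub_norm_le (zq j) (z i)
      rw [hq5 rfl j, norm_sub_rev] at e3
      exact e3
    have e3 : de ^ k ≤ ∏ j, ‖z i - zq j‖ := by
      have e4 : de ^ k = ∏ _j : Fin k, de := by simp
      rw [e4]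
      exact Finset.prod_le_prod (fun _ _ => hde0.le) fun j _ => e2 j
    have e4 : m * de ^ k ≤ ‖l - q‖ := by
      rw [e1, norm_mul, norm_prod]
      exact mul_le_mul (hq2 (z i) (h4 i).1).1 e3 (by positivity) (norm_nonneg _)
    have e5 : ‖l - q‖ < rho1 := by
      rw [← dist_eq_norm]
      exact hl
    linarith
  have hcy : c1 * y ≤ 1 - kap := (mul_le_mul_of_nonneg_left hyr hc10.le).trans hc1b
  have hcy0 : 0 < c1 * y := by positivity
  rw [← hy]
  refine ⟨by linarith, ?_⟩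
  have hdi : ∀ i, c2 * y ≤ |1 - ‖z i‖| := fun i => by
    rw [hy]
    exact hdist l hl1 (z i) (h4 i).1 (h4 i).2
  have hc12 : c1 ≤ c2 := by
    refine le_trans ?_ hc1a
    exact le_mul_of_one_le_right hc10.le (by nlinarith [mul_pos hc2 hrho])
  refine hfix Psi x (hWH psi h1 h2 h3 Psi hPsi) Phi l z hsym hcard hne ?_
    (fun i j hij => hs0c.trans (h6 i j hij)) (1 - c1 * y) (by linarith) (by linarith) ?_ ?_
  · intro i
    have e1 := abs_lt.1 (hclose i)
    constructor <;> linarith [e1.1, e1.2]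
  · intro i hi
    have e1 := hdi i
    rw [abs_of_pos (by linarith)] at e1
    have e2 : c1 * y ≤ c2 * y := mul_le_mul_of_nonneg_right hc12 hy0.le
    linarith
  · intro i hi
    have e1 := hdi i
    rw [abs_of_neg (by linarith)] at e1
    have e2 : 0 < 1 - c1 * y := by linarith
    rw [inv_le_comm₀ (by linarith) e2]
    have e3 : (1 - c1 * y)⁻¹ ≤ 1 + c2 * y := by
      rw [inv_le_comm₀ e2 (by positivity), inv_eq_one_div, div_le_iff₀ (by positivity)]
      have e4 : c1 * (1 + c2 * y) ≤ c2 := by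
        refine le_trans ?_ hc1a
        have e5 : c2 * y ≤ c2 * rho := mul_le_mul_of_nonneg_left hyr hc2.le
        exact mul_le_mul_of_nonneg_left (by linarith) hc10.le
      nlinarith [mul_le_mul_of_nonneg_right e4 hy0.le]
    linarith

theorem inpM {phi : ℂ → ℂ} (hphi : AnalyticOnNhd ℂ phi (sphere 0 1)) (hNC : NC phi) {Phi : CT}
    (hPhi : ∀ x, Phi x = phi (e x)) {q : ℂ} (hqJ : q ∈ J phi)
    (hq : ∀ z ∈ sphere (0 : ℂ) 1, phi z = q → deriv phi z ≠ 0) : Inp phi Phi q := by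
  intro c hc
  obtain ⟨rho, C, c1, hrho, hC, hc1, hb⟩ := dbdM hphi hNC hPhi hqJ hq
  refine ⟨C, c1 * c, rho, hC, by positivity, hrho, ?_⟩
  intro l hl hlq hlS
  have hlq0 : 0 < ‖l - q‖ := norm_pos_iff.2 (sub_ne_zero.2 hlq)
  have h1 : l ∉ Sg phi := by
    intro h
    have h2 := hlS l h
    rw [sub_self, norm_zero] at h2
    exact absurd h2 (not_le.2 (by positivity))
  have hJn : (J phi).Nonempty := ⟨q, hqJ⟩
  have h2 : c * ‖l - q‖ ≤ infDist l (J phi) := by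
    rw [le_infDist hJn]
    intro y hy
    rw [dist_comm, dist_eq_norm]
    exact hlS y (Or.inl hy)
  obtain ⟨h3, h4⟩ := hb l hl h1
  have h5 : c1 * c * ‖l - q‖ ≤ c1 * infDist l (J phi) := by
    rw [mul_assoc]
    exact mul_le_mul_of_nonneg_left h2 hc1.le
  refine ⟨h5.trans h3, fun f g => (h4 f g).trans ?_⟩
  have h6 : 0 ≤ 1 - c1 * infDist l (J phi) := by linarith
  have h7 : 1 - c1 * c * ‖l - q‖ < 1 := by
    have : 0 < c1 * c * ‖l - q‖ := by positivity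
    linarith
  have h8 : ∀ f : Hardy, FF f (1 - c1 * infDist l (J phi)) ≤ FF f (1 - c1 * c * ‖l - q‖) :=
    fun f => FF_mono f h6 (by linarith) h7
  have h9 := FF_nonneg f h6
  have h10 := FF_nonneg g h6
  have h11 := h8 f
  have h12 := h8 g
  refine mul_le_mul_of_nonneg_left ?_ hC.le
  exact mul_le_mul (by linarith) (by linarith) (by positivity) (by
    have := norm_nonneg f
    linarith)

end Pool.Agent.TBirM
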