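import Pool.Agent.TBirR.Inj
import Pool.Agent.TBirS.Dense

/-!
# The range of `T - q` is dense if the inner winding number at `q` is not positive

Paper proof. `DR A` (TBirS/Dense): the only `y` with `inner y (A f) = 0` for all `f` is `0`; so `DR A` follows if
`adjoint A y = 0 → y = 0`. `adjoint (T Phi - q) = T (star Phi) - conj q` (`adjoint_T`). On the circle `|w| = 1`:
`conj w - conj a = w⁻¹ - a⁻¹ = -(w - a) / (w a)` for `|a| = 1`. So
`star Phi t - conj q = conj (psi (e t)) * ∏ (conj (e t) - conj (z i)) = psi2 (e t) * ∏ (e t - z i)` with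
`psi2 w = pstar psi w * ∏ (-(w * z i)⁻¹)` (`pstar` of TBir: `pstar psi w = conj (psi (conj w)⁻¹)`, see
`pstar_ana`, `pstar_sphere` in TBirG/Main). `psi2` is analytic near the circle without zero on it and
`wind psi2 = - x - k`: `wind (pstar psi) = - wind psi` (see `wd_pstar` in TBir and its proof; both are
integers by `wind_int`, compare the real parts as in `wd_pstar_eq` of TBirR/Main, use `l = 0`),
`wind (w⁻¹) = -1` (`wind_mul`, `wind_sub_const` with `a = 0`). Apply `inj_of_fac` (TBirR/Inj) to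
`star Phi`, `conj q`, `psi2`, `x2 = -x - k`: `0 ≤ x2 + k = -x`.
-/

set_option autoImplicit false

open MeasureTheory Complex Set Filter Topology Metric AddCircle
open scoped ComplexConjugate InnerProductSpace ENNReal

namespace Pool.Agent.TBirM

open Pool.Agent.TBir Pool.Agent.TBirG
open Pool.Agent.TBirS (DR)

private theorem dr_wprod {k : ℕ} (h : Fin k → ℂ → ℂ)
    (ha : ∀ i, AnalyticOnNhd ℂ (h i) (sphere 0 1)) (h0 : ∀ i, ∀ w ∈ sphere (0 : ℂ) 1, h i w ≠ 0)
    (hw : ∀ i, wind (h i) = -1) {g : ℂ → ℂ} (hg : AnalyticOnNhd ℂ g (sphere 0 1))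
    (hg0 : ∀ w ∈ sphere (0 : ℂ) 1, g w ≠ 0) :
    AnalyticOnNhd ℂ (fun w => g w * ∏ i, h i w) (sphere 0 1) ∧
      (∀ w ∈ sphere (0 : ℂ) 1, g w * ∏ i, h i w ≠ 0) ∧
      wind (fun w => g w * ∏ i, h i w) = wind g - k := by
  induction k generalizing g with
  | zero =>
    simp only [Finset.univ_eq_empty, Finset.prod_empty, mul_one, Nat.cast_zero, sub_zero]
    exact ⟨hg, hg0, trivial⟩
  | succ k ih =>
    have h1 := ih (fun i => h i.succ) (fun i => ha i.succ) (fun i => h0 i.succ) (fun i => hw i.succ)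
      (g := fun w => g w * h 0 w) (hg.mul (ha 0)) (fun w hw => mul_ne_zero (hg0 w hw) (h0 0 w hw))
    have h2 : (fun w => g w * ∏ i, h i w) =
        fun w => g w * h 0 w * ∏ i : Fin k, h i.succ w := by
      funext w
      rw [Fin.prod_univ_succ, mul_assoc]
    have h3 : ∀ w, g w * ∏ i, h i w = g w * h 0 w * ∏ i : Fin k, h i.succ w := fun w =>
      congrFun h2 w
    refine ⟨by rw [h2]; exact h1.1, fun w hw => by rw [h3]; exact h1.2.1 w hw, ?_⟩
    rw [h2, h1.2.2, wind_mul hg (ha 0) hg0 (h0 0), hw 0]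
    push_cast
    ring

private theorem dr_fac {a : ℂ} (ha : ‖a‖ = 1) :
    AnalyticOnNhd ℂ (fun w : ℂ => -(w * a)⁻¹) (sphere 0 1) ∧
      (∀ w ∈ sphere (0 : ℂ) 1, -(w * a)⁻¹ ≠ 0) ∧ wind (fun w : ℂ => -(w * a)⁻¹) = -1 := by
  have ha0 : a ≠ 0 := by
    rintro rfl
    simp at ha
  have hw0 : ∀ w ∈ sphere (0 : ℂ) 1, w ≠ 0 := by
    rintro w hw rfl
    simp at hw
  have h1 : AnalyticOnNhd ℂ (fun w : ℂ => -(w * a)⁻¹) (sphere 0 1) := fun w hw =>
    ((analyticAt_id.mul analyticAt_const).inv (mul_ne_zero (hw0 w hw) ha0)).neg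
  have h2 : ∀ w ∈ sphere (0 : ℂ) 1, -(w * a)⁻¹ ≠ 0 := fun w hw =>
    neg_ne_zero.2 (inv_ne_zero (mul_ne_zero (hw0 w hw) ha0))
  refine ⟨h1, h2, ?_⟩
  have h3 : AnalyticOnNhd ℂ (fun w : ℂ => w - 0) (sphere 0 1) := fun w _ =>
    analyticAt_id.sub analyticAt_const
  have h4 := wind_mul h1 h3 h2 (fun w hw => by rw [sub_zero]; exact hw0 w hw)
  have h5 : wind (fun w : ℂ => w - 0) = 1 := by
    rw [wind_sub_const (a := 0) (by simp)]
    simp
  have h6 : wind (fun w : ℂ => -(w * a)⁻¹ * (w - 0)) = wind (fun _ : ℂ => -a⁻¹) := by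
    refine wind_congr fun w hw => ?_
    filter_upwards [isOpen_ne.mem_nhds (hw0 w hw)] with v hv
    have hv0 : v ≠ 0 := hv
    rw [sub_zero]
    field_simp
  have h7 : wind (fun _ : ℂ => -a⁻¹) = 0 := by
    unfold wind
    simp [circleIntegral]
  rw [h6, h7, h5] at h4
  linear_combination -h4

theorem dr_of_fac {psi : ℂ → ℂ} (hpsi : AnalyticOnNhd ℂ psi (sphere 0 1))
    (h0 : ∀ w ∈ sphere (0 : ℂ) 1, psi w ≠ 0) {x : ℤ} (hx : wind psi = x) {k : ℕ} {z : Fin k → ℂ}
    (hz : ∀ i, ‖z i‖ = 1) (hk : x ≤ 0) {Phi : CT} {q : ℂ}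
    (hfac : ∀ t, Phi t - q = psi (e t) * ∏ i, (e t - z i)) :
    DR (T Phi - q • (1 : Hardy →L[ℂ] Hardy)) := by
  have hp : AnalyticOnNhd ℂ (pstar psi) (sphere 0 1) := pstar_ana hpsi
  have hp0 : ∀ w ∈ sphere (0 : ℂ) 1, pstar psi w ≠ 0 := by
    intro w hw
    rw [pstar_sphere psi (by simpa using hw)]
    simpa using h0 w hw
  have hJ : (0 : ℂ) ∉ J psi := by
    rintro ⟨w, hw, hw0⟩
    exact h0 w hw hw0
  have hwp : wind (pstar psi) = ((-x : ℤ) : ℂ) := by
    obtain ⟨n, hn⟩ := wind_int hp hp0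
    have h1 := wd_pstar hpsi hJ
    have h2 : wd psi 0 = wind psi := by
      unfold wd
      simp only [sub_zero]
    have h3 : wd (pstar psi) (conj 0) = wind (pstar psi) := by
      unfold wd
      simp only [map_zero, sub_zero]
    rw [h2, h3, hx, hn, Complex.intCast_re, Complex.intCast_re] at h1
    have h4 : n = -x := by exact_mod_cast h1
    rw [hn, h4]
  obtain ⟨ha, hne, hw⟩ := dr_wprod (fun i (w : ℂ) => -(w * z i)⁻¹) (fun i => (dr_fac (hz i)).1)
    (fun i => (dr_fac (hz i)).2.1) (fun i => (dr_fac (hz i)).2.2) hp hp0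
  intro y hy
  have hTy : T (star Phi) y = conj q • y := by
    have key : ∀ u : Hardy, inner ℂ (T (star Phi) y - conj q • y) u = 0 := by
      intro u
      rw [inner_sub_left, inner_smul_left, Complex.conj_conj, ← adjoint_T,
        ContinuousLinearMap.adjoint_inner_left]
      have h1 := hy u
      have h2 : (T Phi - q • (1 : Hardy →L[ℂ] Hardy)) u = T Phi u - q • u := rfl
      rw [h2, inner_sub_right, inner_smul_right] at h1
      exact h1
    rw [← sub_eq_zero, ← inner_self_eq_zero (𝕜 := ℂ)]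
    exact key _
  refine Pool.Agent.TBirR.inj_of_fac ha hne (x := -x - k) (by rw [hw, hwp]; push_cast; ring) hz
    (by omega) (Phi := star Phi) (q := conj q) (fun t => ?_) hTy
  have h1 : ‖e t‖ = 1 := norm_e t
  have h2 : star Phi t - conj q = conj (Phi t - q) := by
    rw [map_sub]
    rfl
  rw [h2, hfac, map_mul, map_prod, pstar_sphere psi h1, mul_assoc, ← Finset.prod_mul_distrib]
  congr 1
  refine Finset.prod_congr rfl fun i _ => ?_
  have h3 : ∀ v : ℂ, ‖v‖ = 1 → conj v = v⁻¹ := by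
    intro v hv
    have h4 : v * conj v = 1 := by
      rw [Complex.mul_conj, Complex.normSq_eq_norm_sq, hv]
      norm_num
    exact eq_inv_of_mul_eq_one_right h4
  have h5 : ∀ v : ℂ, ‖v‖ = 1 → v ≠ 0 := by
    rintro v hv rfl
    simp at hv
  have h6 := h5 _ h1
  have h7 := h5 _ (hz i)
  rw [map_sub, h3 _ h1, h3 _ (hz i)]
  field_simp
  ring

end Pool.Agent.TBirM
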