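import Pool.Agent.TBirM.Cut

/-!
# A cutoff function near a point from which two sets are seen in separated directions

Paper proof. Shrink `rho` so that `ball q rho` is contained in the neighbourhood of `hcov`. For `l ≠ q` let
`u l = (l - q) / ‖l - q‖`. Let `A1`, `A2` be the sets of the `u l`, `l ∈ ball q rho`, `l ≠ q`, `l ∈ Sg phi`,
`l ∈ U1` (resp. `U2`). They are subsets of the unit circle and `dist a1 a2 ≥ c` for `a1 ∈ A1`, `a2 ∈ A2`. The compact
sets `cthickening (c/4) A1`, `cthickening (c/4) A2` (bounded, closed) are disjoint; by `cutx_smooth` (private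
in TBirM/Cut, copy it: smooth Urysohn) there is a `C^1` function `F : ℂ → ℝ` with values in `[0, 1]` which is
`1` near the first and `0` near the second set. (Empty sets are no problem.) Put
`f l = F (u l)` for `l ≠ q` and `f q = 0`. `f` is `C^1` off `q`, and `‖dbar f l‖ ≤ C / ‖l - q‖` by homogeneity: see
`paC_smul`, `pa_grad` in TBirS/Plan.lean or `pl_grad` in TBir/ChiP.lean (translate to `q = 0`:
`f (q + t v) = f (q + v)` for `t > 0`, `fderiv` is bounded on the unit circle around `q`).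
(a) Let `l ∈ ball q (rho/2)`, `l ≠ q` and `dbar f l ≠ 0` or `f l ∉ {0, 1}`. Then `u l` is not in the interior of
`cthickening (c/4) A_j`, so `dist (u l) a ≥ c/4` for all `a ∈ A1 ∪ A2` (if `dist (u l) a < c/4` then near `u l` the
function `F` is constant `0` or `1`, so `f` is constant near `l`). Let `l' ∈ Sg phi`. If `l' = q`:
`‖l' - l‖ = ‖l - q‖`. If `l' ∉ ball q rho`: `‖l' - l‖ ≥ rho/2 ≥ ‖l - q‖`. Otherwise `l' ∈ U1 ∪ U2` by `hcov`,
`u l' ∈ A1 ∪ A2`, and `‖u l - u l'‖ ≤ 2 ‖l - l'‖ / ‖l - q‖`, so `‖l - l'‖ ≥ (c/8) ‖l - q‖`. So the constant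
`min 1 (c/8)` works.
(b) If `l ∈ Sg phi`, `l ∈ U1`, `l ∈ ball q rho`, `l ≠ q` then `u l ∈ A1`, `F = 1` near `u l`, `u` is continuous at `l`.
-/

set_option autoImplicit false

open MeasureTheory Complex Set Filter Topology Metric AddCircle
open scoped ComplexConjugate InnerProductSpace ENNReal
open Pool.Lib (dbar)

namespace Pool.Agent.TBirM

open Pool.Agent.TBir
open Pool.Agent.TBirS (Sg)

private theorem lcx_smooth {A B : Set ℂ} (hA : IsCompact A) (hB : IsClosed B)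
    (hAB : Disjoint A B) : ∃ g : ℂ → ℝ, ContDiff ℝ 1 g ∧
      (∀ l, 0 ≤ g l ∧ g l ≤ 1) ∧ (∀ l ∈ A, ∀ᶠ l' in 𝓝 l, g l' = 1) ∧
      (∀ l ∈ B, ∀ᶠ l' in 𝓝 l, g l' = 0) := by
  obtain ⟨L, hL, hAL, hLB⟩ := exists_compact_between hA hB.isOpen_compl
    (subset_compl_iff_disjoint_right.2 hAB)
  obtain ⟨f, f1, f0, hf⟩ := exists_contMDiffMap_one_nhds_of_subset_interior
    (modelWithCornersSelf ℝ ℂ) (n := 1) hA.isClosed hAL
  refine ⟨f, f.contMDiff.contDiff, fun l => hf l, ?_, ?_⟩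
  · intro l hl
    exact (eventually_nhdsSet_iff_forall.1 f1) l hl
  · intro l hl
    have : Lᶜ ∈ 𝓝 l := hL.isClosed.isOpen_compl.mem_nhds (fun h => hLB h hl)
    filter_upwards [this] with l' hl'
    exact f0 l' hl'

/-- The direction of `v`. -/
private noncomputable def lcU (v : ℂ) : ℂ := ‖v‖⁻¹ • v

private theorem lcU_eq (v : ℂ) : lcU v = v / ‖v‖ := by
  unfold lcU
  rw [Complex.real_smul, Complex.ofReal_inv, div_eq_inv_mul]

private theorem lcU_norm {v : ℂ} (hv : v ≠ 0) : ‖lcU v‖ = 1 := by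
  unfold lcU
  rw [norm_smul, norm_inv, norm_norm, inv_mul_cancel₀ (norm_ne_zero_iff.2 hv)]

private theorem lcU_smul (v : ℂ) {t : ℝ} (ht : 0 < t) : lcU (t • v) = lcU v := by
  unfold lcU
  rw [norm_smul, Real.norm_eq_abs, abs_of_pos ht, smul_smul, mul_inv, mul_comm t⁻¹, mul_assoc,
    inv_mul_cancel₀ ht.ne', mul_one]

private theorem lcU_contDiffAt {v : ℂ} (hv : v ≠ 0) : ContDiffAt ℝ 1 lcU v := by
  unfold lcU
  exact ((contDiffAt_norm ℝ hv).inv (norm_ne_zero_iff.2 hv)).smul contDiffAt_id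

private theorem lcU_sub_le {v w : ℂ} (hv : v ≠ 0) (hw : w ≠ 0) :
    ‖lcU v - lcU w‖ * ‖v‖ ≤ 2 * ‖v - w‖ := by
  have hv0 : 0 < ‖v‖ := norm_pos_iff.2 hv
  have hw0 : 0 < ‖w‖ := norm_pos_iff.2 hw
  have e : ‖v‖ • (lcU v - lcU w) = (v - w) + (‖w‖ - ‖v‖) • lcU w := by
    unfold lcU
    rw [smul_sub, smul_smul, smul_smul, smul_smul, mul_inv_cancel₀ hv0.ne', one_smul, sub_mul,
      mul_inv_cancel₀ hw0.ne', sub_smul, one_smul]
    abel
  have h1 : ‖lcU v - lcU w‖ * ‖v‖ = ‖‖v‖ • (lcU v - lcU w)‖ := by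
    rw [norm_smul, norm_norm, mul_comm]
  rw [h1, e]
  refine (norm_add_le _ _).trans ?_
  rw [norm_smul, lcU_norm hw, mul_one, Real.norm_eq_abs]
  have h2 : |‖w‖ - ‖v‖| ≤ ‖v - w‖ := by
    rw [abs_sub_comm]
    exact abs_norm_sub_norm_le v w
  linarith

private theorem lc_grad {h : ℂ → ℂ} (hC : ∀ v : ℂ, v ≠ 0 → ContDiffAt ℝ 1 h v)
    (hh : ∀ (v : ℂ) (t : ℝ), 0 < t → h (t • v) = h v) :
    ∃ C : ℝ, 0 < C ∧ ∀ v : ℂ, v ≠ 0 → ‖dbar h v‖ ≤ C / ‖v‖ := by
  have hCD : ContDiffOn ℝ 1 h {(0 : ℂ)}ᶜ := fun v hv => (hC v hv).contDiffWithinAt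
  have hcont : ContinuousOn (fderiv ℝ h) {(0 : ℂ)}ᶜ :=
    hCD.continuousOn_fderiv_of_isOpen isOpen_compl_singleton le_rfl
  have hsub : sphere (0 : ℂ) 1 ⊆ {(0 : ℂ)}ᶜ := by
    intro z hz h0
    rw [mem_singleton_iff] at h0
    rw [h0, mem_sphere_iff_norm] at hz
    simp at hz
  obtain ⟨M, hM⟩ := (isCompact_sphere (0 : ℂ) 1).exists_bound_of_continuousOn
    (hcont.mono hsub)
  have hM0 : 0 ≤ M := (norm_nonneg _).trans (hM 1 (by simp))
  refine ⟨M + 1, by linarith, fun v hv => ?_⟩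
  have hv0 : 0 < ‖v‖ := norm_pos_iff.mpr hv
  have ht : 0 < ‖v‖⁻¹ := inv_pos.mpr hv0
  have e1 : (fun x : ℂ => h (‖v‖⁻¹ • x)) = h := by
    funext x
    exact hh x _ ht
  have e2 : fderiv ℝ h v = ‖v‖⁻¹ • fderiv ℝ h (‖v‖⁻¹ • v) := by
    conv_lhs => rw [← e1]
    exact fderiv_comp_smul ‖v‖⁻¹
  have hsph : ‖v‖⁻¹ • v ∈ sphere (0 : ℂ) 1 := by
    rw [mem_sphere_iff_norm, sub_zero, norm_smul, norm_inv, norm_norm,
      inv_mul_cancel₀ hv0.ne']
  have h3 : ‖fderiv ℝ h v‖ ≤ ‖v‖⁻¹ * M := by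
    rw [e2, norm_smul, norm_inv, norm_norm]
    exact mul_le_mul_of_nonneg_left (hM _ hsph) ht.le
  have h4 : ∀ u : ℂ, ‖u‖ = 1 → ‖fderiv ℝ h v u‖ ≤ ‖v‖⁻¹ * M := by
    intro u hu
    have := (fderiv ℝ h v).le_opNorm u
    rw [hu, mul_one] at this
    exact this.trans h3
  have h5 : ‖dbar h v‖ ≤ ‖v‖⁻¹ * M := by
    unfold Pool.Lib.dbar
    rw [norm_div]
    have h6 : ‖fderiv ℝ h v 1 + I * fderiv ℝ h v I‖ ≤ ‖v‖⁻¹ * M + ‖v‖⁻¹ * M := by
      refine (norm_add_le _ _).trans ?_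
      rw [norm_mul, Complex.norm_I, one_mul]
      exact add_le_add (h4 1 (by simp)) (h4 I (by simp))
    have h7 : ‖(2 : ℂ)‖ = 2 := by simp
    rw [h7, div_le_iff₀ (by norm_num)]
    linarith
  refine h5.trans ?_
  rw [div_eq_inv_mul]
  exact mul_le_mul_of_nonneg_left (by linarith) ht.le

private theorem lc_dbar_sub (h : ℂ → ℂ) (q l : ℂ) : dbar (fun x => h (x - q)) l = dbar h (l - q) := by
  unfold Pool.Lib.dbar
  rw [fderiv_comp_sub]

theorem locCut_of_dir {phi : ℂ → ℂ} {U1 U2 : Set ℂ} {q : ℂ}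
    (hcov : ∀ᶠ l in 𝓝 q, l ∈ Sg phi → l ≠ q → l ∈ U1 ∨ l ∈ U2) {c rho : ℝ} (hc : 0 < c)
    (hrho : 0 < rho)
    (hsep : ∀ l1 ∈ ball q rho, l1 ≠ q → l1 ∈ Sg phi → l1 ∈ U1 →
      ∀ l2 ∈ ball q rho, l2 ≠ q → l2 ∈ Sg phi → l2 ∈ U2 →
        c ≤ ‖(l1 - q) / ‖l1 - q‖ - (l2 - q) / ‖l2 - q‖‖) : LocCut phi U1 U2 q := by
  obtain ⟨r1, hr1, hcv⟩ := Metric.eventually_nhds_iff_ball.1 hcov
  obtain ⟨r, hr0, hrr, hrr1⟩ : ∃ r : ℝ, 0 < r ∧ r ≤ rho ∧ r ≤ r1 :=
    ⟨min rho r1, lt_min hrho hr1, min_le_left _ _, min_le_right _ _⟩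
  have hne : ∀ {l : ℂ}, l ≠ q → l - q ≠ 0 := fun h => sub_ne_zero.2 h
  set A1 : Set ℂ := {z | ∃ l ∈ ball q r, l ≠ q ∧ l ∈ Sg phi ∧ l ∈ U1 ∧ lcU (l - q) = z} with hA1
  set A2 : Set ℂ := {z | ∃ l ∈ ball q r, l ≠ q ∧ l ∈ Sg phi ∧ l ∈ U2 ∧ lcU (l - q) = z} with hA2
  have sep : ∀ a1 ∈ A1, ∀ a2 ∈ A2, c ≤ dist a1 a2 := by
    rintro a1 ⟨l1, h1, n1, s1, u1, rfl⟩ a2 ⟨l2, h2, n2, s2, u2, rfl⟩
    have := hsep l1 (ball_subset_ball hrr h1) n1 s1 u1 l2 (ball_subset_ball hrr h2) n2 s2 u2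
    rw [dist_eq_norm, lcU_eq, lcU_eq]
    exact this
  have nA1 : ∀ a ∈ A1, ‖a‖ = 1 := by
    rintro a ⟨l, h1, n1, s1, u1, rfl⟩
    exact lcU_norm (hne n1)
  have hc3 : 0 < c / 3 := by positivity
  have hc43 : c / 4 < c / 3 := by linarith
  have hT1 : IsCompact (cthickening (c / 4) A1) := by
    refine Metric.isCompact_of_isClosed_isBounded isClosed_cthickening ?_
    refine (isBounded_closedBall (x := (0 : ℂ)) (r := 1 + c / 3)).subset ?_
    intro z hz
    obtain ⟨a, ha, hza⟩ := mem_thickening_iff.1 (cthickening_subset_thickening' hc3 hc43 A1 hz)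
    rw [mem_closedBall, dist_zero_right]
    have h1 := norm_le_norm_add_norm_sub' z a
    rw [nA1 a ha, ← dist_eq_norm] at h1
    linarith
  have hdisj : Disjoint (cthickening (c / 4) A1) (cthickening (c / 4) A2) := by
    rw [Set.disjoint_left]
    intro z hz1 hz2
    obtain ⟨a1, ha1, hza1⟩ := mem_thickening_iff.1 (cthickening_subset_thickening' hc3 hc43 A1 hz1)
    obtain ⟨a2, ha2, hza2⟩ := mem_thickening_iff.1 (cthickening_subset_thickening' hc3 hc43 A2 hz2)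
    have h1 := sep a1 ha1 a2 ha2
    have h2 := dist_triangle_left a1 a2 z
    linarith
  obtain ⟨F, Fsm, FI, F1, F0⟩ := lcx_smooth hT1 isClosed_cthickening hdisj
  set h : ℂ → ℂ := fun v => ((F (lcU v) : ℝ) : ℂ) with hh
  have hC : ∀ v : ℂ, v ≠ 0 → ContDiffAt ℝ 1 h v := by
    intro v hv
    have h1 : ContDiffAt ℝ 1 (fun v => F (lcU v)) v :=
      ContDiffAt.comp (f := lcU) v Fsm.contDiffAt (lcU_contDiffAt hv)
    exact ContDiffAt.comp (f := fun v => F (lcU v)) v Complex.ofRealCLM.contDiff.contDiffAt h1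
  have hhom : ∀ (v : ℂ) (t : ℝ), 0 < t → h (t • v) = h v := by
    intro v t ht
    simp only [hh]
    rw [lcU_smul v ht]
  obtain ⟨C, hC0, hgrad⟩ := lc_grad hC hhom
  have huc : ∀ l : ℂ, l ≠ q → Tendsto (fun l' : ℂ => lcU (l' - q)) (𝓝 l) (𝓝 (lcU (l - q))) := by
    intro l hl
    have h1 : ContinuousAt lcU (l - q) := (lcU_contDiffAt (hne hl)).continuousAt
    have h2 : Tendsto (fun l' : ℂ => l' - q) (𝓝 l) (𝓝 (l - q)) :=
      (continuous_id.sub continuous_const).tendsto l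
    exact h1.tendsto.comp h2
  have near : ∀ (e : ℝ) (l : ℂ), l ≠ q → (∀ᶠ z in 𝓝 (lcU (l - q)), F z = e) →
      ∀ᶠ l' in 𝓝 l, h (l' - q) = (e : ℂ) := by
    intro e l hl he
    filter_upwards [(huc l hl).eventually he] with l' hl'
    simp only [hh]
    rw [hl']
  refine ⟨fun l => h (l - q), r / 2, min 1 (c / 8), C, by positivity, lt_min one_pos (by positivity),
    ?_, ?_, ?_, ?_, ?_, ?_⟩
  · intro l hl
    have h1 : ContDiffAt ℝ 1 (fun x : ℂ => x - q) l := (contDiff_id.sub contDiff_const).contDiffAt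
    exact (ContDiffAt.comp (f := fun x : ℂ => x - q) l (hC _ (hne hl)) h1).contDiffWithinAt
  · intro l
    exact ⟨F (lcU (l - q)), (FI _).1, (FI _).2, rfl⟩
  · intro l hl
    rw [lc_dbar_sub]
    exact hgrad _ (hne hl)
  · intro l hl hlq hd
    have key : ∀ a ∈ A1 ∪ A2, c / 4 ≤ dist (lcU (l - q)) a := by
      intro a ha
      by_contra hlt
      rw [not_le] at hlt
      have hth : ∀ A : Set ℂ, a ∈ A → lcU (l - q) ∈ cthickening (c / 4) A := fun A haA =>
        thickening_subset_cthickening _ _ (mem_thickening_iff.2 ⟨a, haA, hlt⟩)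
      have fin : ∀ e : ℝ, (e = 0 ∨ e = 1) → (∀ᶠ z in 𝓝 (lcU (l - q)), F z = e) → False := by
        intro e he hz
        have g := near e l hlq hz
        rcases hd with hd | hd
        · apply hd
          rw [Pool.Lib.dbar_congr (g : (fun l => h (l - q)) =ᶠ[𝓝 l] fun _ => (e : ℂ))]
          exact Pool.Lib.dbar_eq_zero (differentiableAt_const _)
        · have g1 := g.self_of_nhds
          rcases he with he | he
          · exact hd.1 (by show h (l - q) = 0; rw [g1, he]; simp)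
          · exact hd.2 (by show h (l - q) = 1; rw [g1, he]; simp)
      rcases ha with ha | ha
      · exact fin 1 (Or.inr rfl) (F1 _ (hth A1 ha))
      · exact fin 0 (Or.inl rfl) (F0 _ (hth A2 ha))
    have hlr : ‖l - q‖ < r / 2 := by
      rw [← dist_eq_norm]
      exact mem_ball.1 hl
    have hl0 := norm_nonneg (l - q)
    have hmin1 : min 1 (c / 8) * ‖l - q‖ ≤ ‖l - q‖ := by
      have := mul_le_mul_of_nonneg_right (min_le_left 1 (c / 8)) hl0
      linarith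
    intro l' hl'
    by_cases hq : l' = q
    · rw [hq, norm_sub_rev q l]
      exact hmin1
    · by_cases hb : l' ∈ ball q r
      · have hUU := hcv l' (ball_subset_ball hrr1 hb) hl' hq
        have hmem : lcU (l' - q) ∈ A1 ∪ A2 := by
          rcases hUU with hU | hU
          · exact Or.inl ⟨l', hb, hq, hl', hU, rfl⟩
          · exact Or.inr ⟨l', hb, hq, hl', hU, rfl⟩
        have h1 := key _ hmem
        have h2 := lcU_sub_le (hne hlq) (hne hq)
        rw [← dist_eq_norm (lcU (l - q)), sub_sub_sub_cancel_right, norm_sub_rev l l'] at h2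
        have h3 : c / 4 * ‖l - q‖ ≤ dist (lcU (l - q)) (lcU (l' - q)) * ‖l - q‖ :=
          mul_le_mul_of_nonneg_right h1 hl0
        have h4 : min 1 (c / 8) * ‖l - q‖ ≤ c / 8 * ‖l - q‖ :=
          mul_le_mul_of_nonneg_right (min_le_right 1 (c / 8)) hl0
        linarith
      · rw [mem_ball, not_lt, dist_eq_norm] at hb
        have h1 : ‖l' - q‖ ≤ ‖l' - l‖ + ‖l - q‖ := by
          have := norm_add_le (l' - l) (l - q)
          rwa [sub_add_sub_cancel] at this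
        linarith
  · intro l hl hlq hS hU
    have hm : lcU (l - q) ∈ A1 := ⟨l, ball_subset_ball (by linarith) hl, hlq, hS, hU, rfl⟩
    have := near 1 l hlq (F1 _ (self_subset_cthickening A1 hm))
    simpa using this
  · intro l hl hlq hS hU
    have hm : lcU (l - q) ∈ A2 := ⟨l, ball_subset_ball (by linarith) hl, hlq, hS, hU, rfl⟩
    have := near 0 l hlq (F0 _ (self_subset_cthickening A2 hm))
    simpa using this

end Pool.Agent.TBirM
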