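import Pool.Agent.TBirM.Inp
import Pool.Agent.TBir.PBd

/-!
# Uniform boundedness of the truncated functional calculus

As Pool/Agent/TBirS/PBd.lean, with the local input `Inp` in place of the bound near the exceptional points.
-/

set_option autoImplicit false

open MeasureTheory Complex Set Filter Topology Metric AddCircle
open scoped ComplexConjugate InnerProductSpace ENNReal
open Pool.Lib (dbar)

namespace Pool.Agent.TBirM

open Pool.Agent.TBir
open Pool.Agent.TBirS (Sg isCompact_Sg isOpen_compl_Sg off_Sg PBd_rT PBd_rS)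

private theorem PBd_cont {phi : ℂ → ℂ} {A : Type*} [NormedRing A] [NormedAlgebra ℂ A]
    [CompleteSpace A] {a : A} (h : ∀ l, l ∉ Sg phi → l ∈ resolventSet ℂ a)
    {U1 U2 : Set ℂ} (K : CutM phi U1 U2) (n : ℕ) : Continuous (fun l => K.w n l • resolvent a l) := by
  rw [continuous_iff_continuousAt]
  intro l
  by_cases hl : l ∈ Sg phi
  · have h1 : (fun l => K.w n l • resolvent a l) =ᶠ[𝓝 l] fun _ => 0 := by
      filter_upwards [K.w_zero_near n hl] with l' hl'
      rw [hl', zero_smul]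
    exact continuousAt_const.congr h1.symm
  · have h1 := spectrum.hasDerivAt_resolvent_const_left (h l hl)
    exact (K.continuous_w n).continuousAt.smul h1.continuousAt

private theorem PBd_int {phi : ℂ → ℂ} {A : Type*} [NormedRing A] [NormedAlgebra ℂ A]
    [CompleteSpace A] {a : A} (h : ∀ l, l ∉ Sg phi → l ∈ resolventSet ℂ a)
    {U1 U2 : Set ℂ} (K : CutM phi U1 U2) (n : ℕ) : Integrable (fun l => K.w n l • resolvent a l) :=
  (PBd_cont h K n).integrable_of_hasCompactSupport (K.hasCompactSupport_w n).smul_right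

/-- The integrand of `K.P`. -/
theorem CutM.continuous_res {phi : ℂ → ℂ} (hphi : AnalyticOnNhd ℂ phi (sphere 0 1)) {Phi : CT}
    (hPhi : ∀ x, Phi x = phi (e x)) {U1 U2 : Set ℂ} (K : CutM phi U1 U2) (n : ℕ) :
    Continuous (fun l => K.w n l • resolvent (T Phi) l) := by
  exact PBd_cont (PBd_rT hphi hPhi) K n

theorem CutM.integrable_res {phi : ℂ → ℂ} (hphi : AnalyticOnNhd ℂ phi (sphere 0 1)) {Phi : CT}
    (hPhi : ∀ x, Phi x = phi (e x)) {U1 U2 : Set ℂ} (K : CutM phi U1 U2) (n : ℕ) :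
    Integrable (fun l => K.w n l • resolvent (T Phi) l) := by
  exact PBd_int (PBd_rT hphi hPhi) K n

private theorem PBd_E {phi : ℂ → ℂ} (hphi : AnalyticOnNhd ℂ phi (sphere 0 1)) {Phi : CT}
    (hPhi : ∀ x, Phi x = phi (e x)) {U1 U2 : Set ℂ} (K : CutM phi U1 U2) (n : ℕ) :
    Integrable (fun l => K.w n l • (resolvent (T Phi) l - T (resolvent Phi l))) := by
  obtain ⟨TL, hTL⟩ := exists_TL
  have h1 := K.integrable_res hphi hPhi n
  have h2 := TL.integrable_comp (PBd_int (PBd_rS hphi hPhi) K n)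
  refine (h1.sub h2).congr (Eventually.of_forall fun l => ?_)
  simp only [Pi.sub_apply, hTL, T_smul, smul_sub]

private theorem PBd_dec {phi : ℂ → ℂ} (hphi : AnalyticOnNhd ℂ phi (sphere 0 1)) {Phi : CT}
    (hPhi : ∀ x, Phi x = phi (e x)) {U1 U2 : Set ℂ} (K : CutM phi U1 U2) (n : ℕ) :
    K.P Phi n = T (-(Real.pi : ℂ)⁻¹ • ∫ l : ℂ, K.w n l • resolvent Phi l) +
      -(Real.pi : ℂ)⁻¹ • ∫ l : ℂ, K.w n l • (resolvent (T Phi) l - T (resolvent Phi l)) := by
  obtain ⟨TL, hTL⟩ := exists_TL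
  have h1 := K.integrable_res hphi hPhi n
  have h2 := TL.integrable_comp (PBd_int (PBd_rS hphi hPhi) K n)
  have h3 : T (∫ l : ℂ, K.w n l • resolvent Phi l) = ∫ l : ℂ, K.w n l • T (resolvent Phi l) := by
    rw [← hTL, ← TL.integral_comp_comm (PBd_int (PBd_rS hphi hPhi) K n)]
    refine integral_congr_ae (Eventually.of_forall fun l => ?_)
    simp only [hTL, T_smul]
  have h4 : ∫ l : ℂ, K.w n l • (resolvent (T Phi) l - T (resolvent Phi l)) =
      (∫ l : ℂ, K.w n l • resolvent (T Phi) l) - ∫ l : ℂ, K.w n l • T (resolvent Phi l) := by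
    rw [← integral_sub h1]
    · refine integral_congr_ae (Eventually.of_forall fun l => ?_)
      exact smul_sub _ _ _
    · refine h2.congr (Eventually.of_forall fun l => ?_)
      simp only [hTL, T_smul]
  rw [T_smul, h3, h4, smul_sub]
  change -(Real.pi : ℂ)⁻¹ • ∫ l : ℂ, K.w n l • resolvent (T Phi) l = _
  abel

private theorem PBd_s {phi : ℂ → ℂ} (hphi : AnalyticOnNhd ℂ phi (sphere 0 1)) {Phi : CT}
    (hPhi : ∀ x, Phi x = phi (e x)) {U1 U2 : Set ℂ} (K : CutM phi U1 U2) (n : ℕ) (x : UnitAddCircle) :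
    (-(Real.pi : ℂ)⁻¹ • ∫ l : ℂ, K.w n l • resolvent Phi l) x = K.s n (Phi x) := by
  rw [ContinuousMap.smul_apply]
  have h1 : (∫ l : ℂ, K.w n l • resolvent Phi l) x = ∫ l : ℂ, (K.w n l • resolvent Phi l) x :=
    ((ContinuousMap.evalCLM ℂ x).integral_comp_comm (PBd_int (PBd_rS hphi hPhi) K n)).symm
  rw [h1, smul_eq_mul]
  unfold CutM.s
  congr 1
  refine integral_congr_ae (Eventually.of_forall fun l => ?_)
  change (K.w n l • resolvent Phi l) x = K.w n l / (l - Phi x)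
  by_cases hw : K.w n l = 0
  · rw [ContinuousMap.smul_apply, hw, zero_smul, zero_div]
  · have hl : l ∉ Sg phi := fun h => hw (K.w_zero_near n h).self_of_nhds
    have hr := PBd_rS hphi hPhi l hl
    have hu : IsUnit (algebraMap ℂ CT l - Phi) := hr
    have h2 : resolvent Phi l * (algebraMap ℂ CT l - Phi) = 1 := Ring.inverse_mul_cancel _ hu
    have h3 := congrArg (fun f : CT => f x) h2
    simp only [ContinuousMap.mul_apply, ContinuousMap.sub_apply, ContinuousMap.one_apply] at h3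
    have h4 : (algebraMap ℂ CT l) x = l := rfl
    rw [h4] at h3
    rw [ContinuousMap.smul_apply, smul_eq_mul, eq_inv_of_mul_eq_one_left h3, div_eq_mul_inv]

private theorem PBd_loc2 {phi : ℂ → ℂ} {Phi : CT} {U1 U2 : Set ℂ} (K : CutM phi U1 U2)
    {q : ℂ} (hq : q ∈ K.Q) (hI : Inp phi Phi q) : ∃ C s : ℝ, 0 ≤ C ∧ 0 < s ∧ ∀ n, ∀ f g : Hardy,
      ∫⁻ l in ball q s, ‖K.w n l * inner ℂ g ((resolvent (T Phi) l - T (resolvent Phi l)) f)‖ₑ ≤
        ENNReal.ofReal (C * ‖f‖ * ‖g‖) := by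
  obtain ⟨C1, c1, s1, hC1, hc, hs1, h1⟩ := hI K.c K.c_pos
  obtain ⟨C3, hC3, h3⟩ := pl_int hc
  have hs : 0 < min s1 (min K.rho (1 / c1)) :=
    lt_min hs1 (lt_min K.rho_pos (by positivity))
  have hl1 : min s1 (min K.rho (1 / c1)) ≤ s1 := min_le_left _ _
  have hl3 : min s1 (min K.rho (1 / c1)) ≤ K.rho :=
    (min_le_right _ _).trans (min_le_left _ _)
  have hl4 : min s1 (min K.rho (1 / c1)) ≤ 1 / c1 :=
    (min_le_right _ _).trans (min_le_right _ _)
  generalize min s1 (min K.rho (1 / c1)) = s at *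
  have hcs : c1 * s ≤ 1 := by
    rw [le_div_iff₀ hc] at hl4
    linarith
  refine ⟨|K.C| * C1 * C3, s, by positivity, hs, fun n f g => ?_⟩
  have hpt : ∀ l ∈ ball q s,
      ‖K.w n l * inner ℂ g ((resolvent (T Phi) l - T (resolvent Phi l)) f)‖ₑ ≤
      ENNReal.ofReal (|K.C| * C1) * ENNReal.ofReal ((FF f (1 - c1 * ‖l - q‖) + ‖f‖) *
        (FF g (1 - c1 * ‖l - q‖) + ‖g‖) / ‖l - q‖) := by
    intro l hl
    by_cases hw : K.w n l = 0
    · rw [hw, zero_mul, enorm_zero]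
      exact bot_le
    have hlq : l ≠ q := by
      rintro rfl
      apply hw
      unfold CutM.w
      rw [kap_eq_zero hq, zero_mul]
      rw [sub_self, norm_zero]
      positivity
    have hdb : dbar K.chi l ≠ 0 := fun h => hw (by unfold CutM.w; rw [h, mul_zero])
    have ht : 0 < ‖l - q‖ := norm_pos_iff.2 (sub_ne_zero.2 hlq)
    have hlt : ‖l - q‖ < s := by rwa [mem_ball, dist_eq_norm] at hl
    have hlρ : l ∈ ball q K.rho := ball_subset_ball hl3 hl
    obtain ⟨hct, hfg⟩ := h1 l (ball_subset_ball hl1 hl) hlq (K.loc q hq l hlρ hlq (Or.inl hdb))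
    have hct1 : 0 < c1 * ‖l - q‖ := mul_pos hc ht
    have hF : ∀ u : Hardy, 0 ≤ FF u (1 - c1 * ‖l - q‖) := fun u => FF_nonneg u (by linarith)
    have hFf := hF f
    have hFg := hF g
    have hE := hfg f g
    have hW : ‖K.w n l‖ ≤ |K.C| / ‖l - q‖ := by
      unfold CutM.w
      rw [norm_mul]
      have e1 := norm_kap_le K.Q n l
      have e2 := K.grad q hq l hlρ hlq
      have e3 : K.C / ‖l - q‖ ≤ |K.C| / ‖l - q‖ := div_le_div_of_nonneg_right (le_abs_self _) ht.le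
      calc ‖kap K.Q n l‖ * ‖dbar K.chi l‖ ≤ 1 * ‖dbar K.chi l‖ :=
            mul_le_mul_of_nonneg_right e1 (norm_nonneg _)
        _ ≤ |K.C| / ‖l - q‖ := by linarith
    rw [← ENNReal.ofReal_mul (by positivity), ← ofReal_norm]
    refine ENNReal.ofReal_le_ofReal ?_
    rw [norm_mul]
    calc ‖K.w n l‖ * ‖inner ℂ g ((resolvent (T Phi) l - T (resolvent Phi l)) f)‖ ≤
        |K.C| / ‖l - q‖ * (C1 *
        ((FF f (1 - c1 * ‖l - q‖) + ‖f‖) * (FF g (1 - c1 * ‖l - q‖) + ‖g‖))) :=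
          mul_le_mul hW hE (norm_nonneg _) (by positivity)
      _ = _ := by ring
  calc ∫⁻ l in ball q s, ‖K.w n l * inner ℂ g ((resolvent (T Phi) l - T (resolvent Phi l)) f)‖ₑ
      ≤ ∫⁻ l in ball q s, ENNReal.ofReal (|K.C| * C1) *
        ENNReal.ofReal ((FF f (1 - c1 * ‖l - q‖) + ‖f‖) *
        (FF g (1 - c1 * ‖l - q‖) + ‖g‖) / ‖l - q‖) := setLIntegral_mono' measurableSet_ball hpt
    _ = ENNReal.ofReal (|K.C| * C1) * ∫⁻ l in ball q s,
        ENNReal.ofReal ((FF f (1 - c1 * ‖l - q‖) + ‖f‖) *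
        (FF g (1 - c1 * ‖l - q‖) + ‖g‖) / ‖l - q‖) :=
          lintegral_const_mul' _ _ ENNReal.ofReal_ne_top
    _ ≤ ENNReal.ofReal (|K.C| * C1) * ENNReal.ofReal (C3 * ‖f‖ * ‖g‖) := by
          gcongr
          exact h3 q s hs hcs f g
    _ = ENNReal.ofReal (|K.C| * C1 * C3 * ‖f‖ * ‖g‖) := by
          rw [← ENNReal.ofReal_mul (by positivity)]
          congr 1
          ring

private theorem PBd_R {phi : ℂ → ℂ} (hphi : AnalyticOnNhd ℂ phi (sphere 0 1)) {Phi : CT}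
    (hPhi : ∀ x, Phi x = phi (e x)) {U1 U2 : Set ℂ} (K : CutM phi U1 U2)
    (hIn : ∀ q ∈ K.Q, Inp phi Phi q) : ∃ C : ℝ, 0 ≤ C ∧ ∀ n, ∀ f g : Hardy,
      ‖inner ℂ g ((∫ l : ℂ, K.w n l • (resolvent (T Phi) l - T (resolvent Phi l))) f)‖ ≤
        C * ‖f‖ * ‖g‖ := by
  have hloc := fun q (hq : q ∈ K.Q) => PBd_loc2 K hq (hIn q hq)
  choose! C s hC hs hI using hloc
  obtain ⟨n0, hn0⟩ : ∃ n0 : ℕ, ∀ q ∈ K.Q, 2 / ((n0 : ℝ) + 1) ≤ s q := by
    have h1 : ∀ q, ∃ N : ℕ, 2 / s q ≤ N := fun q => exists_nat_ge _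
    choose N hN using h1
    refine ⟨K.Q.sup N, fun q hq => ?_⟩
    have h2 := hN q
    have h3 : (N q : ℝ) ≤ (K.Q.sup N : ℕ) := by exact_mod_cast Finset.le_sup hq
    have h4 := hs q hq
    rw [div_le_iff₀ (by positivity)]
    rw [div_le_iff₀ h4] at h2
    nlinarith
  have hB := (PBd_E hphi hPhi K n0).norm
  obtain ⟨E, hE⟩ : ∃ E : ℂ → (Hardy →L[ℂ] Hardy),
      ∀ l, resolvent (T Phi) l - T (resolvent Phi l) = E l := ⟨_, fun _ => rfl⟩
  have hEI := PBd_E hphi hPhi K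
  simp only [hE] at hI hB hEI ⊢
  have hS0 : MeasurableSet (⋃ q : K.Q, ball (q : ℂ) (s q)) :=
    (isOpen_iUnion fun _ => isOpen_ball).measurableSet
  have hB0 : 0 ≤ ∫ l, ‖K.w n0 l • E l‖ := integral_nonneg fun _ => norm_nonneg _
  have hCs : 0 ≤ ∑ q : K.Q, C q := Finset.sum_nonneg fun q _ => hC q q.2
  refine ⟨∑ q : K.Q, C q + ∫ l, ‖K.w n0 l • E l‖, by positivity, fun n f g => ?_⟩
  have h1 : inner ℂ g ((∫ l : ℂ, K.w n l • E l) f) = ∫ l : ℂ, K.w n l * inner ℂ g (E l f) := by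
    have h2 := ((innerSL ℂ g).comp (ContinuousLinearMap.apply ℂ Hardy f)).integral_comp_comm (hEI n)
    have h3 : ((innerSL ℂ g).comp (ContinuousLinearMap.apply ℂ Hardy f)) (∫ l : ℂ, K.w n l • E l) =
        inner ℂ g ((∫ l : ℂ, K.w n l • E l) f) := rfl
    rw [← h3, ← h2]
    refine integral_congr_ae (Eventually.of_forall fun l => ?_)
    change inner ℂ g ((K.w n l • E l) f) = K.w n l * inner ℂ g (E l f)
    rw [ContinuousLinearMap.smul_apply, inner_smul_right]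
  rw [h1]
  have h2 : ‖∫ l : ℂ, K.w n l * inner ℂ g (E l f)‖ₑ ≤
      ENNReal.ofReal ((∑ q : K.Q, C q + ∫ l, ‖K.w n0 l • E l‖) * ‖f‖ * ‖g‖) := by
    refine (enorm_integral_le_lintegral_enorm _).trans ?_
    rw [← lintegral_add_compl _ hS0]
    have h3 : ∫⁻ l in ⋃ q : K.Q, ball (q : ℂ) (s q), ‖K.w n l * inner ℂ g (E l f)‖ₑ ≤
        ENNReal.ofReal ((∑ q : K.Q, C q) * ‖f‖ * ‖g‖) := by
      refine (lintegral_iUnion_le _ _).trans ?_
      rw [tsum_fintype, Finset.sum_mul, Finset.sum_mul,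
        ENNReal.ofReal_sum_of_nonneg (fun q _ => by have := hC q q.2; positivity)]
      exact Finset.sum_le_sum fun q _ => hI q q.2 n f g
    have h4 : ∫⁻ l in (⋃ q : K.Q, ball (q : ℂ) (s q))ᶜ, ‖K.w n l * inner ℂ g (E l f)‖ₑ ≤
        ENNReal.ofReal ((∫ l, ‖K.w n0 l • E l‖) * ‖f‖ * ‖g‖) := by
      have h5 : ∀ l ∈ (⋃ q : K.Q, ball (q : ℂ) (s q))ᶜ, ‖K.w n l * inner ℂ g (E l f)‖ₑ ≤
          ENNReal.ofReal (‖K.w n0 l • E l‖ * (‖f‖ * ‖g‖)) := by
        intro l hl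
        have hl' : ∀ q ∈ K.Q, s q ≤ ‖l - q‖ := by
          intro q hq
          by_contra hcon
          apply hl
          rw [mem_iUnion]
          refine ⟨⟨q, hq⟩, ?_⟩
          rw [mem_ball, dist_eq_norm]
          exact not_le.1 hcon
        have hk : kap K.Q n0 l = 1 := kap_eq_one fun q hq => (hn0 q hq).trans (hl' q hq)
        rw [← ofReal_norm]
        refine ENNReal.ofReal_le_ofReal ?_
        rw [norm_mul, norm_smul]
        unfold CutM.w
        rw [hk, one_mul, norm_mul]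
        have e1 := norm_kap_le K.Q n l
        have e2 : ‖inner ℂ g (E l f)‖ ≤ ‖g‖ * (‖E l‖ * ‖f‖) :=
          (norm_inner_le_norm g (E l f)).trans
            (mul_le_mul_of_nonneg_left ((E l).le_opNorm f) (norm_nonneg g))
        calc ‖kap K.Q n l‖ * ‖dbar K.chi l‖ * ‖inner ℂ g (E l f)‖ ≤
            1 * ‖dbar K.chi l‖ * (‖g‖ * (‖E l‖ * ‖f‖)) :=
              mul_le_mul (mul_le_mul_of_nonneg_right e1 (norm_nonneg _)) e2 (norm_nonneg _)
                (by positivity)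
          _ = ‖dbar K.chi l‖ * ‖E l‖ * (‖f‖ * ‖g‖) := by ring
      refine (setLIntegral_mono' hS0.compl h5).trans ?_
      refine (setLIntegral_le_lintegral _ _).trans ?_
      rw [← ofReal_integral_eq_lintegral_ofReal (hB.mul_const _)
        (Eventually.of_forall fun l => by positivity), integral_mul_const]
      exact (congrArg ENNReal.ofReal (by ring)).le
    refine (add_le_add h3 h4).trans ?_
    rw [← ENNReal.ofReal_add (by positivity) (by positivity)]
    exact (congrArg ENNReal.ofReal (by ring)).le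
  rw [← ofReal_norm] at h2
  exact (ENNReal.ofReal_le_ofReal_iff (by positivity)).1 h2

theorem CutM.norm_P_le {phi : ℂ → ℂ} (hphi : AnalyticOnNhd ℂ phi (sphere 0 1)) {Phi : CT}
    (hPhi : ∀ x, Phi x = phi (e x)) {U1 U2 : Set ℂ} (K : CutM phi U1 U2)
    (hI : ∀ q ∈ K.Q, Inp phi Phi q) : ∃ C : ℝ, ∀ n, ‖K.P Phi n‖ ≤ C := by
  obtain ⟨C1, h1⟩ := K.norm_s_le
  obtain ⟨C2, hC2, h2⟩ := PBd_R hphi hPhi K hI
  refine ⟨max C1 0 + Real.pi⁻¹ * C2, fun n => ?_⟩
  rw [PBd_dec hphi hPhi K n]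
  refine (norm_add_le _ _).trans (add_le_add ?_ ?_)
  · refine (norm_T_le _).trans ?_
    rw [ContinuousMap.norm_le _ (le_max_right _ _)]
    intro x
    rw [PBd_s hphi hPhi K n x]
    exact (h1 n _).trans (le_max_left _ _)
  · rw [norm_smul, norm_neg, norm_inv, Complex.norm_real, Real.norm_of_nonneg Real.pi_pos.le]
    refine mul_le_mul_of_nonneg_left ?_ (inv_nonneg.2 Real.pi_pos.le)
    refine ContinuousLinearMap.opNorm_le_bound _ hC2 fun f => ?_
    have h3 := h2 n f ((∫ l : ℂ, K.w n l • (resolvent (T Phi) l - T (resolvent Phi l))) f)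
    generalize (∫ l : ℂ, K.w n l • (resolvent (T Phi) l - T (resolvent Phi l))) f = y at h3 ⊢
    rw [inner_self_eq_norm_sq_to_K] at h3
    have h4 : ‖((‖y‖ : ℂ)) ^ 2‖ = ‖y‖ ^ 2 := by
      rw [norm_pow, Complex.norm_real, norm_norm]
    have h5 : ‖y‖ ^ 2 ≤ C2 * ‖f‖ * ‖y‖ := by
      rw [← h4]
      exact h3
    rcases (norm_nonneg y).eq_or_lt with h6 | h6
    · rw [← h6]
      positivity
    · rw [sq] at h5
      exact le_of_mul_le_mul_right h5 h6

end Pool.Agent.TBirM
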