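import Pool.Agent.TBirM.Sep
import Pool.Agent.TBirR.Grow

/-!
# The branches of the inverse of the symbol near a value without critical preimages

Paper proof. Take `rho, d, m, M, c0, x, k` and the zeros `zq : Fin k → ℂ` for `l = q` from `exists_fz_sep`
(TBirM/Sep); `‖zq j‖ = 1`, `phi (zq j) = q`, `deriv phi (zq j) ≠ 0` (`hq`), the `zq j` are pairwise different (`c0`).
The inverse function theorem gives for every `j` a radius and a function `g j`, differentiable near `q`, with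
`g j q = zq j`, `phi (g j l) = l` (`HasStrictDerivAt.localInverse`, `loc_inv` of TBir/LocInv, or
`HasStrictDerivAt.toOpenPartialHomeomorph`); take `R > 0` smaller than all radii, than `rho`, so small that
`g j l ∈ ann d` and `‖g j l - zq j‖ < ‖zq i - zq j‖ / 2` for `i ≠ j`, so `g i l ≠ g j l`. For `l ∈ ball q R` let `z : Fin k → ℂ`
be the zeros of `exists_fz_sep`. By the factorisation every `g j l` is one of the `z i`; both families are
injective with `k` elements, so there is a permutation `s` with `g j l = z (s j)`. So: if `w ∈ ann d`, `phi w = l`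
then `w` is some `g j l`; in particular for `‖w‖ = 1`. If `l ∉ J phi` then `wd_of_fac` (TBirR/Grow) gives the last
clause, since the number of `j` with `‖g j l‖ < 1` is the number of `i` with `‖z i‖ < 1` (`Finset.card_bij` or
`Finset.card_equiv`).
-/

set_option autoImplicit false

open MeasureTheory Complex Set Filter Topology Metric AddCircle
open scoped ComplexConjugate InnerProductSpace ENNReal

namespace Pool.Agent.TBirM

open Pool.Agent.TBir Pool.Agent.TBirG

theorem exists_branches {phi : ℂ → ℂ} (hana : AnalyticOnNhd ℂ phi (sphere 0 1)) (hNC : NC phi)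
    {q : ℂ} (hq : ∀ z ∈ sphere (0 : ℂ) 1, phi z = q → deriv phi z ≠ 0) :
    ∃ (R : ℝ) (k : ℕ) (x : ℤ) (g : Fin k → ℂ → ℂ), 0 < R ∧
      (∀ j, DifferentiableOn ℂ (g j) (ball q R)) ∧ (∀ j, ‖g j q‖ = 1) ∧
      (∀ i j, i ≠ j → g i q ≠ g j q) ∧ (∀ j, ∀ l ∈ ball q R, phi (g j l) = l) ∧
      (∀ z ∈ sphere (0 : ℂ) 1, phi z ∈ ball q R → ∃ j, z = g j (phi z)) ∧
      ∀ l ∈ ball q R, l ∉ J phi →
        wd phi l = ((x + ((Finset.univ.filter fun j => ‖g j l‖ < 1).card : ℤ) : ℤ) : ℂ) := by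
  obtain ⟨rho, d, m, M, c0, x, k, hrho, hd, hd1, hm, hc0, H⟩ := exists_fz_sep hana hNC hq
  obtain ⟨zq, psiq, -, -, -, hq3, hq4, -, hq6⟩ := H q (mem_ball_self hrho)
  have hs0 : 0 < min (c0 / 2) d := lt_min (half_pos hc0) hd
  have hloc : ∀ j, ∃ r : ℝ, ∃ z : ℂ → ℂ, 0 < r ∧ DifferentiableOn ℂ z (ball q r) ∧ z q = zq j ∧
      ∀ l ∈ ball q r, z l ∈ ball (zq j) (min (c0 / 2) d) ∧ phi (z l) = l := by
    intro j
    have hz : zq j ∈ sphere (0 : ℂ) 1 := by
      rw [mem_sphere_zero_iff_norm]; exact hq4 rfl j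
    obtain ⟨s, r, z, hs, hss, hr, -, h2, h3, -, h4, -⟩ :=
      loc_inv (hana _ hz) (hq _ hz (hq3 j).2) hs0
    rw [(hq3 j).2] at h2 h3 h4
    exact ⟨r, z, hr, h2, h3, fun l hl => ⟨ball_subset_ball hss (h4 l hl).1, (h4 l hl).2⟩⟩
  choose r g hr hg1 hg2 hg3 using hloc
  obtain ⟨r0, hr0, hr0'⟩ : ∃ r0 : ℝ, 0 < r0 ∧ ∀ j, r0 ≤ r j := by
    rcases isEmpty_or_nonempty (Fin k) with he | he
    · exact ⟨1, one_pos, fun j => he.elim j⟩
    · obtain ⟨j0, hj0⟩ := Finite.exists_min r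
      exact ⟨r j0, hr j0, hj0⟩
  have hsub : ∀ j, ball q (min rho r0) ⊆ ball q (r j) := fun j =>
    ball_subset_ball ((min_le_right _ _).trans (hr0' j))
  have hann : ∀ j, ∀ l ∈ ball q (min rho r0), g j l ∈ ann d := by
    intro j l hl
    have h1 := (hg3 j l (hsub j hl)).1
    rw [mem_ball, dist_eq_norm] at h1
    have h2 : ‖zq j‖ = 1 := hq4 rfl j
    have h3 : |‖g j l‖ - ‖zq j‖| ≤ ‖g j l - zq j‖ := abs_norm_sub_norm_le _ _
    have h4 : ‖g j l - zq j‖ < d := lt_of_lt_of_le h1 (min_le_right _ _)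
    rw [h2] at h3
    have h5 := abs_lt.1 (lt_of_le_of_lt h3 h4)
    exact ⟨by linarith [h5.1], by linarith [h5.2]⟩
  have hinj : ∀ l ∈ ball q (min rho r0), ∀ i j, g i l = g j l → i = j := by
    intro l hl i j hij
    by_contra hne
    have h1 := (hg3 i l (hsub i hl)).1
    have h2 := (hg3 j l (hsub j hl)).1
    rw [mem_ball, dist_eq_norm] at h1 h2
    rw [hij] at h1
    have h3 := hq6 i j hne
    have h4 : ‖zq i - zq j‖ ≤ ‖g j l - zq j‖ + ‖g j l - zq i‖ := by
      have := norm_sub_le (g j l - zq j) (g j l - zq i)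
      rwa [sub_sub_sub_cancel_left] at this
    have h5 := lt_of_lt_of_le h1 (min_le_left _ _)
    have h6 := lt_of_lt_of_le h2 (min_le_left _ _)
    linarith
  have key : ∀ l ∈ ball q (min rho r0), ∃ (z : Fin k → ℂ) (psi : ℂ → ℂ) (s : Fin k → Fin k),
      DifferentiableOn ℂ psi (ann d) ∧ (∀ w ∈ ann d, psi w ≠ 0) ∧ wind psi = x ∧
      (∀ i, z i ∈ ann d ∧ phi (z i) = l) ∧ (∀ w ∈ ann d, phi w - l = psi w * ∏ i, (w - z i)) ∧
      Function.Bijective s ∧ ∀ j, g j l = z (s j) := by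
    intro l hl
    obtain ⟨z, psi, h1, h2, h3, h4, -, h5, -⟩ := H l (ball_subset_ball (min_le_left _ _) hl)
    have hpsi0 : ∀ w ∈ ann d, psi w ≠ 0 := fun w hw =>
      norm_pos_iff.1 (lt_of_lt_of_le hm (h2 w hw).1)
    have hex : ∀ j, ∃ i, g j l = z i := by
      intro j
      have h6 := h5 (g j l) (hann j l hl)
      rw [(hg3 j l (hsub j hl)).2, sub_self] at h6
      rcases mul_eq_zero.1 h6.symm with h7 | h7
      · exact absurd h7 (hpsi0 _ (hann j l hl))
      · obtain ⟨i, -, hi⟩ := Finset.prod_eq_zero_iff.1 h7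
        exact ⟨i, sub_eq_zero.1 hi⟩
    choose s hs using hex
    refine ⟨z, psi, s, h1, hpsi0, h3, h4, h5, ?_, hs⟩
    refine Finite.injective_iff_bijective.1 fun i j hij => hinj l hl i j ?_
    rw [hs i, hs j, hij]
  refine ⟨min rho r0, k, x, g, lt_min hrho hr0, fun j => (hg1 j).mono (hsub j), fun j => ?_,
    fun i j hij h => ?_, fun j l hl => (hg3 j l (hsub j hl)).2, ?_, ?_⟩
  · rw [hg2 j]
    exact hq4 rfl j
  · exact hij (hinj q (mem_ball_self (lt_min hrho hr0)) i j h)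
  · intro w hw hl
    obtain ⟨z, psi, s, h1, h2, h3, h4, h5, h6, h7⟩ := key (phi w) hl
    have hwa : w ∈ ann d := mem_sphere_ann hd hw
    have h8 := h5 w hwa
    rw [sub_self] at h8
    rcases mul_eq_zero.1 h8.symm with h9 | h9
    · exact absurd h9 (h2 w hwa)
    · obtain ⟨i, -, hi⟩ := Finset.prod_eq_zero_iff.1 h9
      obtain ⟨j, hj⟩ := h6.2 i
      exact ⟨j, by rw [h7 j, hj]; exact sub_eq_zero.1 hi⟩
  · intro l hl hlJ
    obtain ⟨z, psi, s, h1, h2, h3, h4, h5, h6, h7⟩ := key l hl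
    rw [Pool.Agent.TBirR.wd_of_fac hd hlJ h1 h2 h3 h4 h5]
    have h8 : (Finset.univ.filter fun j => ‖g j l‖ < 1).card =
        (Finset.univ.filter fun i => ‖z i‖ < 1).card := by
      refine Finset.card_equiv (Equiv.ofBijective s h6) fun j => ?_
      simp [h7 j]
    rw [h8]

end Pool.Agent.TBirM
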