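import Pool.Agent.TBirM.ResN

/-!
# Dominated convergence for the truncated weights
-/

set_option autoImplicit false

open MeasureTheory Complex Set Filter Topology Metric AddCircle
open scoped ComplexConjugate InnerProductSpace ENNReal
open Pool.Lib (dbar)

namespace Pool.Agent.TBirM

open Pool.Agent.TBir
open Pool.Agent.TBirS (Sg isCompact_Sg isOpen_compl_Sg off_Sg PBd_rT PBd_rS Nq comm_aeval res_mul_sq
  norm_le_of_inner FF_le resolvent_apply)

theorem kap_tendsto {Q : Finset ℂ} {l : ℂ} (hl : l ∉ Q) : ∀ᶠ n : ℕ in atTop, kap Q n l = 1 := by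
  have h : ∀ q ∈ Q, ∀ᶠ n : ℕ in atTop, 2 / ((n : ℝ) + 1) ≤ ‖l - q‖ := by
    intro q hq
    have hpos : 0 < ‖l - q‖ := norm_pos_iff.2 (sub_ne_zero.2 fun h => hl (h ▸ hq))
    have h1 := (tendsto_one_div_add_atTop_nhds_zero_nat (𝕜 := ℝ)).const_mul 2
    rw [mul_zero] at h1
    filter_upwards [h1.eventually (gt_mem_nhds hpos)] with n hn
    have : 2 / ((n : ℝ) + 1) = 2 * (1 / ((n : ℝ) + 1)) := by ring
    rw [this]
    exact hn.le
  filter_upwards [(eventually_all_finset Q).2 h] with n hn
  exact kap_eq_one hn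

theorem ae_notMem (Q : Finset ℂ) : ∀ᵐ l : ℂ, l ∉ Q := by
  have h : volume (Q : Set ℂ) = 0 := Q.finite_toSet.measure_zero _
  rw [ae_iff]
  simpa using h

theorem CutM.tendsto_w {phi : ℂ → ℂ} {U1 U2 : Set ℂ} (K : CutM phi U1 U2) {l : ℂ} (hl : l ∉ K.Q) :
    ∀ᶠ n : ℕ in atTop, K.w n l = dbar K.chi l := by
  filter_upwards [kap_tendsto hl] with n hn
  unfold CutM.w
  rw [hn, one_mul]

theorem CutM.norm_w_le {phi : ℂ → ℂ} {U1 U2 : Set ℂ} (K : CutM phi U1 U2) (n : ℕ) (l : ℂ) :
    ‖K.w n l‖ ≤ ‖dbar K.chi l‖ := by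
  unfold CutM.w
  rw [norm_mul]
  exact mul_le_of_le_one_left (norm_nonneg _) (norm_kap_le _ _ _)

theorem CutM.integrable_dbar {phi : ℂ → ℂ} {U1 U2 : Set ℂ} (K : CutM phi U1 U2) :
    Integrable (dbar K.chi) := by
  obtain ⟨n0, hn0⟩ : ∃ n0 : ℕ, 2 / ((n0 : ℝ) + 1) ≤ K.rho := by
    have h1 := (tendsto_one_div_add_atTop_nhds_zero_nat (𝕜 := ℝ)).const_mul 2
    rw [mul_zero] at h1
    obtain ⟨n, hn⟩ := (h1.eventually (gt_mem_nhds K.rho_pos)).exists
    refine ⟨n, ?_⟩
    have : 2 / ((n : ℝ) + 1) = 2 * (1 / ((n : ℝ) + 1)) := by ring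
    rw [this]
    exact hn.le
  refine ⟨?_, ?_⟩
  · refine aestronglyMeasurable_of_tendsto_ae atTop (f := fun n => K.w n)
      (fun n => (K.continuous_w n).aestronglyMeasurable) ?_
    filter_upwards [ae_notMem K.Q] with l hl
    exact tendsto_const_nhds.congr' ((K.tendsto_w hl).mono fun n hn => hn.symm)
  · rw [hasFiniteIntegral_iff_enorm]
    have h1 : ∀ᵐ l : ℂ, ‖dbar K.chi l‖ₑ ≤ ‖K.w n0 l‖ₑ + ∑ q ∈ K.Q, (closedBall q K.rho).indicator
        (fun l => ENNReal.ofReal |K.C| * ENNReal.ofReal (1 / ‖l - q‖)) l := by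
      filter_upwards [ae_notMem K.Q] with l hl
      by_cases h : ∃ q ∈ K.Q, l ∈ ball q K.rho
      · obtain ⟨q, hq, hlq⟩ := h
        have hne : l ≠ q := fun h => hl (h ▸ hq)
        refine le_trans ?_ (le_add_of_nonneg_left zero_le)
        refine le_trans ?_ (Finset.single_le_sum (f := fun q => (closedBall q K.rho).indicator
          (fun l => ENNReal.ofReal |K.C| * ENNReal.ofReal (1 / ‖l - q‖)) l)
          (fun _ _ => zero_le) hq)
        rw [Set.indicator_of_mem (ball_subset_closedBall hlq), ← ofReal_norm,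
          ← ENNReal.ofReal_mul (abs_nonneg _)]
        apply ENNReal.ofReal_le_ofReal
        refine (K.grad q hq l hlq hne).trans ?_
        rw [mul_one_div]
        exact div_le_div_of_nonneg_right (le_abs_self _) (norm_nonneg _)
      · push Not at h
        refine le_trans (le_of_eq ?_) (le_add_of_nonneg_right zero_le)
        have hk : kap K.Q n0 l = 1 := by
          apply kap_eq_one
          intro q hq
          have := h q hq
          rw [mem_ball, dist_eq_norm, not_lt] at this
          exact hn0.trans this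
        unfold CutM.w
        rw [hk, one_mul]
    refine (lintegral_mono_ae h1).trans_lt ?_
    have hw : Integrable (K.w n0) :=
      (K.continuous_w n0).integrable_of_hasCompactSupport (K.hasCompactSupport_w n0)
    rw [lintegral_add_left (K.continuous_w n0).enorm.measurable, ENNReal.add_lt_top]
    refine ⟨hasFiniteIntegral_iff_enorm.1 hw.2, ?_⟩
    rw [lintegral_finsetSum]
    · rw [ENNReal.sum_lt_top]
      intro q _
      rw [lintegral_indicator measurableSet_closedBall,
        lintegral_const_mul' _ _ ENNReal.ofReal_ne_top]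
      exact ENNReal.mul_lt_top ENNReal.ofReal_lt_top
        ((lintegral_inv_ball_le q q K.rho_pos).trans_lt ENNReal.ofReal_lt_top)
    · intro q _
      apply Measurable.indicator _ measurableSet_closedBall
      fun_prop

theorem conv {phi : ℂ → ℂ} {U1 U2 : Set ℂ} (K : CutM phi U1 U2) {E : Type*}
    [NormedAddCommGroup E] [NormedSpace ℂ E] {F : ℕ → ℂ → E} {G : ℂ → E} {C : ℝ}
    (hF : ∀ n, ∀ l ∈ K.V, l ∉ K.Q → ‖F n l‖ ≤ C)
    (hlim : ∀ l, l ∉ K.Q → Tendsto (fun n => F n l) atTop (𝓝 (G l)))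
    (hm : ∀ n, AEStronglyMeasurable (fun l => K.w n l • F n l) volume) :
    Integrable (fun l => dbar K.chi l • G l) ∧
      Tendsto (fun n => ∫ l, K.w n l • F n l) atTop (𝓝 (∫ l, dbar K.chi l • G l)) := by
  have hb : ∀ n l, l ∉ K.Q → ‖K.w n l • F n l‖ ≤ ‖dbar K.chi l‖ * |C| := by
    intro n l hl
    rw [norm_smul]
    by_cases h0 : dbar K.chi l = 0
    · have : K.w n l = 0 := by
        unfold CutM.w
        rw [h0, mul_zero]
      rw [this, norm_zero, zero_mul]
      positivity
    · exact mul_le_mul (K.norm_w_le n l) ((hF n l (Or.inl h0) hl).trans (le_abs_self _))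
        (norm_nonneg _) (norm_nonneg _)
  have hlim' : ∀ l, l ∉ K.Q → Tendsto (fun n => K.w n l • F n l) atTop
      (𝓝 (dbar K.chi l • G l)) := by
    intro l hl
    refine Tendsto.smul ?_ (hlim l hl)
    exact tendsto_const_nhds.congr' ((K.tendsto_w hl).mono fun n hn => hn.symm)
  have hbI : Integrable fun l => ‖dbar K.chi l‖ * |C| := K.integrable_dbar.norm.mul_const _
  refine ⟨?_, ?_⟩
  · refine Integrable.mono' hbI (aestronglyMeasurable_of_tendsto_ae atTop hm ?_) ?_
    · filter_upwards [ae_notMem K.Q] with l hl using hlim' l hl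
    · filter_upwards [ae_notMem K.Q] with l hl
      exact le_of_tendsto (hlim' l hl).norm (Eventually.of_forall fun n => hb n l hl)
  · refine tendsto_integral_of_dominated_convergence (fun l => ‖dbar K.chi l‖ * |C|) hm hbI ?_ ?_
    · intro n
      filter_upwards [ae_notMem K.Q] with l hl using hb n l hl
    · filter_upwards [ae_notMem K.Q] with l hl using hlim' l hl

end Pool.Agent.TBirM
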