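import Pool.Agent.TBirG.Main
import Pool.Agent.TBirS.Cut

/-!
# A symbol whose spectrum has two points is not locally constant near the circle

Paper proof. If `NC phi` fails there are `z0` on the circle and `l0` with `∃ᶠ w in 𝓝[≠] z0, phi w = l0`, so `phi = l0`
on the circle (`AnalyticOnNhd.eqOn_of_preconnected_of_frequently_eq`, the circle is preconnected:
`isPreconnected_sphere`) and, as the points of the circle are not isolated in it (`infinite_arc` of
TBirG/Main), `phi = l0` near every point of the circle (`AnalyticAt.eventually_eq_or_eventually_ne`, or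
`AnalyticOnNhd.eqOnNhd...`), hence `deriv phi = 0` on the circle. So `J phi = {l0}` and `wd phi l = 0` for
`l ≠ l0` (the integrand in `wind` vanishes), `Sg phi ⊆ {l0}`: contradiction with `a ≠ b`.
-/

set_option autoImplicit false

open MeasureTheory Complex Set Filter Topology Metric AddCircle
open scoped ComplexConjugate InnerProductSpace ENNReal

namespace Pool.Agent.TBirM

open Pool.Agent.TBir Pool.Agent.TBirG
open Pool.Agent.TBirS (Sg)

theorem nc_of_Sg {phi : ℂ → ℂ} (hana : AnalyticOnNhd ℂ phi (sphere 0 1)) {a b : ℂ}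
    (ha : a ∈ Sg phi) (hb : b ∈ Sg phi) (hab : a ≠ b) : NC phi := by
  by_contra hnc
  unfold NC at hnc
  push Not at hnc
  obtain ⟨z0, hz0, l0, hl0⟩ := hnc
  have h1 : ∀ᶠ w in 𝓝 z0, phi w = l0 := by
    rcases (hana z0 hz0).eventually_eq_or_eventually_ne (analyticAt_const (v := l0)) with h | h
    · exact h
    · exact absurd h hl0
  have hpre : IsPreconnected (sphere (0 : ℂ) 1) := by
    refine isPreconnected_sphere ?_ _ _
    rw [Complex.rank_real_complex]
    norm_num
  have h2 : EqOn phi (fun _ => l0) (sphere 0 1) :=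
    hana.eqOn_of_preconnected_of_eventuallyEq (fun _ _ => analyticAt_const) hpre hz0 h1
  have h3 : ∀ z ∈ sphere (0 : ℂ) 1, ∀ᶠ w in 𝓝 z, phi w = l0 := by
    intro z hz
    have hz' : ‖z‖ = 1 := by simpa using hz
    rcases (hana z hz).eventually_eq_or_eventually_ne (analyticAt_const (v := l0)) with h | h
    · exact h
    · exfalso
      obtain ⟨x, hx, y, hy, hxy⟩ := (infinite_arc hz' (eventually_nhdsWithin_iff.1 h)).nontrivial
      by_cases hxz : x = z
      · exact hy.2 (fun h => hxy (hxz.trans (by simpa using h.symm))) (h2 hy.1)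
      · exact hx.2 hxz (h2 hx.1)
  have h4 : ∀ l ∈ Sg phi, l = l0 := by
    rintro l (hl | hl)
    · obtain ⟨z, hz, hzl⟩ := hl
      rw [← hzl]
      exact h2 hz
    · by_contra hne
      apply hl
      have h5 : wind (fun w => phi w - l) = wind (fun _ : ℂ => l0 - l) :=
        wind_congr fun z hz => (h3 z hz).mono fun w hw => by beta_reduce; rw [hw]
      unfold wd
      rw [h5]
      unfold wind
      simp [circleIntegral]
  exact hab ((h4 a ha).trans (h4 b hb).symm)

end Pool.Agent.TBirM
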