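import Pool.Agent.TBirM.Main
import Pool.Agent.TBirM.Nc
import Pool.Agent.TBirM.DS

/-!
# Splitting: the spectrum is the union of two closed sets with finite intersection
-/

set_option autoImplicit false

open MeasureTheory Complex Set Filter Topology Metric AddCircle
open scoped ComplexConjugate InnerProductSpace ENNReal

namespace Pool.Agent.TBirM

open Pool.Agent.TBir Pool.Agent.TBirG
open Pool.Agent.TBirS (Sg isCompact_Sg)

theorem punct_ball (q : ℂ) {r : ℝ} (hr : 0 < r) : IsPreconnected (ball q r \ {q}) := by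
  have hrank : 1 < Module.rank ℝ ℂ := by
    rw [Complex.rank_real_complex]
    norm_num
  have h0 := (isConnected_compl_singleton_of_one_lt_rank hrank (0 : ℂ)).isPreconnected
  have hc : Continuous fun y : ℂ => q + ((r / (1 + ‖y‖) : ℝ) : ℂ) * y := by
    have h1 : Continuous fun y : ℂ => r / (1 + ‖y‖) := by
      refine continuous_const.div (continuous_const.add continuous_norm) fun y => ?_
      positivity
    exact continuous_const.add ((Complex.continuous_ofReal.comp h1).mul continuous_id)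
  have h1 := h0.image _ hc.continuousOn
  have h2 : (fun y : ℂ => q + ((r / (1 + ‖y‖) : ℝ) : ℂ) * y) '' {0}ᶜ = ball q r \ {q} := by
    ext w
    constructor
    · rintro ⟨y, hy, rfl⟩
      have hy0 : y ≠ 0 := hy
      have hyn : 0 < ‖y‖ := norm_pos_iff.2 hy0
      have hp : 0 < r / (1 + ‖y‖) := by positivity
      refine ⟨?_, ?_⟩
      · rw [mem_ball, dist_eq_norm]
        simp only [add_sub_cancel_left]
        rw [norm_mul, Complex.norm_real, Real.norm_eq_abs, abs_of_pos hp, div_mul_eq_mul_div,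
          div_lt_iff₀ (by positivity)]
        nlinarith
      · intro h
        have h3 : ((r / (1 + ‖y‖) : ℝ) : ℂ) * y = 0 := by
          have h4 : q + ((r / (1 + ‖y‖) : ℝ) : ℂ) * y = q := h
          simpa using h4
        rcases mul_eq_zero.1 h3 with h4 | h4
        · have h5 : r / (1 + ‖y‖) = 0 := by exact_mod_cast h4
          exact hp.ne' h5
        · exact hy0 h4
    · rintro ⟨hw, hwq⟩
      have hu : w - q ≠ 0 := fun h => hwq (sub_eq_zero.1 h)
      have hun : 0 < ‖w - q‖ := norm_pos_iff.2 hu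
      rw [mem_ball, dist_eq_norm] at hw
      obtain ⟨ρ, hρ⟩ : ∃ ρ : ℝ, ρ = ‖w - q‖ := ⟨_, rfl⟩
      rw [← hρ] at hw hun
      have h3 : 0 < r - ρ := by linarith
      refine ⟨((r - ρ : ℝ) : ℂ)⁻¹ * (w - q), ?_, ?_⟩
      · refine mul_ne_zero (inv_ne_zero ?_) hu
        exact_mod_cast h3.ne'
      · have h4 : ‖((r - ρ : ℝ) : ℂ)⁻¹ * (w - q)‖ = ρ / (r - ρ) := by
          rw [norm_mul, norm_inv, Complex.norm_real, Real.norm_eq_abs, abs_of_pos h3, ← hρ]
          ring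
        simp only [h4]
        have h5 : r / (1 + ρ / (r - ρ)) = r - ρ := by
          field_simp
          ring
        rw [h5, ← mul_assoc, mul_inv_cancel₀ (by exact_mod_cast h3.ne'), one_mul]
        ring
  rw [← h2]
  exact h1

theorem main_closed {phi : ℂ → ℂ} (hphi : AnalyticOnNhd ℂ phi (sphere 0 1)) {A B : Set ℂ}
    (hA : IsClosed A) (hB : IsClosed B) (hAB : A ∪ B = Sg phi) (hQ : (A ∩ B).Finite)
    (hA' : ¬ A ⊆ B) (hB' : ¬ B ⊆ A)
    (hq : ∀ q ∈ A ∩ B, (∀ z ∈ sphere (0 : ℂ) 1, phi z = q → deriv phi z ≠ 0) ∧ DirSep A B q) :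
    ¬ BIR H2 (IsToeplitz phi) := by
  obtain ⟨a, ha, ha'⟩ := Set.not_subset.1 hA'
  obtain ⟨b, hb, hb'⟩ := Set.not_subset.1 hB'
  have haS : a ∈ Sg phi := by rw [← hAB]; exact Or.inl ha
  have hbS : b ∈ Sg phi := by rw [← hAB]; exact Or.inr hb
  have hNC : NC phi := nc_of_Sg hphi haS hbS fun h => ha' (h ▸ hb)
  have hSc : IsClosed (Sg phi) := (isCompact_Sg hphi).isClosed
  obtain ⟨A0, hA0⟩ : ∃ A0 : Set ℂ, A0 = A \ B := ⟨_, rfl⟩
  obtain ⟨B0, hB0⟩ : ∃ B0 : Set ℂ, B0 = B \ A := ⟨_, rfl⟩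
  have cA : closure A0 ⊆ A := closure_minimal (by rw [hA0]; exact Set.sdiff_subset) hA
  have cB : closure B0 ⊆ B := closure_minimal (by rw [hB0]; exact Set.sdiff_subset) hB
  obtain ⟨A1, hA1⟩ : ∃ A1 : Set ℂ, A1 = closure A0 ∪ ((A ∩ B) \ closure B0) := ⟨_, rfl⟩
  obtain ⟨B1, hB1⟩ : ∃ B1 : Set ℂ, B1 = closure B0 := ⟨_, rfl⟩
  obtain ⟨Q1, hQ1⟩ : ∃ Q1 : Set ℂ, Q1 = closure A0 ∩ closure B0 := ⟨_, rfl⟩
  have hQsub : Q1 ⊆ A ∩ B := by
    rw [hQ1]
    exact fun x hx => ⟨cA hx.1, cB hx.2⟩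
  have hQ1f : Q1.Finite := hQ.subset hQsub
  have hA1c : IsClosed A1 := by
    rw [hA1]
    exact isClosed_closure.union (hQ.subset Set.sdiff_subset).isClosed
  have hB1c : IsClosed B1 := by rw [hB1]; exact isClosed_closure
  have hint : A1 ∩ B1 ⊆ Q1 := by
    rw [hA1, hB1, hQ1]
    rintro x ⟨h1 | h1, h2⟩
    · exact ⟨h1, h2⟩
    · exact absurd h2 h1.2
  have d1 : Disjoint (closure (A1 \ Q1)) (B1 \ Q1) := by
    rw [Set.disjoint_left]
    intro x hx hx'
    exact hx'.2 (hint ⟨closure_minimal Set.sdiff_subset hA1c hx, hx'.1⟩)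
  have d2 : Disjoint (A1 \ Q1) (closure (B1 \ Q1)) := by
    rw [Set.disjoint_left]
    intro x hx hx'
    exact hx.2 (hint ⟨hx.1, closure_minimal Set.sdiff_subset hB1c hx'⟩)
  obtain ⟨U1, U2, o1, o2, s1, s2, s3⟩ := separatedNhds_iff_disjoint.2
    (CompletelyNormalSpace.completely_normal d1 d2)
  have hcov : Sg phi \ Q1 ⊆ U1 ∪ U2 := by
    rintro l ⟨hl, hlQ⟩
    rw [← hAB] at hl
    by_cases hlA : l ∈ A
    · by_cases hlB : l ∈ B
      · by_cases h : l ∈ closure B0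
        · exact Or.inr (s2 ⟨by rw [hB1]; exact h, hlQ⟩)
        · exact Or.inl (s1 ⟨by rw [hA1]; exact Or.inr ⟨⟨hlA, hlB⟩, h⟩, hlQ⟩)
      · refine Or.inl (s1 ⟨?_, hlQ⟩)
        rw [hA1]
        exact Or.inl (subset_closure (by rw [hA0]; exact ⟨hlA, hlB⟩))
    · have hlB : l ∈ B := hl.resolve_left hlA
      refine Or.inr (s2 ⟨?_, hlQ⟩)
      rw [hB1]
      exact subset_closure (by rw [hB0]; exact ⟨hlB, hlA⟩)
  have inA : ∀ l ∈ A \ B, l ∈ U1 := by
    rintro l ⟨h1, h2⟩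
    refine s1 ⟨?_, fun h => h2 (hQsub h).2⟩
    rw [hA1]
    exact Or.inl (subset_closure (by rw [hA0]; exact ⟨h1, h2⟩))
  have inB : ∀ l ∈ B \ A, l ∈ U2 := by
    rintro l ⟨h1, h2⟩
    refine s2 ⟨?_, fun h => h2 (hQsub h).1⟩
    rw [hB1]
    exact subset_closure (by rw [hB0]; exact ⟨h1, h2⟩)
  have hdis := Set.disjoint_left.1 s3
  have hcl : ∀ q ∈ Q1, q ∈ closure (Sg phi)ᶜ := by
    intro q hqQ
    by_contra hcon
    rw [_root_.mem_closure_iff] at hcon
    push Not at hcon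
    obtain ⟨O, hO, hqO, hOS⟩ := hcon
    have hOS' : O ⊆ Sg phi := by
      intro x hx
      by_contra h
      have : x ∈ O ∩ (Sg phi)ᶜ := ⟨hx, h⟩
      rw [hOS] at this
      exact this
    have hfin : ((A ∩ B) \ {q}).Finite := hQ.subset Set.sdiff_subset
    have hO2 : IsOpen (O ∩ ((A ∩ B) \ {q})ᶜ) := hO.inter hfin.isClosed.isOpen_compl
    obtain ⟨r, hr, hrO⟩ := Metric.isOpen_iff.1 hO2 q ⟨hqO, fun h => h.2 rfl⟩
    have hP := punct_ball q hr
    rw [isPreconnected_closed_iff] at hP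
    rw [hQ1] at hqQ
    have e1 : ((ball q r \ {q}) ∩ A).Nonempty := by
      obtain ⟨x, hx, hx'⟩ := _root_.mem_closure_iff.1 hqQ.1 (ball q r) isOpen_ball (mem_ball_self hr)
      rw [hA0] at hx'
      exact ⟨x, ⟨hx, fun h => hx'.2 (by
        rw [show x = q from h]
        exact cB hqQ.2)⟩, hx'.1⟩
    have e2 : ((ball q r \ {q}) ∩ B).Nonempty := by
      obtain ⟨x, hx, hx'⟩ := _root_.mem_closure_iff.1 hqQ.2 (ball q r) isOpen_ball (mem_ball_self hr)
      rw [hB0] at hx'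
      exact ⟨x, ⟨hx, fun h => hx'.2 (by
        rw [show x = q from h]
        exact cA hqQ.1)⟩, hx'.1⟩
    obtain ⟨x, ⟨hx1, hx2⟩, hx3⟩ := hP A B hA hB (fun x hx => by
      rw [hAB]
      exact hOS' (hrO hx.1).1) e1 e2
    exact (hrO hx1).2 ⟨hx3, hx2⟩
  have hJ : ∀ q ∈ Q1, q ∈ J phi := by
    intro q hqQ
    by_contra hqJ
    have hqS : q ∈ Sg phi := by
      rw [← hAB]
      exact Or.inl (hQsub hqQ).1
    have hw : wd phi q ≠ 0 := hqS.resolve_left hqJ
    have h1 := wd_loc hphi hqJ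
    obtain ⟨l, hl, hlS⟩ := (mem_closure_iff_frequently.1 (hcl q hqQ)).and_eventually h1 |>.exists
    exact hl (Or.inr (by rw [hlS.2]; exact hw))
  refine main_split hphi hNC hQ1f (fun q hqQ => ⟨hJ q hqQ, hcl q hqQ⟩)
    (fun q hqQ => (hq q (hQsub hqQ)).1) o1 o2 s3 hcov (fun q hqQ => ?_)
    ⟨a, inA a ⟨ha, ha'⟩, haS, fun h => ha' (hQsub h).2⟩
    ⟨b, inB b ⟨hb, hb'⟩, hbS, fun h => hb' (hQsub h).1⟩
  obtain ⟨c, hc, r, hr, hsep⟩ := (hq q (hQsub hqQ)).2
  refine locCut_of_dir ?_ hc hr ?_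
  · have hfin : (Q1 \ {q}).Finite := hQ1f.subset Set.sdiff_subset
    filter_upwards [hfin.isClosed.isOpen_compl.mem_nhds (show q ∈ (Q1 \ {q})ᶜ from fun h => h.2 rfl)]
      with l hl hlS hlq
    exact hcov ⟨hlS, fun h => hl ⟨h, hlq⟩⟩
  · intro l1 h1 h1q h1S h1U l2 h2 h2q h2S h2U
    refine hsep l1 ?_ l2 ?_ h1q h2q (by rwa [← dist_eq_norm]) (by rwa [← dist_eq_norm])
    · by_contra h
      rw [← hAB] at h1S
      exact hdis h1U (inB l1 ⟨h1S.resolve_left h, h⟩)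
    · by_contra h
      rw [← hAB] at h2S
      exact hdis (inA l2 ⟨h2S.resolve_right h, h⟩) h2U

end Pool.Agent.TBirM
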