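import Pool.Agent.TBir.Ser
import Pool.Agent.TBir.SeqE
import Pool.Agent.TBir.TpC

/-!
# Semicommutators of one pair of Cauchy kernels, and sums of simple fractions
-/

set_option autoImplicit false

open MeasureTheory Complex Set Filter Topology Metric AddCircle
open scoped ComplexConjugate InnerProductSpace ENNReal

namespace Pool.Agent.TBirM

open Pool.Agent.TBir

theorem summable_pow_succ {v : ℂ} (hv : ‖v‖ < 1) :
    Summable fun j : ℕ => ‖-v ^ (j + 1)‖ := by
  have h : (fun j : ℕ => ‖-v ^ (j + 1)‖) = fun j : ℕ => ‖v‖ ^ j * ‖v‖ := by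
    funext j
    rw [norm_neg, norm_pow, pow_succ]
  rw [h]
  exact (summable_geometric_of_lt_one (norm_nonneg v) hv).mul_right _

theorem summable_pow_self {v : ℂ} (hv : ‖v‖ < 1) :
    Summable fun j : ℕ => ‖v ^ j‖ := by
  have h : (fun j : ℕ => ‖v ^ j‖) = fun j : ℕ => ‖v‖ ^ j := by
    funext j
    rw [norm_pow]
  rw [h]
  exact summable_geometric_of_lt_one (norm_nonneg v) hv

/-- The semicommutator. -/
noncomputable def SC (a d : CT) : Hardy →L[ℂ] Hardy := T (a * d) - T a * T d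

theorem T_sum {ι : Type*} (s : Finset ι) (f : ι → CT) : T (∑ i ∈ s, f i) = ∑ i ∈ s, T (f i) := by
  obtain ⟨TL, hTL⟩ := exists_TL
  rw [← hTL, map_sum]
  exact Finset.sum_congr rfl fun i _ => hTL _

theorem SC_sum {ι κ : Type*} (s : Finset ι) (t : Finset κ) (c : ι → ℂ) (d : κ → ℂ) (a : ι → CT)
    (b : κ → CT) : SC (∑ i ∈ s, c i • a i) (∑ j ∈ t, d j • b j) =
      ∑ i ∈ s, ∑ j ∈ t, (c i * d j) • SC (a i) (b j) := by
  unfold SC
  have h1 : (∑ i ∈ s, c i • a i) * (∑ j ∈ t, d j • b j) =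
      ∑ i ∈ s, ∑ j ∈ t, (c i * d j) • (a i * b j) := by
    rw [Finset.sum_mul_sum]
    refine Finset.sum_congr rfl fun i _ => Finset.sum_congr rfl fun j _ => ?_
    rw [smul_mul_assoc, mul_smul_comm, smul_smul]
  have h2 : (∑ i ∈ s, T (c i • a i)) * (∑ j ∈ t, T (d j • b j)) =
      ∑ i ∈ s, ∑ j ∈ t, (c i * d j) • (T (a i) * T (b j)) := by
    rw [Finset.sum_mul_sum]
    refine Finset.sum_congr rfl fun i _ => Finset.sum_congr rfl fun j _ => ?_
    rw [T_smul, T_smul, smul_mul_assoc, mul_smul_comm, smul_smul]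
  rw [h1, T_sum, T_sum, T_sum, h2, ← Finset.sum_sub_distrib]
  refine Finset.sum_congr rfl fun i _ => ?_
  rw [T_sum, ← Finset.sum_sub_distrib]
  refine Finset.sum_congr rfl fun j _ => ?_
  rw [T_smul, smul_sub]

theorem pair_est {C eta c : ℝ} (hC : 0 < C) (heta : 0 < eta) (hc : 0 < c) :
    ∃ K : ℝ, 0 < K ∧ ∀ bp bm : ℕ → ℂ, Dec C eta bp → Dec C eta bm → ∀ z v : ℂ,
      ‖z‖ < 1 → ‖v‖ < 1 → Real.exp (-(eta / 2)) ≤ ‖z‖ → Real.exp (-(eta / 2)) ≤ ‖v‖ →
      c ≤ ‖1 - z * v‖ → ∀ f g : Hardy,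
      ‖inner ℂ g (SC (plusS bp * plusS (fun j => -v ^ (j + 1)))
        (minusS bm * minusS (fun j => z ^ j)) f)‖ ≤
        K * (‖ev z f‖ + ‖f‖) * (‖ev (conj v) g‖ + ‖g‖) := by
  obtain ⟨K, hK, hseq⟩ := seq_est hC heta hc
  refine ⟨K, hK, fun bp bm hbp hbm z v hz1 hvn b1 b2 b3 f g => ?_⟩
  have sbp := summable_of_dec heta hbp
  have sbm := summable_of_dec heta hbm
  have svs := summable_pow_succ hvn
  have szs := summable_pow_self hz1
  have pa : Plus (plusS bp * plusS (fun j => -v ^ (j + 1))) :=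
    (plus_plusS sbp).mul (plus_plusS svs)
  have md : Minus (minusS bm * minusS (fun j => z ^ j)) :=
    (minus_minusS sbm).mul (minus_minusS szs)
  unfold SC
  rw [hankel pa md]
  have sa := summable_norm_sum_mul_range_of_summable_norm sbp svs
  have sd := summable_norm_sum_mul_range_of_summable_norm sbm szs
  have ca : ∀ m : ℕ, fourierCoeff (plusS bp * plusS (fun j => -v ^ (j + 1)) : CT) (m : ℤ) =
      -v * ∑ j ∈ Finset.range (m + 1), bp j * v ^ (m - j) := by
    intro m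
    rw [plusS_mul sbp svs, fourierCoeff_plusS sa, Finset.mul_sum]
    refine Finset.sum_congr rfl fun j _ => ?_
    ring
  have cd : ∀ m : ℕ, fourierCoeff (minusS bm * minusS (fun j => z ^ j) : CT) (-(m : ℤ)) =
      ∑ j ∈ Finset.range (m + 1), bm j * z ^ (m - j) := by
    intro m
    rw [minusS_mul sbm szs, fourierCoeff_minusS sd]
  have hsum : (∑' k : ℕ, (∑' n : ℕ, fourierCoeff (plusS bp * plusS (fun j => -v ^ (j + 1)) : CT)
        ((n : ℤ) + k + 1) * conj (co g n)) *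
        (∑' n : ℕ, fourierCoeff (minusS bm * minusS (fun j => z ^ j) : CT)
        (-((n : ℤ) + k + 1)) * co f n)) = -v * ∑' k : ℕ,
        (∑' n : ℕ, (∑ j ∈ Finset.range (n + k + 1 + 1), bp j * v ^ (n + k + 1 - j)) *
          conj (co g n)) *
        (∑' n : ℕ, (∑ j ∈ Finset.range (n + k + 1 + 1), bm j * z ^ (n + k + 1 - j)) *
          co f n) := by
    rw [← tsum_mul_left]
    refine tsum_congr fun k => ?_
    have e1 : (∑' n : ℕ, fourierCoeff (plusS bp * plusS (fun j => -v ^ (j + 1)) : CT)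
        ((n : ℤ) + k + 1) * conj (co g n)) = -v * (∑' n : ℕ,
        (∑ j ∈ Finset.range (n + k + 1 + 1), bp j * v ^ (n + k + 1 - j)) * conj (co g n)) := by
      rw [← tsum_mul_left]
      refine tsum_congr fun n => ?_
      have h5 : ((n : ℤ) + k + 1) = ((n + k + 1 : ℕ) : ℤ) := by push_cast; ring
      rw [h5, ca, mul_assoc]
    have e2 : (∑' n : ℕ, fourierCoeff (minusS bm * minusS (fun j => z ^ j) : CT)
        (-((n : ℤ) + k + 1)) * co f n) = (∑' n : ℕ,
        (∑ j ∈ Finset.range (n + k + 1 + 1), bm j * z ^ (n + k + 1 - j)) * co f n) := by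
      refine tsum_congr fun n => ?_
      have h5 : ((n : ℤ) + k + 1) = ((n + k + 1 : ℕ) : ℤ) := by push_cast; ring
      rw [h5, cd]
    rw [e1, e2, mul_assoc]
  rw [hsum, norm_mul, norm_neg]
  refine le_trans ?_ (hseq bp bm hbp hbm z v hz1 hvn b1 b2 b3 f g)
  exact mul_le_of_le_one_left (norm_nonneg _) hvn.le

/-- Sum of simple fractions. -/
theorem lag {ι : Type*} [DecidableEq ι] (s : Finset ι) (hs : s.Nonempty) {w : ι → ℂ}
    (hw : Set.InjOn w s) {X : ℂ} (hX : ∀ j ∈ s, X - w j ≠ 0) :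
    ∏ j ∈ s, (X - w j)⁻¹ = ∑ j ∈ s, (∏ k ∈ s.erase j, (w j - w k))⁻¹ * (X - w j)⁻¹ := by
  have h1 := congrArg (Polynomial.eval X) (Lagrange.sum_basis hw hs)
  rw [Polynomial.eval_finsetSum, Polynomial.eval_one] at h1
  have h2 : ∀ j ∈ s, (Lagrange.basis s w j).eval X =
      (∏ k ∈ s.erase j, (w j - w k))⁻¹ * ∏ k ∈ s.erase j, (X - w k) := by
    intro j _
    unfold Lagrange.basis
    rw [Polynomial.eval_prod, ← Finset.prod_inv_distrib, ← Finset.prod_mul_distrib]
    refine Finset.prod_congr rfl fun k _ => ?_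
    unfold Lagrange.basisDivisor
    simp
  rw [Finset.sum_congr rfl h2] at h1
  calc ∏ j ∈ s, (X - w j)⁻¹ = (∏ j ∈ s, (X - w j)⁻¹) * 1 := (mul_one _).symm
    _ = ∑ j ∈ s, (∏ j ∈ s, (X - w j)⁻¹) *
        ((∏ k ∈ s.erase j, (w j - w k))⁻¹ * ∏ k ∈ s.erase j, (X - w k)) := by
      rw [← h1, Finset.mul_sum]
    _ = _ := by
      refine Finset.sum_congr rfl fun j hj => ?_
      have h3 : (∏ k ∈ s, (X - w k)⁻¹) * ∏ k ∈ s.erase j, (X - w k) = (X - w j)⁻¹ := by
        rw [← Finset.mul_prod_erase s (fun k => (X - w k)⁻¹) hj, mul_assoc,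
          ← Finset.prod_mul_distrib]
        rw [Finset.prod_eq_one fun k hk => inv_mul_cancel₀ (hX k (Finset.mem_of_mem_erase hk)),
          mul_one]
      rw [← h3]
      ring

end Pool.Agent.TBirM
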