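import Pool.Agent.TBirM.Inp

/-!
# The resolvent times a polynomial in the operator is bounded where the cutoff varies

As Pool/Agent/TBirS/ResB.lean and ResN.lean, with the local input `Inp` in place of the bounds for the zeros.
-/

set_option autoImplicit false

open MeasureTheory Complex Set Filter Topology Metric AddCircle
open scoped ComplexConjugate InnerProductSpace ENNReal
open Pool.Lib (dbar)

namespace Pool.Agent.TBirM

open Pool.Agent.TBir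
open Pool.Agent.TBirS (Sg isCompact_Sg isOpen_compl_Sg off_Sg PBd_rT PBd_rS Nq comm_aeval res_mul_sq
  norm_le_of_inner FF_le resolvent_apply)

/-- The set where the cutoff is not locally `0` or `1`. -/
def CutM.V {phi : ℂ → ℂ} {U1 U2 : Set ℂ} (K : CutM phi U1 U2) : Set ℂ :=
  {l | dbar K.chi l ≠ 0 ∨ (K.chi l ≠ 0 ∧ K.chi l ≠ 1)}

private theorem res_loc {phi : ℂ → ℂ} (hphi : AnalyticOnNhd ℂ phi (sphere 0 1)) {Phi : CT}
    (hPhi : ∀ x, Phi x = phi (e x)) {q : ℂ} (hI : Inp phi Phi q) {c : ℝ} (hc : 0 < c) :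
    ∃ C s : ℝ, 0 < C ∧ 0 < s ∧ ∀ l ∈ ball q s, l ≠ q →
      (∀ l' ∈ Sg phi, c * ‖l - q‖ ≤ ‖l' - l‖) →
      l ∈ resolventSet ℂ (T Phi) ∧ ‖resolvent (T Phi) l‖ ≤ C / ‖l - q‖ ^ 2 := by
  obtain ⟨C, c1, s, hC, hc1, hs, h⟩ := hI c hc
  refine ⟨C * (4 / c1 ^ 2) + c⁻¹, min s 1, by positivity,
    lt_min hs one_pos, fun l hl hlq hd => ?_⟩
  have hl1 : l ∈ ball q s := ball_subset_ball (min_le_left _ _) hl
  have hl3 : ‖l - q‖ < 1 := by
    have := mem_ball_iff_norm.1 hl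
    exact this.trans_le (min_le_right _ _)
  have ht : 0 < ‖l - q‖ := norm_pos_iff.2 (sub_ne_zero.2 hlq)
  obtain ⟨hct, h1⟩ := h l hl1 hlq hd
  have hS : l ∉ Sg phi := by
    intro hl'
    have h2 := hd l hl'
    rw [sub_self, norm_zero] at h2
    have : 0 < c * ‖l - q‖ := by positivity
    linarith
  have hr1 := PBd_rT hphi hPhi l hS
  have hr2 := PBd_rS hphi hPhi l hS
  refine ⟨hr1, ?_⟩
  have hct1 : 0 < c1 * ‖l - q‖ := mul_pos hc1 ht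
  have hE : ‖resolvent (T Phi) l - T (resolvent Phi l)‖ ≤ C * (4 / c1 ^ 2) / ‖l - q‖ ^ 2 := by
    refine norm_le_of_inner (by positivity) fun f g => (h1 f g).trans ?_
    have hFF : ∀ u : Hardy, FF u (1 - c1 * ‖l - q‖) + ‖u‖ ≤ ‖u‖ * (2 / (c1 * ‖l - q‖)) := by
      intro u
      have h2 := FF_le u (t := 1 - c1 * ‖l - q‖) (by linarith) (by linarith)
      have h3 : (1 - (1 - c1 * ‖l - q‖))⁻¹ = 1 / (c1 * ‖l - q‖) := by
        rw [sub_sub_cancel, one_div]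
      rw [h3] at h2
      have h4 : 1 ≤ 1 / (c1 * ‖l - q‖) := by
        rw [le_div_iff₀ (by positivity)]
        linarith
      have h5 : ‖u‖ * (2 / (c1 * ‖l - q‖)) = ‖u‖ * (1 / (c1 * ‖l - q‖)) +
          ‖u‖ * (1 / (c1 * ‖l - q‖)) := by ring
      have h6 : ‖u‖ ≤ ‖u‖ * (1 / (c1 * ‖l - q‖)) := le_mul_of_one_le_right (norm_nonneg _) h4
      linarith
    have hF0 : ∀ u : Hardy, 0 ≤ FF u (1 - c1 * ‖l - q‖) := fun u => FF_nonneg u (by linarith)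
    have h7 : (FF f (1 - c1 * ‖l - q‖) + ‖f‖) * (FF g (1 - c1 * ‖l - q‖) + ‖g‖) ≤
        (‖f‖ * (2 / (c1 * ‖l - q‖))) * (‖g‖ * (2 / (c1 * ‖l - q‖))) :=
      mul_le_mul (hFF f) (hFF g) (add_nonneg (hF0 g) (norm_nonneg _)) (by positivity)
    calc C * ((FF f (1 - c1 * ‖l - q‖) + ‖f‖) * (FF g (1 - c1 * ‖l - q‖) + ‖g‖)) ≤
        C * ((‖f‖ * (2 / (c1 * ‖l - q‖))) * (‖g‖ * (2 / (c1 * ‖l - q‖)))) :=
          mul_le_mul_of_nonneg_left h7 hC.le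
      _ = C * (4 / c1 ^ 2) / ‖l - q‖ ^ 2 * ‖f‖ * ‖g‖ := by
          field_simp
          ring
  have hT : ‖T (resolvent Phi l)‖ ≤ c⁻¹ / ‖l - q‖ ^ 2 := by
    refine (norm_T_le _).trans ?_
    rw [ContinuousMap.norm_le _ (by positivity)]
    intro x
    rw [resolvent_apply hr2, norm_inv, hPhi, norm_sub_rev]
    have hx : phi (e x) ∈ Sg phi := by
      exact Or.inl ⟨e x, by rw [mem_sphere, dist_zero_right, norm_e], rfl⟩
    have a4 : c * ‖l - q‖ ^ 2 ≤ ‖phi (e x) - l‖ := by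
      refine le_trans ?_ (hd _ hx)
      have : ‖l - q‖ ^ 2 ≤ ‖l - q‖ := by nlinarith
      exact mul_le_mul_of_nonneg_left this hc.le
    have a5 : c⁻¹ / ‖l - q‖ ^ 2 = (c * ‖l - q‖ ^ 2)⁻¹ := by
      field_simp
    rw [a5]
    exact inv_anti₀ (by positivity) a4
  calc ‖resolvent (T Phi) l‖ = ‖(resolvent (T Phi) l - T (resolvent Phi l)) +
        T (resolvent Phi l)‖ := by rw [sub_add_cancel]
    _ ≤ C * (4 / c1 ^ 2) / ‖l - q‖ ^ 2 + c⁻¹ / ‖l - q‖ ^ 2 :=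
        (norm_add_le _ _).trans (add_le_add hE hT)
    _ = (C * (4 / c1 ^ 2) + c⁻¹) / ‖l - q‖ ^ 2 := by ring

private theorem bound_loc {phi : ℂ → ℂ} (hphi : AnalyticOnNhd ℂ phi (sphere 0 1)) {Phi : CT}
    (hPhi : ∀ x, Phi x = phi (e x)) {U1 U2 : Set ℂ} (K : CutM phi U1 U2) {q : ℂ} (hq : q ∈ K.Q)
    (hI : Inp phi Phi q) :
    ∃ C : ℝ, ∀ᶠ l in 𝓝 q, l ≠ q → l ∈ K.V → l ∈ resolventSet ℂ (T Phi) ∧
      ‖resolvent (T Phi) l * Nq Phi K.Q‖ ≤ C := by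
  obtain ⟨C1, s1, hC1, hs1, h1⟩ := res_loc hphi hPhi hI K.c_pos
  obtain ⟨p, hp⟩ : ∃ p : Polynomial ℂ, ∏ q ∈ K.Q, (Polynomial.X - Polynomial.C q) ^ 2 =
      (Polynomial.X - Polynomial.C q) ^ 2 * p :=
    ⟨_, (Finset.mul_prod_erase K.Q (fun q => (Polynomial.X - Polynomial.C q) ^ 2) hq).symm⟩
  have hN : Nq Phi K.Q = (T Phi - algebraMap ℂ (Hardy →L[ℂ] Hardy) q) ^ 2 *
      Polynomial.aeval (T Phi) p := by
    unfold Nq
    rw [hp, map_mul, map_pow, map_sub, Polynomial.aeval_X, Polynomial.aeval_C]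
  have hone : ‖(1 : Hardy →L[ℂ] Hardy)‖ ≤ 1 := ContinuousLinearMap.norm_id_le
  refine ⟨(C1 + 2 + (‖q‖ + 1 + ‖T Phi‖)) * ‖Polynomial.aeval (T Phi) p‖, ?_⟩
  have hs : 0 < min s1 (min K.rho 1) :=
    lt_min hs1 (lt_min K.rho_pos one_pos)
  filter_upwards [ball_mem_nhds q hs] with l hl hlq hV
  have hl1 : l ∈ ball q s1 := ball_subset_ball (min_le_left _ _) hl
  have hl3 : l ∈ ball q K.rho := ball_subset_ball ((min_le_right _ _).trans (min_le_left _ _)) hl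
  have hl4 : ‖l - q‖ < 1 := (mem_ball_iff_norm.1 hl).trans_le
    ((min_le_right _ _).trans (min_le_right _ _))
  have ht : 0 < ‖l - q‖ := norm_pos_iff.2 (sub_ne_zero.2 hlq)
  have hR : l ∈ resolventSet ℂ (T Phi) ∧ ‖resolvent (T Phi) l‖ ≤ C1 / ‖l - q‖ ^ 2 :=
    h1 l hl1 hlq (K.loc q hq l hl3 hlq hV)
  refine ⟨hR.1, ?_⟩
  rw [hN, ← mul_assoc]
  refine (norm_mul_le _ _).trans (mul_le_mul_of_nonneg_right ?_ (norm_nonneg _))
  rw [res_mul_sq hR.1]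
  refine (norm_add_le _ _).trans (add_le_add ((norm_sub_le _ _).trans (add_le_add ?_ ?_)) ?_)
  · rw [norm_smul, norm_pow]
    calc ‖l - q‖ ^ 2 * ‖resolvent (T Phi) l‖ ≤ ‖l - q‖ ^ 2 * (C1 / ‖l - q‖ ^ 2) :=
          mul_le_mul_of_nonneg_left hR.2 (by positivity)
      _ = C1 := by field_simp
  · rw [norm_smul, norm_mul]
    have : ‖(2 : ℂ)‖ = 2 := by simp
    rw [this]
    calc 2 * ‖l - q‖ * ‖(1 : Hardy →L[ℂ] Hardy)‖ ≤ 2 * ‖l - q‖ * 1 :=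
          mul_le_mul_of_nonneg_left hone (by positivity)
      _ ≤ 2 := by linarith
  · refine (norm_sub_le _ _).trans (add_le_add ?_ le_rfl)
    rw [Algebra.algebraMap_eq_smul_one, norm_smul]
    have h5 : ‖l‖ ≤ ‖q‖ + 1 := by
      have := norm_sub_norm_le l q
      linarith
    calc ‖l‖ * ‖(1 : Hardy →L[ℂ] Hardy)‖ ≤ (‖q‖ + 1) * 1 :=
          mul_le_mul h5 hone (norm_nonneg _) (by positivity)
      _ = ‖q‖ + 1 := mul_one _

theorem CutM.V_subset {phi : ℂ → ℂ} {U1 U2 : Set ℂ} (K : CutM phi U1 U2) :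
    K.V ⊆ tsupport K.chi := by
  rintro l (h | ⟨h, -⟩)
  · exact Pool.Lib.tsupport_dbar_subset _ (subset_tsupport _ h)
  · exact subset_tsupport _ h

theorem CutM.V_off {phi : ℂ → ℂ} {U1 U2 : Set ℂ} (K : CutM phi U1 U2) {l : ℂ}
    (hl : l ∈ Sg phi) (hQ : l ∉ K.Q) : ∀ᶠ l' in 𝓝 l, l' ∉ K.V := by
  have key : ∀ c : ℂ, (c = 0 ∨ c = 1) → (∀ᶠ l' in 𝓝 l, K.chi l' = c) →
      ∀ᶠ l' in 𝓝 l, l' ∉ K.V := by
    intro c hc01 hc
    filter_upwards [hc.eventually_nhds] with l' hl'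
    have h1 : K.chi =ᶠ[𝓝 l'] fun _ => c := hl'
    rintro (h | ⟨h, h'⟩)
    · apply h
      rw [Pool.Lib.dbar_congr h1, Pool.Lib.dbar_eq_zero (differentiableAt_const _)]
    · rw [h1.self_of_nhds] at h h'
      rcases hc01 with h2 | h2
      · exact h h2
      · exact h' h2
  rcases K.cov l hl hQ with h | h
  · exact key 1 (Or.inr rfl) (K.one l hl h hQ)
  · exact key 0 (Or.inl rfl) (K.zero l hl h hQ)

theorem bound_V {phi : ℂ → ℂ} (hphi : AnalyticOnNhd ℂ phi (sphere 0 1)) {Phi : CT}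
    (hPhi : ∀ x, Phi x = phi (e x)) {U1 U2 : Set ℂ} (K : CutM phi U1 U2)
    (hI : ∀ q ∈ K.Q, Inp phi Phi q) :
    ∃ C : ℝ, ∀ l ∈ K.V, l ∉ K.Q → ‖resolvent (T Phi) l * Nq Phi K.Q‖ ≤ C := by
  have h : ∃ C : ℝ, ∀ l ∈ tsupport K.chi, l ∈ K.V → l ∉ K.Q →
      ‖resolvent (T Phi) l * Nq Phi K.Q‖ ≤ C := by
    refine K.cpt.isCompact.induction_on (p := fun S => ∃ C : ℝ, ∀ l ∈ S, l ∈ K.V → l ∉ K.Q →
      ‖resolvent (T Phi) l * Nq Phi K.Q‖ ≤ C) ?_ ?_ ?_ ?_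
    · exact ⟨0, fun l hl => absurd hl (notMem_empty l)⟩
    · rintro s t hst ⟨C, hC⟩
      exact ⟨C, fun l hl => hC l (hst hl)⟩
    · rintro s t ⟨C, hC⟩ ⟨C', hC'⟩
      refine ⟨max C C', fun l hl h1 h2 => ?_⟩
      rcases hl with hl | hl
      · exact (hC l hl h1 h2).trans (le_max_left _ _)
      · exact (hC' l hl h1 h2).trans (le_max_right _ _)
    · intro x _
      by_cases hxQ : x ∈ K.Q
      · obtain ⟨C, hC⟩ := bound_loc hphi hPhi K hxQ (hI x hxQ)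
        refine ⟨_, mem_nhdsWithin_of_mem_nhds hC, C, fun l hl h1 h2 => ?_⟩
        exact (hl (fun h3 => h2 (h3 ▸ hxQ)) h1).2
      · by_cases hxS : x ∈ Sg phi
        · exact ⟨_, mem_nhdsWithin_of_mem_nhds (K.V_off hxS hxQ), 0, fun l hl h1 => absurd h1 hl⟩
        · have hr := PBd_rT hphi hPhi x hxS
          have hc : ContinuousAt (fun l => ‖resolvent (T Phi) l * Nq Phi K.Q‖) x :=
            (((spectrum.hasDerivAt_resolvent_const_left hr).continuousAt).mul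
              continuousAt_const).norm
          have h1 := hc.eventually (gt_mem_nhds (lt_add_one _))
          exact ⟨_, mem_nhdsWithin_of_mem_nhds h1, _, fun l hl _ _ => le_of_lt hl⟩
  obtain ⟨C, hC⟩ := h
  exact ⟨C, fun l hl => hC l (K.V_subset hl) hl⟩

end Pool.Agent.TBirM
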