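import Pool.Agent.TBirS.Cut

/-!
# The three petals `z ^ 2 + 1 / z`

Paper proof. On the circle `phi = z^2 + z⁻¹`, `z = e^{it}`: `phi = 2 cos(3t/2) e^{it/2}`. For `|z| = 1` and `l = phi z`:
`‖l‖^4 = 2 Re (l^3)` (with `z⁻¹ = conj z` this is a polynomial identity in `re`, `im` modulo `re^2 + im^2 = 1`).
Let `O = {l | 2 * (l^3).re < ‖l‖^4}`. If `l ∈ O` then `t l ∈ O` for `t ≥ 1`, so `t l ∉ J phi`; the winding number is
constant on this ray (`wd_loc` and connectedness of `Ici 1`, or see `tear_wd` in TBirS/ExaA, ExaB) and `0` far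
away (`wd_large`). So `Sg phi ⊆ {l | ‖l‖^4 ≤ 2 * (l^3).re}`.
For such an `l ≠ 0`, `x = l.re`, `y = l.im`: `x (x^2 - 3 y^2) > 0`; so `x ≠ 0`, and `x > 0` implies `3 y^2 < x^2`.
`A = Sg phi ∩ {0 ≤ re}`, `B = Sg phi ∩ {re ≤ 0}` are closed, their intersection is contained in `{0}`,
`phi 1 = 2 ∈ A \ B`, `phi i = -1 - i` is in `B \ A`. For `q = 0`: `phi z = 0`
iff `z^3 = -1`, `phi' z = 2 z - z^{-2} = -3 / z^2 ≠ 0`. For `a ∈ A`, `b ∈ B` not zero: `re (a/‖a‖) ≥ √3/2 ≥ 1/2` and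
`re (b/‖b‖) ≤ 0`, so `‖a/‖a‖ - b/‖b‖‖ ≥ 1/2`: `c = 1/2`, `r = 1`.
-/

set_option autoImplicit false

open MeasureTheory Complex Set Filter Topology Metric AddCircle
open scoped ComplexConjugate InnerProductSpace ENNReal

namespace Pool.Agent.TBirM

open Pool.Agent.TBir
open Pool.Agent.TBirS (Sg)

/-- The polynomial vanishing on the curve. -/
private def roF (l : ℂ) : ℝ :=
  (l.re ^ 2 + l.im ^ 2) ^ 2 - 2 * (l.re ^ 3 - 3 * l.re * l.im ^ 2)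

private theorem ro_path {phi : ℂ → ℂ} (hphi : AnalyticOnNhd ℂ phi (sphere 0 1)) {g : ℝ → ℂ}
    (hg : Continuous g) {a b : ℝ} (hab : a ≤ b) (h : ∀ s ∈ Icc a b, g s ∉ J phi) :
    wd phi (g a) = wd phi (g b) := by
  have : PreconnectedSpace (Icc a b) := isPreconnected_iff_preconnectedSpace.1 isPreconnected_Icc
  have h1 : IsLocallyConstant (fun s : Icc a b => wd phi (g s)) := by
    rw [IsLocallyConstant.iff_eventually_eq]
    intro x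
    have h2 := wd_loc hphi (h x x.2)
    have h3 : Tendsto (fun s : Icc a b => g s) (𝓝 x) (𝓝 (g x)) :=
      (hg.comp continuous_subtype_val).continuousAt
    filter_upwards [h3.eventually h2] with s hs
    exact hs.2
  exact h1.apply_eq_of_preconnectedSpace ⟨a, left_mem_Icc.2 hab⟩ ⟨b, right_mem_Icc.2 hab⟩

theorem rose_ana : AnalyticOnNhd ℂ (fun z : ℂ => z ^ 2 + z⁻¹) (sphere 0 1) := by
  intro z hz
  have hz0 : z ≠ 0 := by
    rintro rfl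
    simp at hz
  exact (analyticAt_id.pow 2).add (analyticAt_id.inv hz0)

private theorem ro_inv {z : ℂ} (hz : z ∈ sphere (0 : ℂ) 1) :
    z.re ^ 2 + z.im ^ 2 = 1 ∧ z⁻¹.re = z.re ∧ z⁻¹.im = - z.im := by
  have h1 : ‖z‖ = 1 := by simpa using hz
  have h2 : normSq z = 1 := by rw [Complex.normSq_eq_norm_sq, h1, one_pow]
  refine ⟨?_, ?_, ?_⟩
  · rw [Complex.normSq_apply] at h2
    nlinarith
  · rw [Complex.inv_re, h2, div_one]
  · rw [Complex.inv_im, h2, div_one]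

private theorem ro_re {z : ℂ} (hz : z ∈ sphere (0 : ℂ) 1) :
    (z ^ 2 + z⁻¹).re = z.re ^ 2 - z.im ^ 2 + z.re := by
  obtain ⟨-, h2, -⟩ := ro_inv hz
  rw [Complex.add_re, h2, pow_two, Complex.mul_re]
  ring

private theorem ro_im {z : ℂ} (hz : z ∈ sphere (0 : ℂ) 1) :
    (z ^ 2 + z⁻¹).im = 2 * z.re * z.im - z.im := by
  obtain ⟨-, -, h3⟩ := ro_inv hz
  rw [Complex.add_im, h3, pow_two, Complex.mul_im]
  ring

private theorem ro_J {l : ℂ} (h : l ∈ J (fun z : ℂ => z ^ 2 + z⁻¹)) : roF l = 0 := by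
  obtain ⟨z, hz, rfl⟩ := h
  obtain ⟨h1, -, -⟩ := ro_inv hz
  have e : z.im ^ 2 = 1 - z.re ^ 2 := by linarith
  simp only [roF, ro_re hz, ro_im hz]
  have e2 : (2 * z.re * z.im - z.im) ^ 2 = (2 * z.re - 1) ^ 2 * (1 - z.re ^ 2) := by
    rw [← e]
    ring
  rw [e2, e]
  ring

private theorem ro_out {l : ℂ} (h : 0 < roF l) : wd (fun z : ℂ => z ^ 2 + z⁻¹) l = 0 := by
  obtain ⟨R, hR⟩ := wd_large rose_ana
  have hl0 : l ≠ 0 := by
    rintro rfl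
    simp [roF] at h
  have hl1 : 0 < ‖l‖ := norm_pos_iff.2 hl0
  set g : ℝ → ℂ := fun s => ((1 + s : ℝ) : ℂ) * l with hg
  have gc : Continuous g := by
    rw [hg]
    fun_prop
  have gre : ∀ s, (g s).re = (1 + s) * l.re := fun s => by simp [hg]
  have gim : ∀ s, (g s).im = (1 + s) * l.im := fun s => by simp [hg]
  set b : ℝ := |R| / ‖l‖ with hb
  have hb0 : 0 ≤ b := by positivity
  have k1 : ∀ s ∈ Icc 0 b, g s ∉ J (fun z : ℂ => z ^ 2 + z⁻¹) := by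
    intro s hs hJ
    have h2 := ro_J hJ
    simp only [roF, gre, gim] at h2
    simp only [roF] at h
    have h3 : (1 + s) ^ 3 * ((1 + s) * (l.re ^ 2 + l.im ^ 2) ^ 2 -
        2 * (l.re ^ 3 - 3 * l.re * l.im ^ 2)) = 0 := by
      rw [← h2]
      ring
    have h4 : 0 < 1 + s := by linarith [hs.1]
    have h5 : (1 + s) * (l.re ^ 2 + l.im ^ 2) ^ 2 -
        2 * (l.re ^ 3 - 3 * l.re * l.im ^ 2) = 0 := by
      rcases mul_eq_zero.1 h3 with h6 | h6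
      · exact absurd h6 (by positivity)
      · exact h6
    have h6 : 0 ≤ s * (l.re ^ 2 + l.im ^ 2) ^ 2 := mul_nonneg hs.1 (by positivity)
    nlinarith
  have k2 := ro_path rose_ana gc hb0 k1
  have k3 : g 0 = l := by simp [hg]
  have k4 : R < ‖g b‖ := by
    have h2 : ‖g b‖ = (1 + b) * ‖l‖ := by
      simp only [hg]
      rw [norm_mul, Complex.norm_real, Real.norm_eq_abs, abs_of_nonneg (by linarith)]
    rw [h2, hb, add_mul, one_mul, div_mul_cancel₀ _ hl1.ne']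
    have := le_abs_self R
    linarith
  rw [k3] at k2
  rw [k2]
  exact (hR _ k4).2

private theorem ro_Sg {l : ℂ} (h : l ∈ Sg (fun z : ℂ => z ^ 2 + z⁻¹)) : roF l ≤ 0 := by
  rcases h with h | h
  · exact (ro_J h).le
  · by_contra hc
    exact h (ro_out (not_le.1 hc))

private theorem ro_pos {l : ℂ} (h : l ∈ Sg (fun z : ℂ => z ^ 2 + z⁻¹)) (h0 : l ≠ 0) :
    0 < l.re * (l.re ^ 2 - 3 * l.im ^ 2) := by
  have h1 := ro_Sg h
  have h2 : 0 < l.re ^ 2 + l.im ^ 2 := by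
    have := Complex.normSq_pos.2 h0
    rw [Complex.normSq_apply] at this
    nlinarith
  simp only [roF] at h1
  nlinarith [pow_pos h2 2]

private theorem ro_ne {l : ℂ} (h : l ∈ Sg (fun z : ℂ => z ^ 2 + z⁻¹)) (h0 : l ≠ 0) :
    l.re ≠ 0 := by
  intro hc
  have := ro_pos h h0
  rw [hc] at this
  simp at this

private theorem ro_sec {l : ℂ} (h : l ∈ Sg (fun z : ℂ => z ^ 2 + z⁻¹)) (h0 : l ≠ 0)
    (h1 : 0 ≤ l.re) : 1 / 2 ≤ (l / ‖l‖).re := by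
  have h2 := ro_pos h h0
  have h3 : 0 < l.re := lt_of_le_of_ne h1 (ro_ne h h0).symm
  have h4 : 0 < l.re ^ 2 - 3 * l.im ^ 2 := by
    rcases pos_and_pos_or_neg_and_neg_of_mul_pos h2 with h5 | h5
    · exact h5.2
    · exact absurd h5.1 (not_lt.2 h1)
  have h5 : ‖l‖ ^ 2 = l.re ^ 2 + l.im ^ 2 := by
    rw [← Complex.normSq_eq_norm_sq, Complex.normSq_apply]
    ring
  have h6 : ‖l‖ ≤ 2 * l.re := by
    refine le_of_sq_le_sq ?_ (by linarith)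
    nlinarith
  have h7 : 0 < ‖l‖ := norm_pos_iff.2 h0
  rw [Complex.div_ofReal_re, le_div_iff₀ h7]
  linarith

private theorem ro_left {l : ℂ} (h1 : l.re ≤ 0) : (l / ‖l‖).re ≤ 0 := by
  rw [Complex.div_ofReal_re]
  exact div_nonpos_of_nonpos_of_nonneg h1 (norm_nonneg _)

private theorem ro_deriv {z : ℂ} (hz : z ∈ sphere (0 : ℂ) 1) (h : z ^ 2 + z⁻¹ = 0) :
    deriv (fun z : ℂ => z ^ 2 + z⁻¹) z ≠ 0 := by
  have hz0 : z ≠ 0 := by
    rintro rfl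
    simp at hz
  have h1 : HasDerivAt (fun z : ℂ => z ^ 2 + z⁻¹) (2 * z + -(z ^ 2)⁻¹) z := by
    have h2 := (hasDerivAt_pow 2 z).add (hasDerivAt_inv hz0)
    have h3 : ((2 : ℕ) : ℂ) * z ^ (2 - 1) + -(z ^ 2)⁻¹ = 2 * z + -(z ^ 2)⁻¹ := by norm_num
    rw [← h3]
    exact h2
  rw [h1.deriv]
  intro hc
  have h3 : z ^ 3 + 1 = 0 := by
    have h4 : z * z⁻¹ = 1 := mul_inv_cancel₀ hz0
    linear_combination z * h - h4
  have h5 : 2 * z ^ 3 - 1 = 0 := by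
    have h6 : z ^ 2 * (z ^ 2)⁻¹ = 1 := mul_inv_cancel₀ (pow_ne_zero 2 hz0)
    linear_combination z ^ 2 * hc + h6
  have h7 : (3 : ℂ) = 0 := by linear_combination 2 * h3 - h5
  norm_num at h7

theorem rose_sets : ∃ A B : Set ℂ, IsClosed A ∧ IsClosed B ∧
    A ∪ B = Sg (fun z : ℂ => z ^ 2 + z⁻¹) ∧ (A ∩ B).Finite ∧ ¬ A ⊆ B ∧ ¬ B ⊆ A ∧
    ∀ q ∈ A ∩ B, (∀ z ∈ sphere (0 : ℂ) 1, z ^ 2 + z⁻¹ = q →
        deriv (fun z : ℂ => z ^ 2 + z⁻¹) z ≠ 0) ∧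
      ∃ c > 0, ∃ r > 0, ∀ a ∈ A, ∀ b ∈ B, a ≠ q → b ≠ q → ‖a - q‖ < r → ‖b - q‖ < r →
        c ≤ ‖(a - q) / ‖a - q‖ - (b - q) / ‖b - q‖‖ := by
  have hc : IsClosed (Sg (fun z : ℂ => z ^ 2 + z⁻¹)) :=
    (Pool.Agent.TBirS.isCompact_Sg rose_ana).isClosed
  have hAB : ∀ l : ℂ, l ∈ Sg (fun z : ℂ => z ^ 2 + z⁻¹) → l.re = 0 → l = 0 := by
    intro l hl h0
    by_contra hne
    exact ro_ne hl hne h0
  have hab0 : Sg (fun z : ℂ => z ^ 2 + z⁻¹) ∩ {l | 0 ≤ l.re} ∩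
      (Sg (fun z : ℂ => z ^ 2 + z⁻¹) ∩ {l | l.re ≤ 0}) ⊆ {0} := by
    rintro l ⟨⟨h1, h2⟩, -, h3⟩
    exact hAB l h1 (le_antisymm h3 h2)
  refine ⟨Sg (fun z : ℂ => z ^ 2 + z⁻¹) ∩ {l | 0 ≤ l.re},
    Sg (fun z : ℂ => z ^ 2 + z⁻¹) ∩ {l | l.re ≤ 0},
    hc.inter (isClosed_le continuous_const Complex.continuous_re),
    hc.inter (isClosed_le Complex.continuous_re continuous_const), ?_,
    (Set.finite_singleton (0 : ℂ)).subset hab0, ?_, ?_, ?_⟩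
  · ext l
    constructor
    · rintro (h | h)
      · exact h.1
      · exact h.1
    · intro h
      rcases le_total 0 l.re with h1 | h1
      · exact Or.inl ⟨h, h1⟩
      · exact Or.inr ⟨h, h1⟩
  · intro h
    have h1 : (1 : ℂ) ∈ sphere (0 : ℂ) 1 := by simp
    have h2 : (1 : ℂ) ^ 2 + 1⁻¹ ∈ Sg (fun z : ℂ => z ^ 2 + z⁻¹) := Or.inl ⟨1, h1, rfl⟩
    have h3 : ((1 : ℂ) ^ 2 + 1⁻¹).re = 2 := by
      rw [ro_re h1]
      norm_num
    have h4 := (h ⟨h2, by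
      show 0 ≤ ((1 : ℂ) ^ 2 + 1⁻¹).re
      rw [h3]
      norm_num⟩).2
    have h5 : ((1 : ℂ) ^ 2 + 1⁻¹).re ≤ 0 := h4
    rw [h3] at h5
    norm_num at h5
  · intro h
    have h1 : (I : ℂ) ∈ sphere (0 : ℂ) 1 := by simp
    have h2 : (I : ℂ) ^ 2 + I⁻¹ ∈ Sg (fun z : ℂ => z ^ 2 + z⁻¹) := Or.inl ⟨I, h1, rfl⟩
    have h3 : ((I : ℂ) ^ 2 + I⁻¹).re = -1 := by
      rw [ro_re h1]
      simp
    have h4 := (h ⟨h2, by
      show ((I : ℂ) ^ 2 + I⁻¹).re ≤ 0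
      rw [h3]
      norm_num⟩).2
    have h5 : 0 ≤ ((I : ℂ) ^ 2 + I⁻¹).re := h4
    rw [h3] at h5
    norm_num at h5
  · intro q hq
    have hq0 : q = 0 := hab0 hq
    subst hq0
    refine ⟨fun z hz h => ro_deriv hz h, 1 / 2, by norm_num, 1, one_pos, ?_⟩
    intro a ha b hb ha0 hb0 _ _
    rw [sub_zero, sub_zero]
    have h1 := ro_sec ha.1 ha0 ha.2
    have h2 := ro_left (l := b) hb.2
    have h3 : (a / ‖a‖ - b / ‖b‖).re ≤ ‖a / ‖a‖ - b / ‖b‖‖ := Complex.re_le_norm _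
    rw [Complex.sub_re] at h3
    linarith

end Pool.Agent.TBirM
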