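import Pool.Agent.TBirM.DS

/-!
# Thin triangles on one side of a curve are connected

Proof of `tri_conn`. Let `N = I u` or `N = - I u` with `dF N = - kap < 0` and write `l = q + t u + s N`. As `F`
is `C^1` near `q` there is `r0 > 0` with `dF_l N ≤ - kap / 2` and `|F l - dF_q (l - q)| ≤ (kap eta / 8) ‖l - q‖` for
`l ∈ ball q r0`. Let `rho0 = r0 / 2`. On the triangle `F` is decreasing in `s`, and `F < 0` for `s ≥ eta t / 2`.
Let `R` be the part `eta t / 2 < s` of the triangle: it is convex and contained in `{F ≤ 0}`. For `l` in the set,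
with coordinates `(t, s)`, the segment from `l` to `q + t u + max s (3 eta t / 4) N ∈ R` is in `{F ≤ 0}` and in the
triangle.
-/

set_option autoImplicit false

open MeasureTheory Complex Set Filter Topology Metric AddCircle
open scoped ComplexConjugate InnerProductSpace ENNReal

namespace Pool.Agent.TBirM

private theorem tri_lin (u : ℂ) (a b : ℝ) :
    IsLinearMap ℝ (fun l : ℂ => a * (l * conj u).im + b * (l * conj u).re) := by
  constructor
  · intro x y
    simp only [add_mul, Complex.add_im, Complex.add_re]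
    ring
  · intro c x
    simp only [Complex.real_smul, mul_assoc, Complex.re_ofReal_mul, Complex.im_ofReal_mul,
      smul_eq_mul]
    ring

private theorem tri_half (q u : ℂ) (a b c : ℝ) :
    Convex ℝ {l : ℂ | a * ((l - q) * conj u).im + b * ((l - q) * conj u).re < c} := by
  have h := convex_halfSpace_lt (𝕜 := ℝ) (tri_lin u a b)
    (c + (a * (q * conj u).im + b * (q * conj u).re))
  have h2 : {l : ℂ | a * ((l - q) * conj u).im + b * ((l - q) * conj u).re < c} =
      {l : ℂ | a * (l * conj u).im + b * (l * conj u).re <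
        c + (a * (q * conj u).im + b * (q * conj u).re)} := by
    ext l
    rw [mem_ofPred_eq, mem_ofPred_eq, sub_mul, Complex.sub_im, Complex.sub_re]
    constructor <;> intro h <;> linarith
  rw [h2]
  exact h

theorem tri_convex (q u : ℂ) {eta : ℝ} (heta : 0 ≤ eta) (rho : ℝ) : Convex ℝ (Tri q u eta rho) := by
  have _ := heta
  have h : Tri q u eta rho =
      ({l : ℂ | 1 * ((l - q) * conj u).im + (-eta) * ((l - q) * conj u).re < 0} ∩
        {l : ℂ | (-1) * ((l - q) * conj u).im + (-eta) * ((l - q) * conj u).re < 0}) ∩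
        {l : ℂ | 0 * ((l - q) * conj u).im + 1 * ((l - q) * conj u).re < rho} := by
    ext l
    simp only [Tri, mem_ofPred_eq, mem_inter_iff, abs_lt]
    constructor
    · rintro ⟨⟨h1, h2⟩, h3⟩
      refine ⟨⟨?_, ?_⟩, ?_⟩ <;> linarith
    · rintro ⟨⟨h1, h2⟩, h3⟩
      refine ⟨⟨?_, ?_⟩, ?_⟩ <;> linarith
  rw [h]
  exact ((tri_half q u _ _ _).inter (tri_half q u _ _ _)).inter (tri_half q u _ _ _)

private theorem tri_coord {q u N : ℂ} (hu : ‖u‖ = 1) {sg : ℝ} (hN : N = sg * (I * u)) (t s : ℝ) :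
    ((q + (t * u + s * N)) - q) * conj u = t + (sg * s : ℝ) * I := by
  have h1 : u * conj u = 1 := by
    rw [Complex.mul_conj, Complex.normSq_eq_norm_sq, hu]
    simp
  rw [hN]
  push_cast
  linear_combination (t + s * sg * I) * h1

private theorem tri_coord' {q u N : ℂ} (hu : ‖u‖ = 1) {sg : ℝ} (hsg : sg * sg = 1)
    (hN : N = sg * (I * u)) (l : ℂ) :
    l = q + ((((l - q) * conj u).re : ℝ) * u + ((sg * ((l - q) * conj u).im : ℝ) : ℂ) * N) := by
  have h1 : conj u * u = 1 := by
    rw [mul_comm, Complex.mul_conj, Complex.normSq_eq_norm_sq, hu]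
    simp
  have h2 : (((l - q) * conj u).re : ℂ) + ((l - q) * conj u).im * I = (l - q) * conj u :=
    Complex.re_add_im _
  have h3 : (sg : ℂ) * sg = 1 := by exact_mod_cast hsg
  rw [hN]
  push_cast
  linear_combination (-(u)) * h2 - (l - q) * h1 - (((l - q) * conj u).im * I * u) * h3

private theorem tri_main {q u N : ℂ} (hu : ‖u‖ = 1) {sg : ℝ} (hsg : sg * sg = 1)
    (hN : N = sg * (I * u)) {F : ℂ → ℝ} (hF : ContDiffAt ℝ 1 F q) (h0 : F q = 0)
    (h1 : fderiv ℝ F q u = 0) (h2 : fderiv ℝ F q N < 0) {eta : ℝ} (heta : 0 < eta)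
    (heta1 : eta ≤ 1) : ∃ rho0 > 0, ∀ rho : ℝ, 0 < rho → rho < rho0 →
      IsPreconnected ({l | F l ≤ 0} ∩ Tri q u eta rho) := by
  obtain ⟨kap, hkap⟩ : ∃ kap : ℝ, kap = - fderiv ℝ F q N := ⟨_, rfl⟩
  have hk : 0 < kap := by rw [hkap]; linarith
  have hNn : ‖N‖ = 1 := by
    rw [hN, norm_mul, norm_mul, hu, Complex.norm_I, Complex.norm_real, Real.norm_eq_abs]
    have : |sg| * |sg| = 1 := by rw [← abs_mul, hsg, abs_one]
    have h3 : |sg| = 1 := by nlinarith [abs_nonneg sg]
    rw [h3]
    norm_num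
  -- the derivative near `q`
  have hd : ∀ᶠ l in 𝓝 q, fderiv ℝ F l N < -(kap / 2) := by
    have hc : ContinuousAt (fun l => fderiv ℝ F l N) q :=
      ((hF.fderiv_right (m := 0) (by norm_num)).continuousAt).clm_apply continuousAt_const
    refine hc.eventually (gt_mem_nhds ?_)
    linarith
  have hdf : ∀ᶠ l in 𝓝 q, DifferentiableAt ℝ F l := by
    filter_upwards [hF.eventually (by norm_num)] with l hl
    exact hl.differentiableAt (by norm_num)
  have ho : ∀ᶠ l in 𝓝 q, ‖F l - F q - fderiv ℝ F q (l - q)‖ ≤ (kap * eta / 8) * ‖l - q‖ := by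
    have h3 := (hF.differentiableAt (by norm_num)).hasFDerivAt.isLittleO
    exact h3.def (by positivity)
  obtain ⟨r0, hr0, hball⟩ := Metric.eventually_nhds_iff_ball.1 ((hd.and hdf).and ho)
  refine ⟨r0 / 2, by positivity, fun rho hrho hrho0 => ?_⟩
  -- points of the triangle
  have hmem : ∀ t s : ℝ, q + (t * u + s * N) ∈ Tri q u eta rho ↔ |s| < eta * t ∧ t < rho := by
    intro t s
    unfold Tri
    rw [mem_ofPred_eq, tri_coord hu hN]
    have e1 : ((t : ℂ) + ((sg * s : ℝ) : ℂ) * I).im = sg * s := by simp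
    have e2 : ((t : ℂ) + ((sg * s : ℝ) : ℂ) * I).re = t := by simp
    rw [e1, e2, abs_mul]
    have : |sg| * |sg| = 1 := by rw [← abs_mul, hsg, abs_one]
    have h3 : |sg| = 1 := by nlinarith [abs_nonneg sg]
    rw [h3, one_mul]
  have hin : ∀ t s : ℝ, |s| < eta * t → t < rho → q + (t * u + s * N) ∈ ball q r0 := by
    intro t s hs ht
    rw [mem_ball, dist_eq_norm, add_sub_cancel_left]
    have ht0 : 0 < t := by
      have := (abs_nonneg s).trans_lt hs
      by_contra hcon
      nlinarith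
    have e1 : ‖(t : ℂ) * u + s * N‖ ≤ t + |s| := by
      refine (norm_add_le _ _).trans ?_
      rw [norm_mul, norm_mul, hu, hNn, Complex.norm_real, Complex.norm_real, Real.norm_eq_abs,
        Real.norm_eq_abs, abs_of_pos ht0, mul_one, mul_one]
    have e2 : eta * t ≤ t := by nlinarith
    linarith
  -- `F` decreases in `s`
  have hdec : ∀ t s s' : ℝ, t < rho → |s| < eta * t → |s'| < eta * t → s ≤ s' →
      F (q + (t * u + s' * N)) ≤ F (q + (t * u + s * N)) := by
    intro t s s' ht hs hs' hss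
    have hg : ∀ x ∈ Icc s s', HasDerivAt (fun x : ℝ => F (q + (t * u + x * N)))
        (fderiv ℝ F (q + (t * u + x * N)) N) x := by
      intro x hx
      have hx' : |x| < eta * t := by
        rw [abs_lt] at hs hs' ⊢
        exact ⟨by linarith [hx.1], by linarith [hx.2]⟩
      have hb := (hball _ (hin t x hx' ht)).1.2.hasFDerivAt
      have hl : HasDerivAt (fun x : ℝ => q + ((t : ℂ) * u + x * N)) N x := by
        have h3 : HasDerivAt (fun x : ℝ => (x : ℂ)) 1 x := Complex.ofRealCLM.hasDerivAt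
        have h4 := ((h3.mul_const N).const_add ((t : ℂ) * u)).const_add q
        simpa using h4
      exact hb.comp_hasDerivAt x hl
    have hanti : AntitoneOn (fun x : ℝ => F (q + (t * u + x * N))) (Icc s s') := by
      refine antitoneOn_of_deriv_nonpos (convex_Icc _ _) ?_ ?_ ?_
      · exact fun x hx => (hg x hx).continuousAt.continuousWithinAt
      · intro x hx
        exact (hg x (interior_subset hx)).differentiableAt.differentiableWithinAt
      · intro x hx
        rw [(hg x (interior_subset hx)).deriv]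
        have hx1 := interior_subset hx
        have hx' : |x| < eta * t := by
          rw [abs_lt] at hs hs' ⊢
          exact ⟨by linarith [hx1.1], by linarith [hx1.2]⟩
        have := (hball _ (hin t x hx' ht)).1.1
        linarith
    exact hanti (left_mem_Icc.2 hss) (right_mem_Icc.2 hss) hss
  -- `F < 0` in the upper part
  have hup : ∀ t s : ℝ, t < rho → eta * t / 2 ≤ s → s < eta * t → F (q + (t * u + s * N)) ≤ 0 := by
    intro t s ht hs1 hs2
    have ht0 : 0 < eta * t := by linarith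
    have ht1 : 0 < t := by
      by_contra hcon
      nlinarith
    have hs' : |s| < eta * t := by
      rw [abs_lt]
      exact ⟨by linarith, hs2⟩
    have h3 := (hball _ (hin t s hs' ht)).2
    rw [add_sub_cancel_left, h0, sub_zero] at h3
    have e1 : ‖(t : ℂ) * u + s * N‖ ≤ 2 * t := by
      refine (norm_add_le _ _).trans ?_
      rw [norm_mul, norm_mul, hu, hNn, Complex.norm_real, Complex.norm_real, Real.norm_eq_abs,
        Real.norm_eq_abs, abs_of_pos ht1, mul_one, mul_one]
      have : eta * t ≤ t := by nlinarith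
      linarith
    have e2 : fderiv ℝ F q ((t : ℂ) * u + s * N) = -(kap * s) := by
      have e3 : (t : ℂ) * u + s * N = t • u + s • N := by
        rw [Complex.real_smul, Complex.real_smul]
      rw [e3, map_add, map_smul, map_smul, h1, hkap, smul_zero, smul_eq_mul]
      ring
    rw [e2, Real.norm_eq_abs] at h3
    have h4 := (abs_le.1 h3).2
    have h5 : kap * eta / 8 * ‖(t : ℂ) * u + s * N‖ ≤ kap * eta / 8 * (2 * t) :=
      mul_le_mul_of_nonneg_left e1 (by positivity)
    have h6 : kap * (eta * t / 2) ≤ kap * s := mul_le_mul_of_nonneg_left hs1 hk.le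
    have h7 : 0 < kap * (eta * t) := mul_pos hk ht0
    nlinarith
  -- the upper part
  obtain ⟨R, hR⟩ : ∃ R : Set ℂ, R = Tri q u eta rho ∩
      {l : ℂ | (-sg) * ((l - q) * conj u).im + (eta / 2) * ((l - q) * conj u).re < 0} := ⟨_, rfl⟩
  have hRc : Convex ℝ R := by
    rw [hR]
    exact (tri_convex q u heta.le rho).inter (tri_half q u _ _ _)
  have hRm : ∀ t s : ℝ, q + (t * u + s * N) ∈ R ↔ (|s| < eta * t ∧ t < rho) ∧ eta * t / 2 < s := by
    intro t s
    rw [hR, mem_inter_iff, hmem, mem_ofPred_eq, tri_coord hu hN]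
    have e1 : ((t : ℂ) + ((sg * s : ℝ) : ℂ) * I).im = sg * s := by simp
    have e2 : ((t : ℂ) + ((sg * s : ℝ) : ℂ) * I).re = t := by simp
    rw [e1, e2]
    have e3 : -sg * (sg * s) = -s := by linear_combination (-s) * hsg
    rw [e3]
    constructor <;> rintro ⟨a, b⟩ <;> exact ⟨a, by linarith⟩
  have hRA : R ⊆ {l | F l ≤ 0} ∩ Tri q u eta rho := by
    intro l hl
    rw [tri_coord' (q := q) hu hsg hN l] at hl ⊢
    have h3 := (hRm _ _).1 hl
    exact ⟨hup _ _ h3.1.2 h3.2.le (abs_lt.1 h3.1.1).2, (hmem _ _).2 h3.1⟩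
  refine isPreconnected_of_forall (q + (((rho / 2 : ℝ) : ℂ) * u + ((eta * rho * 3 / 8 : ℝ) : ℂ) * N)) ?_
  intro y hy
  obtain ⟨t, ht⟩ : ∃ t : ℝ, t = ((y - q) * conj u).re := ⟨_, rfl⟩
  obtain ⟨s, hs⟩ : ∃ s : ℝ, s = sg * ((y - q) * conj u).im := ⟨_, rfl⟩
  have hyc := tri_coord' (q := q) hu hsg hN y
  rw [← ht, ← hs] at hyc
  rw [hyc] at hy ⊢
  obtain ⟨hy1, hy2⟩ := hy
  rw [hmem] at hy2
  rw [mem_ofPred_eq] at hy1
  have ht0 : 0 < eta * t := (abs_nonneg s).trans_lt hy2.1
  have hsm := abs_lt.1 hy2.1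
  obtain ⟨s', hs'⟩ : ∃ s' : ℝ, s' = max s (3 * (eta * t) / 4) := ⟨_, rfl⟩
  have hs1 : s ≤ s' := by rw [hs']; exact le_max_left _ _
  have hs2 : 3 * (eta * t) / 4 ≤ s' := by rw [hs']; exact le_max_right _ _
  have hs3 : s' < eta * t := by rw [hs']; exact max_lt hsm.2 (by linarith)
  have hyR : q + ((t : ℂ) * u + s' * N) ∈ R := by
    rw [hRm, abs_lt]
    exact ⟨⟨⟨by linarith, hs3⟩, hy2.2⟩, by linarith⟩
  refine ⟨R ∪ segment ℝ (q + ((t : ℂ) * u + s * N)) (q + ((t : ℂ) * u + s' * N)), ?_, Or.inl ?_,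
    Or.inr (left_mem_segment _ _ _), ?_⟩
  · refine union_subset hRA ?_
    rintro z ⟨a, b, ha, hb, hab, rfl⟩
    have hz : a • (q + ((t : ℂ) * u + s * N)) + b • (q + ((t : ℂ) * u + s' * N)) =
        q + ((t : ℂ) * u + ((a * s + b * s' : ℝ) : ℂ) * N) := by
      rw [Complex.real_smul, Complex.real_smul]
      push_cast
      have hab' : (a : ℂ) + b = 1 := by exact_mod_cast hab
      linear_combination (q + t * u) * hab'
    rw [hz]
    have e1 : s ≤ a * s + b * s' := by
      have : s = a * s + b * s := by rw [← add_mul, hab, one_mul]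
      nlinarith
    have e2 : a * s + b * s' ≤ s' := by
      have : s' = a * s' + b * s' := by rw [← add_mul, hab, one_mul]
      nlinarith
    have e3 : |a * s + b * s'| < eta * t := by
      rw [abs_lt]
      exact ⟨by linarith, by linarith⟩
    exact ⟨(hdec t s _ hy2.2 hy2.1 e3 e1).trans hy1, (hmem _ _).2 ⟨e3, hy2.2⟩⟩
  · rw [hRm, abs_lt]
    have : 0 < eta * rho := mul_pos heta hrho
    exact ⟨⟨⟨by linarith, by linarith⟩, by linarith⟩, by linarith⟩
  · exact IsPreconnected.union (q + ((t : ℂ) * u + s' * N)) hyR (right_mem_segment _ _ _)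
      hRc.isPreconnected (convex_segment _ _).isPreconnected

theorem tri_conn {q u : ℂ} (hu : ‖u‖ = 1) {F : ℂ → ℝ} (hF : ContDiffAt ℝ 1 F q) (h0 : F q = 0)
    (h1 : fderiv ℝ F q u = 0) (h2 : fderiv ℝ F q (I * u) ≠ 0) :
    ∀ eta : ℝ, 0 < eta → eta ≤ 1 → ∃ rho0 > 0, ∀ rho : ℝ, 0 < rho → rho < rho0 →
      IsPreconnected ({l | F l ≤ 0} ∩ Tri q u eta rho) := by
  intro eta heta heta1
  rcases lt_or_gt_of_ne h2 with h | h
  · exact tri_main (sg := 1) hu (by norm_num) (N := I * u) (by simp) hF h0 h1 h heta heta1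
  · refine tri_main (sg := -1) hu (by norm_num) (N := -(I * u)) (by simp) hF h0 h1 ?_ heta heta1
    rw [map_neg]
    linarith

end Pool.Agent.TBirM
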