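import Pool.Agent.TBirM.Brn
import Pool.Agent.TBirM.TriC

/-!
# The spectrum in a thin triangle

Paper proof. Take `R, k, x, g` from `exists_branches`. Let `F j l = ‖g j l‖ ^ 2 - 1` (real, `C^1` near `q`, `F j q = 0`)
and `a j = deriv (g j) q / g j q`; `deriv (g j) q * deriv phi (g j q) = 1` (chain rule), so `a j ≠ 0`,
`a j = (z phi' z)⁻¹`, `z = g j q`, and `fderiv ℝ (F j) q v = 2 * (a j * v).re`. `Trans` says that
`(conj (a i) * a j).im ≠ 0` for `i ≠ j`. So `(a j * u).re = 0` for at most one `j`.
If `(a j * u).re ≠ 0` there are `eta_j`, `rho_j` such that `F j` has the sign of `(a j * u).re` on `Tri q u eta_j rho_j`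
(differentiability at `q`; `‖l - q‖ ≤ 2 t` on the triangle); the same for smaller `eta`, `rho`.
Case 1: `(a j * u).re ≠ 0` for all `j`. In a thin triangle there is no point of `J phi` (a point `phi z`, `‖z‖ = 1`, has
`F j (phi z) = 0` for some `j`) and the number of `j` with `‖g j l‖ < 1` is constant: `Sg phi ∩ Tri` is empty or `Tri`,
which is convex (`tri_convex`).
Case 2: `(a i * u).re = 0` for exactly one `i`. Then `fderiv ℝ (F i) q (I * u) ≠ 0`. In a thin triangle the signs of
the `F j`, `j ≠ i`, are constant, a point is in `J phi` iff `F i l = 0` (if `F i l = 0` then `‖g i l‖ = 1`,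
`phi (g i l) = l`), and off `J phi` the winding number is `n + 1` if `F i l < 0` and `n` if `F i l > 0`, with a fixed
integer `n`. So `Sg phi ∩ Tri` is `{F i ≤ 0} ∩ Tri` (`n = 0`), `{0 ≤ F i} ∩ Tri` (`n = -1`; apply `tri_conn` to `- F i`) or
`Tri` (otherwise).
-/

set_option autoImplicit false

open MeasureTheory Complex Set Filter Topology Metric AddCircle
open scoped ComplexConjugate InnerProductSpace ENNReal

namespace Pool.Agent.TBirM

open Pool.Agent.TBir Pool.Agent.TBirG
open Pool.Agent.TBirS (Sg)

private theorem tri_coord {q u l : ℂ} (hu : ‖u‖ = 1) :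
    l - q = ((l - q) * conj u).re • u + ((l - q) * conj u).im • (I * u) := by
  have h1 : conj u * u = 1 := by
    rw [mul_comm, Complex.mul_conj, Complex.normSq_eq_norm_sq, hu]
    simp
  have h2 := Complex.re_add_im ((l - q) * conj u)
  rw [Complex.real_smul, Complex.real_smul]
  linear_combination (-(l - q)) * h1 - u * h2

private theorem tri_norm {q u l : ℂ} {eta rho : ℝ} (hu : ‖u‖ = 1) (he0 : 0 < eta) (he : eta ≤ 1)
    (hl : l ∈ Tri q u eta rho) :
    0 < ((l - q) * conj u).re ∧ ‖l - q‖ ≤ 2 * ((l - q) * conj u).re := by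
  have h1 := hl.1
  set t := ((l - q) * conj u).re with ht
  set s := ((l - q) * conj u).im with hs
  have h2 : 0 ≤ |s| := abs_nonneg s
  have h3 : 0 < t := by
    by_contra h
    push Not at h
    nlinarith
  refine ⟨h3, ?_⟩
  have h4 : ‖l - q‖ = ‖(l - q) * conj u‖ := by
    rw [norm_mul, RCLike.norm_conj, hu, mul_one]
  rw [h4]
  refine (Complex.norm_le_abs_re_add_abs_im _).trans ?_
  have h5 : |((l - q) * conj u).re| = t := abs_of_pos h3
  rw [h5]
  change t + |s| ≤ 2 * t
  nlinarith

private theorem tri_ball {q u : ℂ} (hu : ‖u‖ = 1) {eta : ℝ} (he0 : 0 < eta) (he : eta ≤ 1) {R : ℝ}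
    (hR : 0 < R) : ∀ᶠ rho : ℝ in 𝓝[>] 0, Tri q u eta rho ⊆ ball q R := by
  filter_upwards [Ioc_mem_nhdsGT (show (0 : ℝ) < R / 2 by linarith)] with rho hrho l hl
  have h1 := tri_norm hu he0 he hl
  have h2 := hl.2
  rw [mem_ball, dist_eq_norm]
  have h3 := hrho.2
  linarith [h1.2]

private theorem sign_pos {F : ℂ → ℝ} {L : ℂ →L[ℝ] ℝ} {q u : ℂ} (hu : ‖u‖ = 1)
    (hF : HasFDerivAt F L q) (h0 : F q = 0) (hL : 0 < L u) :
    ∀ᶠ eta : ℝ in 𝓝[>] 0, ∀ᶠ rho : ℝ in 𝓝[>] 0, ∀ l ∈ Tri q u eta rho, 0 < F l := by
  set δ := L u with hδ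
  set M := |L (I * u)| with hM
  have hM0 : 0 ≤ M := abs_nonneg _
  have h1 := hF.isLittleO.def (show (0 : ℝ) < δ / 8 by linarith)
  rw [Metric.eventually_nhds_iff_ball] at h1
  obtain ⟨r, hr, h2⟩ := h1
  have hpos : 0 < min 1 (δ / (2 * (M + 1))) := lt_min one_pos (by positivity)
  filter_upwards [Ioc_mem_nhdsGT hpos] with eta heta
  have he0 : 0 < eta := heta.1
  have he1 : eta ≤ 1 := heta.2.trans (min_le_left _ _)
  have he2 : eta * M ≤ δ / 2 := by
    have h3 : eta ≤ δ / (2 * (M + 1)) := heta.2.trans (min_le_right _ _)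
    rw [le_div_iff₀ (by positivity)] at h3
    nlinarith
  filter_upwards [tri_ball (q := q) hu he0 he1 hr] with rho hrho l hl
  have h4 := h2 l (hrho hl)
  obtain ⟨h5, h6⟩ := tri_norm hu he0 he1 hl
  have h7 := hl.1
  set t := ((l - q) * conj u).re with ht
  set s := ((l - q) * conj u).im with hs
  have h8 : L (l - q) = t * δ + s * L (I * u) := by
    have h9 : l - q = t • u + s • (I * u) := tri_coord hu
    rw [h9, map_add, map_smul, map_smul, smul_eq_mul, smul_eq_mul]
  have h10 : -(|s| * M) ≤ s * L (I * u) := by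
    rw [hM, ← abs_mul]
    exact neg_abs_le _
  rw [h0, sub_zero, h8, Real.norm_eq_abs] at h4
  have h11 := (abs_le.1 h4).1
  have h12 : |s| * M ≤ t * (δ / 2) := by
    calc |s| * M ≤ eta * t * M := mul_le_mul_of_nonneg_right h7.le hM0
      _ = t * (eta * M) := by ring
      _ ≤ t * (δ / 2) := mul_le_mul_of_nonneg_left he2 h5.le
  have h13 : δ / 8 * ‖l - q‖ ≤ δ / 8 * (2 * t) := by
    refine mul_le_mul_of_nonneg_left h6 (by linarith)
  have h14 : 0 < t * δ := mul_pos h5 hL
  linarith

/-- the function `‖g‖ ^ 2 - 1` at a point where `‖g‖ = 1` -/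
private theorem hasFDerivAt_F {g : ℂ → ℂ} {q : ℂ} (hg : DifferentiableAt ℂ g q) :
    ∃ L : ℂ →L[ℝ] ℝ, HasFDerivAt (fun l => ‖g l‖ ^ 2 - 1) L q ∧
      ∀ v, L v = 2 * (conj (g q) * deriv g q * v).re := by
  have h1 : HasFDerivAt g ((ContinuousLinearMap.toSpanSingleton ℂ (deriv g q)).restrictScalars ℝ)
      q := hg.hasDerivAt.hasFDerivAt.restrictScalars ℝ
  refine ⟨_, (h1.norm_sq.sub_const 1), fun v => ?_⟩
  simp [Complex.inner]
  ring

private theorem contDiffAt_F {g : ℂ → ℂ} {q : ℂ} (hg : AnalyticAt ℂ g q) :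
    ContDiffAt ℝ 1 (fun l => ‖g l‖ ^ 2 - 1) q := by
  have h1 : ContDiffAt ℝ 1 g q := (hg.contDiffAt (n := 1)).restrict_scalars ℝ
  exact (h1.norm_sq ℝ).sub contDiffAt_const

private theorem exists_rho0 {P : ℝ → Prop} (h : ∀ᶠ rho : ℝ in 𝓝[>] 0, P rho) :
    ∃ rho0 > 0, ∀ rho : ℝ, 0 < rho → rho < rho0 → P rho := by
  obtain ⟨b, hb, h1⟩ := mem_nhdsGT_iff_exists_Ioo_subset.1 h
  exact ⟨b, hb, fun rho h2 h3 => h1 ⟨h2, h3⟩⟩

private theorem re_unique {A B X : ℂ} (hX : X * (conj A * B) = 1) (hA : A.re = 0)
    (hB : B.re = 0) : X.im = 0 := by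
  have h1 : (conj A * B).im = 0 := by
    simp [Complex.mul_im, hA, hB]
  set w := conj A * B with hw
  have h2 : X.im * w.re = 0 := by
    have h3 := congrArg Complex.im hX
    rw [Complex.mul_im, h1] at h3
    simpa using h3
  rcases mul_eq_zero.1 h2 with h | h
  · exact h
  · exfalso
    have h4 : w = 0 := Complex.ext h h1
    rw [h4, mul_zero] at hX
    exact zero_ne_one hX

theorem sg_tri {phi : ℂ → ℂ} (hana : AnalyticOnNhd ℂ phi (sphere 0 1)) (hNC : NC phi)
    {q : ℂ} (hq : ∀ z ∈ sphere (0 : ℂ) 1, phi z = q → deriv phi z ≠ 0) (htr : Trans phi q)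
    {u : ℂ} (hu : ‖u‖ = 1) :
    ∃ eta > 0, ∃ rho0 > 0, ∀ rho : ℝ, 0 < rho → rho < rho0 →
      IsPreconnected (Sg phi ∩ Tri q u eta rho) := by
  classical
  obtain ⟨R, k, x, g, hR, hd, h1, hne, hphi, hsol, hwd⟩ := exists_branches hana hNC hq
  have hqR : q ∈ ball q R := mem_ball_self hR
  have han : ∀ j, AnalyticAt ℂ (g j) q := fun j => (hd j).analyticAt (ball_mem_nhds q hR)
  have hdiff : ∀ j, DifferentiableAt ℂ (g j) q := fun j => (han j).differentiableAt
  have hu1 : conj u * u = 1 := by
    rw [mul_comm, Complex.mul_conj, Complex.normSq_eq_norm_sq, hu]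
    simp
  set F : Fin k → ℂ → ℝ := fun j l => ‖g j l‖ ^ 2 - 1 with hF
  set a : Fin k → ℂ := fun j => conj (g j q) * deriv (g j) q with ha
  have hF0 : ∀ j, F j q = 0 := fun j => by simp [hF, h1]
  have htau : ∀ j, a j * (g j q * deriv phi (g j q)) = 1 := by
    intro j
    have hz : g j q ∈ sphere (0 : ℂ) 1 := by simp [h1]
    have hph : HasDerivAt phi (deriv phi (g j q)) (g j q) :=
      (hana _ hz).differentiableAt.hasDerivAt
    have hcomp := hph.comp q (hdiff j).hasDerivAt
    have hid : HasDerivAt (phi ∘ g j) 1 q := by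
      refine (hasDerivAt_id q).congr_of_eventuallyEq ?_
      filter_upwards [ball_mem_nhds q hR] with l hl
      exact hphi j l hl
    have h2 := hcomp.unique hid
    have h3 : conj (g j q) * g j q = 1 := by
      rw [mul_comm, Complex.mul_conj, Complex.normSq_eq_norm_sq, h1]
      simp
    simp only [ha]
    linear_combination (deriv (g j) q * deriv phi (g j q)) * h3 + h2
  have hatmost : ∀ i j, (a i * u).re = 0 → (a j * u).re = 0 → i = j := by
    intro i j hi hj
    by_contra hij
    have hzi : g i q ∈ sphere (0 : ℂ) 1 := by simp [h1]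
    have hzj : g j q ∈ sphere (0 : ℂ) 1 := by simp [h1]
    refine htr (g i q) hzi (g j q) hzj (hphi i q hqR) (hphi j q hqR) (hne i j hij) ?_
    refine re_unique (A := a i * u) (B := a j * u) ?_ hi hj
    have h2 := congrArg conj (htau i)
    have h3 := htau j
    rw [map_mul, map_one] at h2
    rw [map_mul (starRingEnd ℂ) (a i) u]
    linear_combination (conj u * u) * (a j * (g j q * deriv phi (g j q))) * h2 +
      (conj u * u) * h3 + hu1
  have hL : ∀ j, ∃ L : ℂ →L[ℝ] ℝ, HasFDerivAt (F j) L q ∧ ∀ v, L v = 2 * (a j * v).re :=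
    fun j => hasFDerivAt_F (hdiff j)
  have hsign1 : ∀ j, ∀ᶠ eta : ℝ in 𝓝[>] 0, ∀ᶠ rho : ℝ in 𝓝[>] 0, ∀ l ∈ Tri q u eta rho,
      (0 < (a j * u).re → 0 < F j l) ∧ ((a j * u).re < 0 → F j l < 0) := by
    intro j
    obtain ⟨L, hL1, hL2⟩ := hL j
    rcases lt_trichotomy (a j * u).re 0 with h | h | h
    · have h2 := sign_pos (F := fun l => - F j l) hu hL1.neg (by simp [hF0])
        (by
          change 0 < - L u
          rw [hL2]
          linarith)
      filter_upwards [h2] with eta h3
      filter_upwards [h3] with rho h4 l hl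
      exact ⟨fun h5 => absurd h5 (not_lt.2 h.le), fun _ => by linarith [h4 l hl]⟩
    · refine Eventually.of_forall fun eta => Eventually.of_forall fun rho l _ => ?_
      exact ⟨fun h5 => absurd h5 (by rw [h]; exact lt_irrefl _),
        fun h5 => absurd h5 (by rw [h]; exact lt_irrefl _)⟩
    · have h2 := sign_pos (F := F j) hu hL1 (hF0 j) (by rw [hL2]; linarith)
      filter_upwards [h2] with eta h3
      filter_upwards [h3] with rho h4 l hl
      exact ⟨fun _ => h4 l hl, fun h5 => absurd h5 (not_lt.2 h.le)⟩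
  have hsign : ∀ᶠ eta : ℝ in 𝓝[>] 0, ∀ᶠ rho : ℝ in 𝓝[>] 0, ∀ l ∈ Tri q u eta rho, ∀ j,
      (0 < (a j * u).re → 0 < F j l) ∧ ((a j * u).re < 0 → F j l < 0) := by
    filter_upwards [Filter.eventually_all.2 hsign1] with eta h2
    filter_upwards [Filter.eventually_all.2 h2] with rho h3 l hl j
    exact h3 j l hl
  obtain ⟨eta, hev, he0, he1⟩ :=
    (hsign.and (Ioc_mem_nhdsGT (show (0 : ℝ) < 1 from one_pos))).exists
  have hball := tri_ball (q := q) hu he0 he1 hR
  have hJ : ∀ l ∈ ball q R, (l ∈ J phi ↔ ∃ j, F j l = 0) := by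
    intro l hl
    constructor
    · rintro ⟨z, hz, rfl⟩
      obtain ⟨j, hj⟩ := hsol z hz hl
      refine ⟨j, ?_⟩
      simp only [hF]
      rw [← hj]
      rw [mem_sphere_zero_iff_norm] at hz
      rw [hz]
      norm_num
    · rintro ⟨j, hj⟩
      refine ⟨g j l, ?_, hphi j l hl⟩
      rw [mem_sphere_zero_iff_norm]
      simp only [hF] at hj
      have h2 : ‖g j l‖ ^ 2 = 1 := by linarith
      exact (pow_eq_one_iff_of_nonneg (norm_nonneg _) two_ne_zero).1 h2
  have hlt : ∀ l j, ‖g j l‖ < 1 ↔ F j l < 0 := by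
    intro l j
    simp only [hF, sub_neg]
    exact (pow_lt_one_iff_of_nonneg (norm_nonneg _) two_ne_zero).symm
  have hw : ∀ l ∈ ball q R, l ∉ J phi →
      wd phi l = ((x + ((Finset.univ.filter fun j => F j l < 0).card : ℤ) : ℤ) : ℂ) := by
    intro l hl hlJ
    rw [hwd l hl hlJ]
    simp only [hlt]
  refine ⟨eta, he0, ?_⟩
  set N : ℤ := x + ((Finset.univ.filter fun j => (a j * u).re < 0).card : ℤ) with hN
  by_cases hcase : ∀ j, (a j * u).re ≠ 0
  · refine exists_rho0 ?_
    filter_upwards [hev, hball] with rho h2 h3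
    have hnJ : ∀ l ∈ Tri q u eta rho, l ∉ J phi := by
      intro l hl hlJ
      obtain ⟨j, hj⟩ := (hJ l (h3 hl)).1 hlJ
      rcases lt_or_gt_of_ne (hcase j) with h | h
      · exact ((h2 l hl j).2 h).ne hj
      · exact ((h2 l hl j).1 h).ne' hj
    have hwN : ∀ l ∈ Tri q u eta rho, wd phi l = (N : ℂ) := by
      intro l hl
      rw [hw l (h3 hl) (hnJ l hl), hN]
      congr 4
      ext j
      simp only [Finset.mem_filter, Finset.mem_univ, true_and]
      constructor
      · intro h
        rcases lt_or_gt_of_ne (hcase j) with h4 | h4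
        · exact h4
        · exact absurd ((h2 l hl j).1 h4) (not_lt.2 h.le)
      · exact (h2 l hl j).2
    by_cases hN0 : N = 0
    · have h4 : Sg phi ∩ Tri q u eta rho = ∅ := by
        ext l
        simp only [Set.mem_inter_iff, Set.mem_empty_iff_false, iff_false, not_and]
        rintro (h | h) hl
        · exact hnJ l hl h
        · rw [hwN l hl, hN0] at h
          simp at h
      rw [h4]
      exact isPreconnected_empty
    · have h4 : Sg phi ∩ Tri q u eta rho = Tri q u eta rho := by
        refine Set.inter_eq_self_of_subset_right fun l hl => Or.inr ?_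
        rw [hwN l hl]
        exact_mod_cast hN0
      rw [h4]
      exact (tri_convex q u he0.le rho).isPreconnected
  · push Not at hcase
    obtain ⟨i, hi⟩ := hcase
    have hj0 : ∀ j, j ≠ i → (a j * u).re ≠ 0 := fun j hj h => hj (hatmost j i h hi)
    obtain ⟨L, hL1, hL2⟩ := hL i
    have hai : a i ≠ 0 := by
      intro h
      have h2 := htau i
      rw [h, zero_mul] at h2
      exact zero_ne_one h2
    have hu0 : u ≠ 0 := by
      rintro rfl
      simp at hu
    have him : (a i * u).im ≠ 0 := fun h => mul_ne_zero hai hu0 (Complex.ext hi h)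
    have hc := contDiffAt_F (han i)
    have e1 : fderiv ℝ (F i) q u = 0 := by
      rw [hL1.fderiv, hL2, hi, mul_zero]
    have e2 : fderiv ℝ (F i) q (I * u) ≠ 0 := by
      rw [hL1.fderiv, hL2]
      have h2 : (a i * (I * u)).re = - (a i * u).im := by
        have h3 : a i * (I * u) = I * (a i * u) := by ring
        rw [h3]
        simp
      rw [h2]
      exact mul_ne_zero two_ne_zero (neg_ne_zero.2 him)
    obtain ⟨rho1, hr1, hc1⟩ := tri_conn hu hc (hF0 i) e1 e2 eta he0 he1
    have hLn : HasFDerivAt (fun l => - F i l) (-L) q := hL1.neg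
    have e3 : fderiv ℝ (fun l => - F i l) q u = 0 := by
      have h2 : (-L) u = - L u := rfl
      rw [hLn.fderiv, h2, hL2, hi]
      simp
    have e4 : fderiv ℝ (fun l => - F i l) q (I * u) ≠ 0 := by
      have h2 : (-L) (I * u) = - L (I * u) := rfl
      rw [hLn.fderiv, h2, ← hL1.fderiv]
      exact neg_ne_zero.2 e2
    obtain ⟨rho2, hr2, hc2⟩ := tri_conn (F := fun l => - F i l) hu hc.neg
      (by simp [hF0]) e3 e4 eta he0 he1
    refine exists_rho0 ?_
    filter_upwards [hev, hball, Ioo_mem_nhdsGT hr1, Ioo_mem_nhdsGT hr2] with rho h2 h3 h4 h5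
    have hJi : ∀ l ∈ Tri q u eta rho, (l ∈ J phi ↔ F i l = 0) := by
      intro l hl
      rw [hJ l (h3 hl)]
      constructor
      · rintro ⟨j, hj⟩
        by_cases hji : j = i
        · rw [← hji]
          exact hj
        · exfalso
          rcases lt_or_gt_of_ne (hj0 j hji) with h | h
          · exact ((h2 l hl j).2 h).ne hj
          · exact ((h2 l hl j).1 h).ne' hj
      · exact fun h => ⟨i, h⟩
    have hneg : ∀ l ∈ Tri q u eta rho, F i l < 0 → wd phi l = ((N + 1 : ℤ) : ℂ) := by
      intro l hl hFl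
      have hlJ : l ∉ J phi := fun h => hFl.ne ((hJi l hl).1 h)
      rw [hw l (h3 hl) hlJ, hN]
      have h6 : (Finset.univ.filter fun j => F j l < 0) =
          insert i (Finset.univ.filter fun j => (a j * u).re < 0) := by
        ext j
        simp only [Finset.mem_filter, Finset.mem_univ, true_and, Finset.mem_insert]
        by_cases hji : j = i
        · rw [hji]
          simp [hFl]
        · constructor
          · intro h
            right
            rcases lt_or_gt_of_ne (hj0 j hji) with h7 | h7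
            · exact h7
            · exact absurd ((h2 l hl j).1 h7) (not_lt.2 h.le)
          · rintro (h | h)
            · exact absurd h hji
            · exact (h2 l hl j).2 h
      rw [h6, Finset.card_insert_of_notMem (by rw [Finset.mem_filter, hi]; simp)]
      push_cast
      ring
    have hpos : ∀ l ∈ Tri q u eta rho, 0 < F i l → wd phi l = (N : ℂ) := by
      intro l hl hFl
      have hlJ : l ∉ J phi := fun h => hFl.ne' ((hJi l hl).1 h)
      rw [hw l (h3 hl) hlJ, hN]
      have h6 : (Finset.univ.filter fun j => F j l < 0) =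
          Finset.univ.filter fun j => (a j * u).re < 0 := by
        ext j
        simp only [Finset.mem_filter, Finset.mem_univ, true_and]
        by_cases hji : j = i
        · rw [hji, hi]
          simp [hFl.le]
        · constructor
          · intro h
            rcases lt_or_gt_of_ne (hj0 j hji) with h7 | h7
            · exact h7
            · exact absurd ((h2 l hl j).1 h7) (not_lt.2 h.le)
          · exact (h2 l hl j).2
      rw [h6]
    by_cases hN0 : N = 0
    · have h6 : Sg phi ∩ Tri q u eta rho = {l | F i l ≤ 0} ∩ Tri q u eta rho := by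
        ext l
        simp only [Set.mem_inter_iff]
        refine and_congr_left fun hl => ?_
        constructor
        · rintro (h | h)
          · exact ((hJi l hl).1 h).le
          · by_contra h7
            have h8 : 0 < F i l := not_le.1 h7
            rw [hpos l hl h8, hN0] at h
            simp at h
        · intro h
          rcases lt_or_eq_of_le (show F i l ≤ 0 from h) with h7 | h7
          · refine Or.inr ?_
            rw [hneg l hl h7, hN0]
            simp
          · exact Or.inl ((hJi l hl).2 h7)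
      rw [h6]
      exact hc1 rho h4.1 h4.2
    by_cases hN1 : N = -1
    · have h6 : Sg phi ∩ Tri q u eta rho = {l | - F i l ≤ 0} ∩ Tri q u eta rho := by
        ext l
        simp only [Set.mem_inter_iff]
        refine and_congr_left fun hl => ?_
        constructor
        · rintro (h | h)
          · exact (neg_eq_zero.2 ((hJi l hl).1 h)).le
          · by_contra h7
            have h8 : F i l < 0 := by
              have h9 : 0 < - F i l := not_le.1 h7
              linarith
            rw [hneg l hl h8, hN1] at h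
            simp at h
        · intro h
          rcases lt_or_eq_of_le (show - F i l ≤ 0 from h) with h7 | h7
          · refine Or.inr ?_
            rw [hpos l hl (by linarith), hN1]
            simp
          · exact Or.inl ((hJi l hl).2 (by linarith))
      rw [h6]
      exact hc2 rho h5.1 h5.2
    have h6 : Sg phi ∩ Tri q u eta rho = Tri q u eta rho := by
      refine Set.inter_eq_self_of_subset_right fun l hl => ?_
      rcases lt_trichotomy (F i l) 0 with h | h | h
      · refine Or.inr ?_
        rw [hneg l hl h]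
        have h7 : N + 1 ≠ 0 := by omega
        exact_mod_cast h7
      · exact Or.inl ((hJi l hl).2 h)
      · refine Or.inr ?_
        rw [hpos l hl h]
        exact_mod_cast hN0
    rw [h6]
    exact (tri_convex q u he0.le rho).isPreconnected

end Pool.Agent.TBirM
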